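import Pool.Agent.Helper45.HG.Data
import Pool.Agent.Helper45.HG.Comb
import Pool.Agent.Helper45.HP.Padic
import Pool.Agent.Helper91.Section.Main2

/-!
# The place and the signs
-/

set_option autoImplicit false
set_option linter.unusedSectionVars false

universe u

namespace Pool.Agent.HG

open Polynomial Pool.Agent.Helper91.Sect

theorem zpow_eq_one_of_lt {Γ : Type*} [LinearOrderedCommGroupWithZero Γ] {t : Γ} (h0 : t ≠ 0)
    (h1 : t < 1) {n : ℤ} (h : t ^ n = 1) : n = 0 := by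
  have hpos : (0 : Γ) < t := zero_lt_iff.2 h0
  rcases lt_trichotomy n 0 with hn | hn | hn
  · exfalso
    obtain ⟨m, hm⟩ : ∃ m : ℕ, n = -(m : ℤ) := ⟨n.natAbs, by omega⟩
    rw [hm, zpow_neg, zpow_natCast, inv_eq_one] at h
    have hm0 : m ≠ 0 := by omega
    exact (pow_lt_one₀ zero_le h1 hm0).ne h
  · exact hn
  · exfalso
    obtain ⟨m, hm⟩ : ∃ m : ℕ, n = (m : ℤ) := ⟨n.natAbs, by omega⟩
    rw [hm, zpow_natCast] at h
    have hm0 : m ≠ 0 := by omega
    exact (pow_lt_one₀ zero_le h1 hm0).ne h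

section

variable {k : Type u} [Field k] {O : ValuationSubring k} {p ff : ℕ}

/-- the properties of the valuation ring of a number field at an unramified prime above `p` -/
structure PL (O : ValuationSubring k) (p ff : ℕ) : Prop where
  lt : O.valuation (p : k) < 1
  frob : ∀ z ∈ O, O.valuation (z ^ (p ^ ff) - z) < 1
  unif : ∀ z : k, z ≠ 0 → ∃ a : ℤ, O.valuation (z * (p : k) ^ a) = 1

theorem PL.int_unit (h : PL O p ff) {n : ℕ} (hn : n.Coprime p) : O.valuation (n : k) = 1 := by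
  have h1 : IsCoprime (n : ℤ) (p : ℤ) := by
    rw [Nat.isCoprime_iff_coprime]
    exact hn
  obtain ⟨a, b, hab⟩ := h1
  have hle : ∀ m : ℤ, O.valuation (m : k) ≤ 1 := fun m =>
    (O.valuation_le_one_iff _).2 (intCast_mem O m)
  refine le_antisymm (by exact_mod_cast hle n) ?_
  by_contra hlt
  rw [not_le] at hlt
  have h2 : (1 : k) = (n : k) * (a : k) + (p : k) * (b : k) := by
    have h3 : ((a * n + b * p : ℤ) : k) = ((1 : ℤ) : k) := by rw [hab]
    push_cast at h3
    rw [← h3]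
    ring
  have h4 : O.valuation (1 : k) < 1 := by
    rw [h2]
    refine Valuation.map_add_lt _ ?_ ?_
    · rw [map_mul]
      exact mul_lt_one_of_lt_of_le hlt (hle a)
    · rw [map_mul]
      exact mul_lt_one_of_lt_of_le h.lt (hle b)
  rw [map_one] at h4
  exact lt_irrefl _ h4

theorem PL.odd (h : PL O p ff) (hp0 : (p : k) ≠ 0) (d : k) :
    O.valuation (p : k) ≠ O.valuation d ^ 2 := by
  intro heq
  have hvp : O.valuation (p : k) ≠ 0 := (Valuation.ne_zero_iff _).2 hp0
  have hd : d ≠ 0 := by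
    rintro rfl
    rw [map_zero, zero_pow two_ne_zero] at heq
    exact hvp heq
  obtain ⟨a, ha⟩ := h.unif d hd
  rw [map_mul, map_zpow₀] at ha
  have h1 : O.valuation d = O.valuation (p : k) ^ (-a) := by
    rw [zpow_neg]
    exact eq_inv_of_mul_eq_one_left ha
  have h5 : O.valuation (p : k) = O.valuation (p : k) ^ (-a * 2) := by
    conv_lhs => rw [heq, h1]
    rw [← zpow_natCast, ← zpow_mul]
    rfl
  have h2 : O.valuation (p : k) ^ (1 + 2 * a) = 1 := by
    have h6 : O.valuation (p : k) ^ (1 + 2 * a) =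
        O.valuation (p : k) * O.valuation (p : k) ^ (2 * a) := by rw [zpow_add₀ hvp, zpow_one]
    have h7 : O.valuation (p : k) * O.valuation (p : k) ^ (2 * a) =
        O.valuation (p : k) ^ (-a * 2) * O.valuation (p : k) ^ (2 * a) := by rw [← h5]
    rw [h6, h7, ← zpow_add₀ hvp]
    have h3 : -a * 2 + 2 * a = 0 := by ring
    rw [h3, zpow_zero]
  have h3 := zpow_eq_one_of_lt hvp h.lt h2
  omega

end

section

variable {k K : Type u} [Field k] [Field K] [Algebra k K] [CharZero k]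
  {s : GaloisSection k K} {x y : K} {f : k[X]} {c : k}

/-- The place. -/
structure Loc (d : Dat s x y f c) (O : ValuationSubring k) (p ff : ℕ) where
  hPL : PL O p ff
  hpp : p.Prime
  hp2 : Nat.Coprime 2 p
  Q : IC O (kbar k K)
  hQ : Q.IsPrime
  hA : Above Q
  γ : Gk k K
  hγ : InD Q γ
  hfr : ∀ z, (locW Q).valuation z ≤ 1 → Cg (locW Q).valuation (γ z) (z ^ (p ^ ff))
  hres : ∀ n : ℕ, n ≠ 0 → n.Coprime p → (locW Q).valuation (n : kbar k K) = 1
  hlc : (locW Q).valuation (algebraMap k (kbar k K) f.leadingCoeff) = 1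
  hint : ∀ r ∈ d.R, IsIntegral O r
  hIR : ∀ σ : Gk k K, InI Q σ → ∀ r ∈ d.R, σ r = r
  hQ1 : ∀ r ∈ d.R, ∀ r' ∈ d.R, r ≠ r' → (locW Q).valuation (r - r') = 1
  hno : ∀ τ : Gk k K, InI Q τ → ∀ ξ : AlgebraicClosure K ≃ₐ[K] AlgebraicClosure K,
    (∀ w : Kur k K, ξ w = s.toHom τ w) → ∀ ε : kbar k K → ℤˣ,
    (∀ r ∈ d.R, ξ (d.v r) = (((ε r : ℤˣ) : ℤ) : AlgebraicClosure K) * d.v r) →
    ∀ t : Fin 4 → kbar k K, Function.Injective t → (∀ i, t i ∈ d.R) → ε (t 0) = 1 → ε (t 1) = 1 →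
      ε (t 2) = -1 → ε (t 3) = -1 → False

attribute [instance] Loc.hQ

/-- good reduction of the branch points -/
structure Good (O : ValuationSubring k) (f : k[X]) : Prop where
  lc : O.valuation f.leadingCoeff = 1
  bez : ∃ fO aO bO : O[X], fO.map (algebraMap O k) = f ∧ aO * fO + bO * derivative fO = 1

theorem exists_loc (d : Dat s x y f c) {O : ValuationSubring k} {p ff : ℕ} (hpp : p.Prime)
    (hff : ff ≠ 0) (hO : PL O p ff) (hp2 : p ≠ 2) (hG : Good O f) : Nonempty (Loc d O p ff) := by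
  classical
  have hpf : Fact p.Prime := ⟨hpp⟩
  obtain ⟨Q, hQ, γ₀, hA, hγ₀D, hγ₀⟩ := exists_frob (S := k) (C := kbar k K) O p ff hO.lt hO.frob
  have hcop : Nat.Coprime 2 p := (Nat.coprime_primes Nat.prime_two hpp).2 (Ne.symm hp2)
  have hres : ∀ n : ℕ, n ≠ 0 → n.Coprime p → (locW Q).valuation (n : kbar k K) = 1 := by
    intro n _ hn
    have h1 := (locW_algebraMap_eq_one Q hA (a := (n : k))).2 (hO.int_unit hn)
    rwa [map_natCast] at h1
  obtain ⟨fO, aO, bO, hfO, hbez⟩ := hG.bez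
  have hinj : Function.Injective (algebraMap O k) := Subtype.coe_injective
  have hlcO : O.valuation ((fO.leadingCoeff : O) : k) = 1 := by
    have h1 := hG.lc
    rw [← hfO, leadingCoeff_map_of_injective hinj] at h1
    exact h1
  have hmO : ∀ n, O.valuation (((aO * fO + bO * derivative fO - 1).coeff n : O) : k) < 1 := by
    intro n
    rw [hbez, sub_self, coeff_zero]
    simp
  have hroot : ∀ r ∈ d.R, aeval r fO = 0 := by
    intro r hr
    have h1 := (d.hR r).1 hr
    rw [← hfO, aeval_map_algebraMap] at h1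
    exact h1
  have hIR : ∀ σ : Gk k K, InI Q σ → ∀ r ∈ d.R, σ r = r := fun σ hσ r hr =>
    inertia_fix_root Q hA hlcO hmO (hroot r hr) hσ
  have hQ1 : ∀ r ∈ d.R, ∀ r' ∈ d.R, r ≠ r' → (locW Q).valuation (r - r') = 1 :=
    fun r hr r' hr' hne => root_sep Q hA hlcO hmO (hroot r hr) (hroot r' hr') hne
  obtain ⟨N, hN0, hN⟩ := exists_pow_fix (fun r hr => d.gR γ₀ hr)
  have hm1 : 1 < (p ^ ff) ^ N :=
    Nat.one_lt_pow hN0.ne' (Nat.one_lt_pow hff hpp.one_lt)
  have hV2 : (locW Q).valuation (2 : kbar k K) = 1 := by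
    have := hres 2 two_ne_zero hcop
    exact_mod_cast this
  refine ⟨⟨hO, hpp, hcop, Q, hQ, hA, γ₀, hγ₀D, hγ₀, hres,
    (locW_algebraMap_eq_one Q hA).2 hG.lc, fun r hr => integral_root hlcO (hroot _ hr),
    hIR, hQ1, ?_⟩⟩
  intro τ hτ ξ hξ ε hε t ht htR h0 h1 h2 h3
  exact no_four_wild Q (Or.inr hpp) hcop hres d.htr d.a0_ne d.c_ne d.heq d.hv d.hv0 s hτ hξ hε
    hIR hQ1 hV2 hQ1 (hγ₀D.pow N) hN hm1 (frob_pow hγ₀ N) t ht htR h0 h1 h2 h3

/-- The group of signs: at most one of the signs is different. -/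
theorem Loc.comb {d : Dat s x y f c} {O : ValuationSubring k} {p ff : ℕ} (L : Loc d O p ff)
    (hev : Even d.R.card) {τ : Gk k K}
    (hτ : InI L.Q τ) {ξ : AlgebraicClosure K ≃ₐ[K] AlgebraicClosure K}
    (hξ : ∀ w : Kur k K, ξ w = s.toHom τ w) {ε : kbar k K → ℤˣ}
    (hε : ∀ r ∈ d.R, ξ (d.v r) = (((ε r : ℤˣ) : ℤ) : AlgebraicClosure K) * d.v r) :
    (∏ r ∈ d.R, ε r = 1 → ∀ a ∈ d.R, ∀ b ∈ d.R, ε a = ε b) ∧
      (∏ r ∈ d.R, ε r = -1 → ∃ a ∈ d.R, ∀ b ∈ d.R, b ≠ a → ε b = -ε a) := by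
  refine Pool.Agent.HG.comb d.R hev ε ?_
  intro a haR b hbR c' hcR e heR hab hce ha hb hc he
  refine L.hno τ hτ ξ hξ ε hε ![a, b, c', e] ?_ ?_ ha hb hc he
  · have hpm : (1 : ℤˣ) ≠ -1 := by decide
    have hac : a ≠ c' := fun h => by rw [h, hc] at ha; exact hpm ha.symm
    have hae : a ≠ e := fun h => by rw [h, he] at ha; exact hpm ha.symm
    have hbc : b ≠ c' := fun h => by rw [h, hc] at hb; exact hpm hb.symm
    have hbe : b ≠ e := fun h => by rw [h, he] at hb; exact hpm hb.symm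
    intro i j hij
    fin_cases i <;> fin_cases j
    all_goals first
      | rfl
      | exact (hab hij).elim
      | exact (hac hij).elim
      | exact (hae hij).elim
      | exact (hbc hij).elim
      | exact (hbe hij).elim
      | exact (hce hij).elim
      | exact (hab hij.symm).elim
      | exact (hac hij.symm).elim
      | exact (hae hij.symm).elim
      | exact (hbc hij.symm).elim
      | exact (hbe hij.symm).elim
      | exact (hce hij.symm).elim
  · intro i
    fin_cases i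
    · exact haR
    · exact hbR
    · exact hcR
    · exact heR

end

end Pool.Agent.HG
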