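import Mathlib

/-!
# Almost all primes are unramified in a number field
-/

set_option autoImplicit false

namespace Pool.Agent.HG

open NumberField IsDedekindDomain WithZero

theorem val_p_of_unram {F : Type} [Field F] [NumberField F] {p : ℕ} (hp : p.Prime)
    (h : ¬ (p : ℤ) ∣ discr F) (P : HeightOneSpectrum (𝓞 F)) (hP : (p : 𝓞 F) ∈ P.asIdeal) :
    P.valuation F (p : F) = exp (-1 : ℤ) := by
  have hpp : Prime (p : ℤ) := Nat.prime_iff_prime_int.1 hp
  have hun : Algebra.IsUnramifiedAt ℤ P.asIdeal := by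
    refine (not_dvd_discr_iff_forall_mem F (𝓞 F) hpp).1 h P.asIdeal P.isPrime ?_
    rw [Int.cast_natCast]
    exact hP
  obtain ⟨v, hv⟩ : ∃ v : HeightOneSpectrum ℤ, v.asIdeal = Ideal.span {(p : ℤ)} :=
    ⟨⟨Ideal.span {(p : ℤ)}, (Ideal.span_singleton_prime hpp.ne_zero).2 hpp, by
      rw [Ne, Ideal.span_singleton_eq_bot]; exact hpp.ne_zero⟩, rfl⟩
  have hlo : P.asIdeal.LiesOver v.asIdeal := by
    rw [hv]
    refine (Ideal.liesOver_span_iff P.isPrime.ne_top hpp).2 ?_
    rw [map_natCast]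
    exact hP
  have hmap : v.asIdeal.map (algebraMap ℤ (𝓞 F)) ≠ ⊥ := by
    rw [hv, Ideal.map_span, Set.image_singleton, Ne, Ideal.span_singleton_eq_bot, map_natCast]
    exact_mod_cast hp.ne_zero
  have hram : v.asIdeal.ramificationIdx' P.asIdeal = 1 := by
    rw [Ideal.ramificationIdx'_eq_ramificationIdx' v.asIdeal P.asIdeal hmap]
    exact Ideal.ramificationIdx_eq_one P.asIdeal ℤ
  have h1 := v.intValuation_liesOver P (p : ℤ)
  rw [hram, pow_one, v.intValuation_singleton hpp.ne_zero hv, map_natCast] at h1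
  have h2 : (algebraMap (𝓞 F) F) (p : 𝓞 F) = (p : F) := map_natCast _ _
  rw [h1, ← HeightOneSpectrum.valuation_of_algebraMap (K := F)]
  exact congrArg (P.valuation F) h2.symm

theorem exists_unram (F : Type) [Field F] [NumberField F] : ∃ M : ℕ, M ≠ 0 ∧
    ∀ p : ℕ, p.Prime → ¬ p ∣ M → ∀ P : HeightOneSpectrum (𝓞 F), (p : 𝓞 F) ∈ P.asIdeal →
      P.valuation F (p : F) = exp (-1 : ℤ) := by
  refine ⟨(discr F).natAbs, Int.natAbs_ne_zero.2 (discr_ne_zero F), fun p hp hM P hP => ?_⟩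
  exact val_p_of_unram hp (fun h => hM (Int.natCast_dvd.1 h)) P hP

/-- unramified: every element is a power of `p` times a unit -/
theorem exists_zpow {F : Type} [Field F] [NumberField F] {p : ℕ} {P : HeightOneSpectrum (𝓞 F)}
    (h : P.valuation F (p : F) = exp (-1 : ℤ)) {z : F} (hz : z ≠ 0) :
    ∃ a : ℤ, P.valuation F (z * (p : F) ^ a) = 1 := by
  have h0 : P.valuation F z ≠ 0 := (Valuation.ne_zero_iff _).2 hz
  refine ⟨log (P.valuation F z), ?_⟩
  rw [map_mul, map_zpow₀, h, ← exp_zsmul, ← exp_log h0, log_exp, ← exp_add]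
  simp

end Pool.Agent.HG
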