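import Pool.Agent.Helper13.HG.Base
import Pool.Agent.Helper45.HG.Loc
import Pool.Agent.Helper45.HG.Unram

/-!
# The valuation ring of a number field at a prime
-/

set_option autoImplicit false

namespace Pool.Agent.HG

open Polynomial NumberField IsDedekindDomain WithZero

section

variable {k : Type} [Field k] [NumberField k] (v : Pr k)

/-- the valuation ring -/
noncomputable def OV : ValuationSubring k := (v.valuation k).valuationSubring

theorem OV_mem (z : k) : z ∈ OV v ↔ v.valuation k z ≤ 1 := Iff.rfl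

theorem OV_equiv : (v.valuation k).IsEquiv (OV v).valuation :=
  Valuation.isEquiv_valuation_valuationSubring _

theorem OV_lt (z : k) : (OV v).valuation z < 1 ↔ v.valuation k z < 1 :=
  ((OV_equiv v).lt_one_iff_lt_one).symm

theorem OV_eq (z : k) : (OV v).valuation z = 1 ↔ v.valuation k z = 1 :=
  ((OV_equiv v).eq_one_iff_eq_one).symm

theorem nm_pow {p : ℕ} (hp : p.Prime) (hv : (p : 𝓞 k) ∈ v.asIdeal) :
    ∃ ff : ℕ, ff ≠ 0 ∧ nm v = p ^ ff := by
  classical
  have hmax : v.asIdeal.IsMaximal := v.isMaximal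
  let _ : Field (𝓞 k ⧸ v.asIdeal) := Ideal.Quotient.field _
  have hfin : Finite (𝓞 k ⧸ v.asIdeal) := Ideal.finiteQuotientOfFreeOfNeBot _ v.ne_bot
  have hft : Fintype (𝓞 k ⧸ v.asIdeal) := Fintype.ofFinite _
  have hchar : CharP (𝓞 k ⧸ v.asIdeal) p := by
    refine (CharP.charP_iff_prime_eq_zero hp).2 ?_
    have h1 : ((p : ℕ) : 𝓞 k ⧸ v.asIdeal) = Ideal.Quotient.mk v.asIdeal (p : 𝓞 k) := by simp
    rw [h1, Ideal.Quotient.eq_zero_iff_mem]
    exact hv
  obtain ⟨n, -, hn⟩ := FiniteField.card (𝓞 k ⧸ v.asIdeal) p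
  refine ⟨n, n.ne_zero, ?_⟩
  rw [← hn, ← Nat.card_eq_fintype_card]
  rfl

theorem pow_nm_sub (a : 𝓞 k) : a ^ nm v - a ∈ v.asIdeal := by
  classical
  have hmax : v.asIdeal.IsMaximal := v.isMaximal
  let _ : Field (𝓞 k ⧸ v.asIdeal) := Ideal.Quotient.field _
  have hfin : Finite (𝓞 k ⧸ v.asIdeal) := Ideal.finiteQuotientOfFreeOfNeBot _ v.ne_bot
  have hft : Fintype (𝓞 k ⧸ v.asIdeal) := Fintype.ofFinite _
  rw [← Ideal.Quotient.eq_zero_iff_mem, map_sub, map_pow, sub_eq_zero]
  have h1 : nm v = Fintype.card (𝓞 k ⧸ v.asIdeal) := by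
    rw [← Nat.card_eq_fintype_card]
    rfl
  rw [h1]
  exact FiniteField.pow_card _

theorem pow_nm_sub' {z : k} (hz : v.valuation k z ≤ 1) : v.valuation k (z ^ nm v - z) < 1 := by
  obtain ⟨a, ha⟩ := exists_int_sub v hz
  have h1 : z ^ nm v - z = ((a ^ nm v - a : 𝓞 k) : k) + (((a : k) - z) +
      -((a : k) ^ nm v - z ^ nm v)) := by
    push_cast
    ring
  rw [h1]
  refine Valuation.map_add_lt _ ((val_int_lt _ _).2 (pow_nm_sub v a))
    (Valuation.map_add_lt _ ha ?_)
  rw [Valuation.map_neg]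
  have h2 : (a : k) ^ nm v - z ^ nm v = ((a : k) - z) *
      ∑ i ∈ Finset.range (nm v), (a : k) ^ i * z ^ (nm v - 1 - i) := by
    rw [mul_comm, (Commute.all (a : k) z).geom_sum₂_mul]
  rw [h2, map_mul]
  refine mul_lt_one_of_lt_of_le ha ?_
  refine Valuation.map_sum_le _ fun i _ => ?_
  rw [map_mul, map_pow, map_pow]
  exact mul_le_one' (pow_le_one' (val_int _ _) _) (pow_le_one' hz _)

theorem pl_OV {p ff : ℕ} (hff : nm v = p ^ ff)
    (hun : v.valuation k (p : k) = exp (-1 : ℤ)) : PL (OV v) p ff where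
  lt := by
    rw [OV_lt, hun]
    rw [← exp_zero]
    exact exp_lt_exp.2 (by norm_num)
  frob := by
    intro z hz
    rw [OV_lt, ← hff]
    exact pow_nm_sub' v hz
  unif := by
    intro z hz
    obtain ⟨a, ha⟩ := exists_zpow hun hz
    exact ⟨a, (OV_eq v _).2 ha⟩

instance OV_finite : Finite (IsLocalRing.ResidueField (OV v)) := by
  have hfin : Finite (𝓞 k ⧸ v.asIdeal) := Ideal.finiteQuotientOfFreeOfNeBot _ v.ne_bot
  let g : 𝓞 k →+* OV v :=
    { toFun := fun a => ⟨(a : k), val_int v a⟩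
      map_one' := Subtype.ext (by simp)
      map_mul' := fun a b => Subtype.ext (by simp)
      map_zero' := Subtype.ext (by simp)
      map_add' := fun a b => Subtype.ext (by simp) }
  have hker : ∀ a ∈ v.asIdeal, (IsLocalRing.residue (OV v)).comp g a = 0 := by
    intro a ha
    change IsLocalRing.residue (OV v) (g a) = 0
    rw [IsLocalRing.residue_eq_zero_iff, (OV v).valuation_lt_one_iff, OV_lt]
    exact (val_int_lt v a).2 ha
  refine Finite.of_surjective (Ideal.Quotient.lift v.asIdeal ((IsLocalRing.residue (OV v)).comp g) hker)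
    fun c => ?_
  obtain ⟨z, rfl⟩ := IsLocalRing.residue_surjective c
  obtain ⟨a, ha⟩ := exists_int_sub v ((OV_mem v _).1 z.2)
  refine ⟨Ideal.Quotient.mk _ a, ?_⟩
  rw [Ideal.Quotient.lift_mk]
  change IsLocalRing.residue (OV v) (g a) = _
  rw [← sub_eq_zero, ← map_sub, IsLocalRing.residue_eq_zero_iff, (OV v).valuation_lt_one_iff, OV_lt]
  exact ha

end

end Pool.Agent.HG
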