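import Pool.Agent.Helper45.HG.TotB
import Pool.Agent.Helper45.HG.NF

/-!
# The number of classes modulo squares: total number, finiteness, the ratio
-/

set_option autoImplicit false

namespace Pool.Agent.HG

open Polynomial NumberField IsDedekindDomain Filter Topology WithZero

noncomputable section

/-- there are many classes -/
def StmtTotal : Prop :=
  ∀ (k : Type) [Field k] [NumberField k], ∃ δ : ℝ, 0 < δ ∧ ∀ᶠ X : ℕ in atTop, ∃ T : Finset k,
    (∀ c ∈ T, c ≠ 0 ∧ cond c ≤ X) ∧ (∀ c ∈ T, ∀ c' ∈ T, (∃ d : k, c = c' * d ^ 2) → c = c') ∧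
      δ * X ≤ T.card

theorem stmtTotal : StmtTotal := by
  classical
  intro k _ _
  obtain ⟨δ, hδ, h⟩ := card_SQ_ge k
  refine ⟨δ, hδ, ?_⟩
  filter_upwards [h] with X hX
  -- generators
  have hex : ∀ J : Ideal (𝓞 k), ∃ α : 𝓞 k, J ∈ SQ k X → α ≠ 0 ∧ Squarefree J ∧
      Ideal.absNorm J ≤ X ∧ ∃ A : Ideal (𝓞 k), A ≠ 0 ∧ Ideal.span {α} = J * A ^ 2 := by
    intro J
    by_cases hJ : J ∈ SQ k X
    · rw [SQ, Finset.mem_filter, mem_idl] at hJ
      obtain ⟨⟨hJ0, hJX⟩, hsq, A, hA, ⟨α, hα⟩⟩ := hJ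
      have hα' : Ideal.span {α} = J * A ^ 2 := hα.symm
      refine ⟨α, fun _ => ⟨?_, hsq, hJX, A, hA, hα'⟩⟩
      rintro rfl
      rw [Ideal.span_singleton_eq_bot.2 rfl] at hα'
      exact mul_ne_zero hJ0 (pow_ne_zero 2 hA) hα'.symm
    · exact ⟨0, fun h => absurd h hJ⟩
  choose α hα using hex
  have hkey : ∀ J ∈ SQ k X, ∀ J' ∈ SQ k X, (∃ d : k, (α J : k) = (α J' : k) * d ^ 2) → J = J' := by
    rintro J hJ J' hJ' ⟨d, hd⟩
    obtain ⟨h1, h2, -, A, hA, h3⟩ := hα J hJ
    obtain ⟨h1', h2', -, A', hA', h3'⟩ := hα J' hJ'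
    have hαk : (α J : k) ≠ 0 := RingOfIntegers.coe_ne_zero_iff.2 h1
    have hd0 : d ≠ 0 := by
      rintro rfl
      rw [zero_pow two_ne_zero, mul_zero] at hd
      exact hαk hd
    refine squarefree_ext h2 h2' fun v => ?_
    rw [← isOdd_iff v h1 h2 hA h3, ← isOdd_iff v h1' h2' hA' h3', hd, isOdd_mul_sq hd0]
  refine ⟨(SQ k X).image fun J => (α J : k), ?_, ?_, ?_⟩
  · intro c hc
    obtain ⟨J, hJ, rfl⟩ := Finset.mem_image.1 hc
    obtain ⟨h1, h2, h3, A, hA, h4⟩ := hα J hJ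
    exact ⟨RingOfIntegers.coe_ne_zero_iff.2 h1, (cond_le h1 h2 hA h4).trans h3⟩
  · intro c hc c' hc' hd
    obtain ⟨J, hJ, rfl⟩ := Finset.mem_image.1 hc
    obtain ⟨J', hJ', rfl⟩ := Finset.mem_image.1 hc'
    rw [hkey J hJ J' hJ' hd]
  · rw [Finset.card_image_of_injOn]
    · exact hX
    · intro J hJ J' hJ' h
      exact hkey J hJ J' hJ' ⟨1, by rw [one_pow, mul_one]; exact h⟩

/-- the group of the classes modulo squares -/
abbrev Cls (k : Type) [Field k] : Type := kˣ ⧸ (powMonoidHom 2 : kˣ →* kˣ).range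

/-- the classes with conductor at most `X` -/
def clsLE (k : Type) [Field k] [NumberField k] (X : ℕ) : Set (Cls k) :=
  {C | ∃ c : kˣ, (c : Cls k) = C ∧ cond (c : k) ≤ X}

/-- the classes with conductor at most `X` whose twist has a section -/
def clsSec {k : Type} [Field k] [NumberField k] (f : k[X]) (X : ℕ) : Set (Cls k) :=
  {C | ∃ c : kˣ, (c : Cls k) = C ∧ cond (c : k) ≤ X ∧ HasSection f (c : k)}

/-- The final theorem, with the ratio. -/
def StmtRatio : Prop :=
  ∀ (k : Type) [Field k] [NumberField k] (f : k[X]), f.Separable → Even f.natDegree →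
    4 ≤ f.natDegree → (∀ a : k, eval a f ≠ 0) →
    (∀ X : ℕ, (clsLE k X).Finite) ∧
    Tendsto (fun X : ℕ => (Nat.card (clsSec f X) : ℝ) / Nat.card (clsLE k X)) atTop (𝓝 0)

section

variable {k : Type} [Field k] [NumberField k]

omit [NumberField k] in
theorem cls_eq_iff {c c' : kˣ} : (c : Cls k) = (c' : Cls k) ↔ ∃ d : k, (c : k) = (c' : k) * d ^ 2 := by
  rw [eq_comm, QuotientGroup.eq]
  constructor
  · rintro ⟨d, hd⟩
    refine ⟨(d : k), ?_⟩
    have h2 : d ^ 2 = c'⁻¹ * c := hd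
    have h1 : c = c' * d ^ 2 := by
      rw [h2]
      group
    have h3 := congrArg (fun t : kˣ => (t : k)) h1
    push_cast at h3
    exact h3
  · rintro ⟨d, hd⟩
    have hd0 : d ≠ 0 := by
      rintro rfl
      rw [zero_pow two_ne_zero, mul_zero] at hd
      exact c.ne_zero hd
    refine ⟨Units.mk0 d hd0, ?_⟩
    change (Units.mk0 d hd0) ^ 2 = c'⁻¹ * c
    rw [eq_inv_mul_iff_mul_eq]
    apply Units.ext
    push_cast
    exact hd.symm

theorem finite_odd {c : k} (hc : c ≠ 0) : {v : Pr k | IsOdd v c}.Finite := by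
  obtain ⟨a, b, hb, hab⟩ := IsFractionRing.div_surjective (A := 𝓞 k) c
  have hb0 : b ≠ 0 := nonZeroDivisors.ne_zero hb
  have ha0 : a ≠ 0 := by
    rintro rfl
    rw [map_zero, zero_div] at hab
    exact hc hab.symm
  have hbk : (algebraMap (𝓞 k) k) b ≠ 0 := RingOfIntegers.coe_ne_zero_iff.2 hb0
  have hcab : c = ((a * b : 𝓞 k) : k) * ((algebraMap (𝓞 k) k b)⁻¹) ^ 2 := by
    have h1 : ((a * b : 𝓞 k) : k) = algebraMap (𝓞 k) k a * algebraMap (𝓞 k) k b := map_mul _ _ _
    rw [← hab, h1]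
    field_simp
  have hspan : Ideal.span {a * b} ≠ 0 := by
    rw [Ne, Ideal.zero_eq_bot, Ideal.span_singleton_eq_bot]
    exact mul_ne_zero ha0 hb0
  obtain ⟨J, A, hJ, hA, h⟩ := exists_sq_decomp _ hspan
  refine (Ideal.finite_factors hJ.ne_zero).subset fun v hv => ?_
  have h2 : IsOdd v c := hv
  rw [hcab, isOdd_mul_sq (inv_ne_zero hbk), isOdd_iff v (mul_ne_zero ha0 hb0) hJ hA h] at h2
  exact h2

theorem nm_pos (v : Pr k) : 0 < nm v := absNorm_pos' v.ne_bot

theorem nm_le_cond {c : k} (hc : c ≠ 0) {v : Pr k} (hv : IsOdd v c) : nm v ≤ cond c := by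
  classical
  have hfin := finite_odd hc
  have h1 : cond c = ∏ v ∈ hfin.toFinset, nm v := by
    unfold cond
    rw [finprod_eq_prod_of_mulSupport_subset (s := hfin.toFinset)]
    · refine Finset.prod_congr rfl fun v hv => ?_
      rw [if_pos (by simpa using hv)]
    · intro v hv
      rw [Function.mem_mulSupport] at hv
      rw [Finset.mem_coe, Set.Finite.mem_toFinset]
      by_contra hnd
      apply hv
      exact if_neg fun ho => hnd ho
  rw [h1]
  refine Nat.le_of_dvd (Finset.prod_pos fun v _ => nm_pos v) (Finset.dvd_prod_of_mem nm ?_)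
  simpa using hv

theorem ev_of_not_isOdd {c : k} (hc : c ≠ 0) {v : Pr k} {p : ℕ}
    (hun : v.valuation k (p : k) = exp (-1 : ℤ)) (h : ¬ IsOdd v c) : Ev v p c := by
  unfold IsOdd at h
  push Not at h
  obtain ⟨d, hd⟩ := h
  have hd0 : d ≠ 0 := by
    rintro rfl
    rw [map_zero, zero_pow two_ne_zero] at hd
    exact (Valuation.ne_zero_iff _).2 hc hd
  obtain ⟨a, ha⟩ := exists_zpow hun hd0
  refine ⟨a, ?_⟩
  have h1 : v.valuation k (c * (p : k) ^ (2 * a)) = v.valuation k (d * (p : k) ^ a) ^ 2 := by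
    rw [map_mul, map_mul, hd, mul_pow, map_zpow₀, map_zpow₀, ← zpow_natCast (_ ^ a), ← zpow_mul,
      mul_comm a]
    rfl
  rw [h1, ha, one_pow]

theorem clsLE_finite (hSel : StmtSel) (X : ℕ) : (clsLE k X).Finite := by
  classical
  obtain ⟨M₂, hM₂, hunk⟩ := exists_unram k
  obtain ⟨F, hF, h⟩ := hSel k k ⊤ (X.factorial * M₂) (mul_ne_zero (Nat.factorial_ne_zero X) hM₂)
  let g : k → Cls k := fun e => if h : e ≠ 0 then ((Units.mk0 e h : kˣ) : Cls k) else 1
  refine (F.finite_toSet.image g).subset ?_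
  rintro C ⟨c, rfl, hc⟩
  obtain ⟨e, he, d, -, hd⟩ := h (c : k) IntermediateField.mem_top c.ne_zero (by
    intro p v hp hpM hv
    have hp1 : ¬ p ∣ X.factorial := fun h => hpM (h.mul_right _)
    have hp2 : ¬ p ∣ M₂ := fun h => hpM (h.mul_left _)
    refine ev_of_not_isOdd c.ne_zero (hunk p hp hp2 v hv) fun hodd => ?_
    have h1 := (nm_le_cond c.ne_zero hodd).trans hc
    obtain ⟨ff, hff, h2⟩ := nm_pow v hp hv
    have h3 : p ≤ nm v := by
      rw [h2]
      exact Nat.le_self_pow hff p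
    exact hp1 (hp.dvd_factorial.2 (h3.trans h1)))
  have he0 := (hF e he).2
  refine ⟨e, he, ?_⟩
  change (if h : e ≠ 0 then ((Units.mk0 e h : kˣ) : Cls k) else 1) = (c : Cls k)
  rw [dif_pos he0, eq_comm, cls_eq_iff]
  exact ⟨d, hd⟩

end

/-- The ratio. -/
theorem ratio_of_final (hSel : StmtSel) (hFin : StmtFinal) : StmtRatio := by
  classical
  intro k _ _ f hf hev h4 hroot
  have hfin : ∀ X, (clsLE k X).Finite := clsLE_finite hSel
  refine ⟨hfin, ?_⟩
  obtain ⟨δ, hδ, hlow⟩ := stmtTotal k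
  have hfin' : ∀ X, (clsSec f X).Finite := fun X => (hfin X).subset fun C hC => by
    obtain ⟨c, h1, h2, -⟩ := hC
    exact ⟨c, h1, h2⟩
  -- upper bound for the numerator
  have hup : ∀ ε : ℝ, 0 < ε → ∀ᶠ X : ℕ in atTop, (Nat.card (clsSec f X) : ℝ) ≤ ε * X := by
    intro ε hε
    filter_upwards [hFin k f hf hev h4 hroot ε hε] with X hX
    have hch : ∀ C : Cls k, ∃ c : kˣ, C ∈ clsSec f X →
        (c : Cls k) = C ∧ cond (c : k) ≤ X ∧ HasSection f (c : k) := by
      intro C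
      by_cases hC : C ∈ clsSec f X
      · obtain ⟨c, hc⟩ := hC
        exact ⟨c, fun _ => hc⟩
      · exact ⟨1, fun h => absurd h hC⟩
    choose r hr using hch
    have hinj : ∀ C ∈ clsSec f X, ∀ C' ∈ clsSec f X,
        (∃ d : k, (r C : k) = (r C' : k) * d ^ 2) → C = C' := by
      intro C hC C' hC' hd
      rw [← (hr C hC).1, ← (hr C' hC').1]
      exact cls_eq_iff.2 hd
    have h1 := hX ((hfin' X).toFinset.image fun C => (r C : k)) (by
      intro c hc c' hc' hd
      obtain ⟨C, hC, rfl⟩ := Finset.mem_image.1 hc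
      obtain ⟨C', hC', rfl⟩ := Finset.mem_image.1 hc'
      rw [hinj C ((hfin' X).mem_toFinset.1 hC) C' ((hfin' X).mem_toFinset.1 hC') hd]) (by
      intro c hc
      obtain ⟨C, hC, rfl⟩ := Finset.mem_image.1 hc
      exact ⟨(r C).ne_zero, (hr C ((hfin' X).mem_toFinset.1 hC)).2⟩)
    rw [Finset.card_image_of_injOn] at h1
    · have h2 : Nat.card (clsSec f X) = (hfin' X).toFinset.card :=
        Nat.card_eq_card_finite_toFinset (hfin' X)
      rw [h2]
      exact h1
    · intro C hC C' hC' h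
      exact hinj C ((hfin' X).mem_toFinset.1 hC) C' ((hfin' X).mem_toFinset.1 hC')
        ⟨1, by rw [one_pow, mul_one]; exact h⟩
  -- lower bound for the denominator
  have hlo : ∀ᶠ X : ℕ in atTop, δ * X ≤ (Nat.card (clsLE k X) : ℝ) := by
    filter_upwards [hlow] with X hX
    obtain ⟨T, hT1, hT2, hT3⟩ := hX
    refine hT3.trans ?_
    let g : k → Cls k := fun e => if h : e ≠ 0 then ((Units.mk0 e h : kˣ) : Cls k) else 1
    have hg : ∀ e : k, ∀ h : e ≠ 0, g e = ((Units.mk0 e h : kˣ) : Cls k) := fun e h => dif_pos h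
    have h2 : Nat.card (clsLE k X) = (hfin X).toFinset.card :=
      Nat.card_eq_card_finite_toFinset (hfin X)
    rw [h2]
    have h3 : T.card ≤ (hfin X).toFinset.card := by
      refine Finset.card_le_card_of_injOn g ?_ ?_
      · intro c hc
        have h4 := hT1 c hc
        rw [Finset.mem_coe, Set.Finite.mem_toFinset, hg c h4.1]
        exact ⟨Units.mk0 c h4.1, rfl, h4.2⟩
      · intro c hc c' hc' h
        have h4 := hT1 c hc
        have h4' := hT1 c' hc'
        rw [hg c h4.1, hg c' h4'.1] at h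
        exact hT2 c hc c' hc' (cls_eq_iff.1 h)
    exact_mod_cast h3
  rw [tendsto_order]
  refine ⟨fun a ha => Eventually.of_forall fun X => lt_of_lt_of_le ha (by positivity), ?_⟩
  intro a ha
  filter_upwards [hup (a * δ / 2) (by positivity), hlo, eventually_gt_atTop 0] with X h1 h2 hX
  have hX' : (0 : ℝ) < X := by exact_mod_cast hX
  have h3 : (0 : ℝ) < Nat.card (clsLE k X) := lt_of_lt_of_le (by positivity) h2
  rw [div_lt_iff₀ h3]
  calc (Nat.card (clsSec f X) : ℝ) ≤ a * δ / 2 * X := h1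
    _ = a / 2 * (δ * X) := by ring
    _ ≤ a / 2 * Nat.card (clsLE k X) := mul_le_mul_of_nonneg_left h2 (by positivity)
    _ < a * Nat.card (clsLE k X) := by nlinarith

end

end Pool.Agent.HG
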