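import Pool.Agent.Helper99.HG.G5R
import Pool.Agent.Helper45.HG.Ratio

/-!
# The ratio, with a rate
-/

set_option autoImplicit false

namespace Pool.Agent.HG

open Polynomial NumberField IsDedekindDomain Filter Topology WithZero

noncomputable section

/-- The final theorem, with the ratio and a rate. -/
def StmtRatioR : Prop :=
  ∀ (k : Type) [Field k] [NumberField k] (f : k[X]), f.Separable → Even f.natDegree →
    4 ≤ f.natDegree → (∀ a : k, eval a f ≠ 0) →
    (∀ X : ℕ, (clsLE k X).Finite) ∧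
    ∃ η C : ℝ, 0 < η ∧ 0 < C ∧ ∀ X : ℕ, 3 ≤ X →
      (Nat.card (clsSec f X) : ℝ) ≤ C * Nat.card (clsLE k X) / Real.log X ^ η

section

variable {k : Type} [Field k] [NumberField k]

theorem cond_one : cond (1 : k) = 1 := by
  classical
  unfold cond
  refine finprod_eq_one_of_forall_eq_one fun v => ?_
  rw [if_neg]
  intro h
  exact h 1 (by rw [map_one, one_pow])

/-- there are at least `δ X` classes, for all `X` -/
theorem clsLE_card_ge (hSel : StmtSel) : ∃ δ : ℝ, 0 < δ ∧ ∀ X : ℕ, 1 ≤ X →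
    δ * X ≤ (Nat.card (clsLE k X) : ℝ) := by
  classical
  have hfin : ∀ X, (clsLE k X).Finite := clsLE_finite hSel
  obtain ⟨δ, hδ, hlow⟩ := stmtTotal k
  have hlo : ∀ᶠ X : ℕ in atTop, δ * X ≤ (Nat.card (clsLE k X) : ℝ) := by
    filter_upwards [hlow] with X hX
    obtain ⟨T, hT1, hT2, hT3⟩ := hX
    refine hT3.trans ?_
    let g : k → Cls k := fun e => if h : e ≠ 0 then ((Units.mk0 e h : kˣ) : Cls k) else 1
    have hg : ∀ e : k, ∀ h : e ≠ 0, g e = ((Units.mk0 e h : kˣ) : Cls k) := fun e h => dif_pos h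
    have h2 : Nat.card (clsLE k X) = (hfin X).toFinset.card :=
      Nat.card_eq_card_finite_toFinset (hfin X)
    rw [h2]
    have h3 : T.card ≤ (hfin X).toFinset.card := by
      refine Finset.card_le_card_of_injOn g ?_ ?_
      · intro c hc
        have h4 := hT1 c hc
        rw [Finset.mem_coe, Set.Finite.mem_toFinset, hg c h4.1]
        exact ⟨Units.mk0 c h4.1, rfl, h4.2⟩
      · intro c hc c' hc' h
        have h4 := hT1 c hc
        have h4' := hT1 c' hc'
        rw [hg c h4.1, hg c' h4'.1] at h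
        exact hT2 c hc c' hc' (cls_eq_iff.1 h)
    exact_mod_cast h3
  obtain ⟨X₀, hX₀⟩ := eventually_atTop.1 hlo
  have hone : ∀ X : ℕ, 1 ≤ X → (1 : ℝ) ≤ Nat.card (clsLE k X) := by
    intro X hX
    have h1 : (clsLE k X).Nonempty := ⟨((1 : kˣ) : Cls k), 1, rfl, by
      rw [Units.val_one, cond_one]
      exact hX⟩
    have h2 : 0 < Nat.card (clsLE k X) := by
      have := (hfin X).to_subtype
      have := h1.to_subtype
      exact Nat.card_pos
    exact_mod_cast h2
  refine ⟨min δ (1 / (X₀ + 1)), lt_min hδ (by positivity), fun X hX => ?_⟩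
  rcases le_or_gt X₀ X with h | h
  · exact (mul_le_mul_of_nonneg_right (min_le_left _ _) (Nat.cast_nonneg X)).trans (hX₀ X h)
  · refine (mul_le_mul_of_nonneg_right (min_le_right _ _) (Nat.cast_nonneg X)).trans ?_
    refine le_trans ?_ (hone X hX)
    rw [one_div, inv_mul_le_one₀ (by positivity)]
    have h1 : (X : ℝ) < X₀ := by exact_mod_cast h
    linarith

end

theorem ratioR_of_finalR (hSel : StmtSel) (hFin : StmtFinalR) : StmtRatioR := by
  classical
  intro k _ _ f hf hev h4 hroot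
  have hfin : ∀ X, (clsLE k X).Finite := clsLE_finite hSel
  refine ⟨hfin, ?_⟩
  obtain ⟨δ, hδ, hlow⟩ := clsLE_card_ge (k := k) hSel
  have hfin' : ∀ X, (clsSec f X).Finite := fun X => (hfin X).subset fun C hC => by
    obtain ⟨c, h1, h2, -⟩ := hC
    exact ⟨c, h1, h2⟩
  obtain ⟨η, C₀, hη, hC₀, hFn⟩ := hFin k f hf hev h4 hroot
  refine ⟨η, C₀ / δ, hη, div_pos hC₀ hδ, fun X hX3 => ?_⟩
  have hlog : 0 < Real.log X := Real.log_pos (by
    have h1 : (3 : ℝ) ≤ X := by exact_mod_cast hX3
    linarith)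
  have hlogη : 0 < Real.log X ^ η := Real.rpow_pos_of_pos hlog η
  -- upper bound for the numerator
  have hup : (Nat.card (clsSec f X) : ℝ) ≤ C₀ * X / Real.log X ^ η := by
    have hch : ∀ C : Cls k, ∃ c : kˣ, C ∈ clsSec f X →
        (c : Cls k) = C ∧ cond (c : k) ≤ X ∧ HasSection f (c : k) := by
      intro C
      by_cases hC : C ∈ clsSec f X
      · obtain ⟨c, hc⟩ := hC
        exact ⟨c, fun _ => hc⟩
      · exact ⟨1, fun h => absurd h hC⟩
    choose r hr using hch
    have hinj : ∀ C ∈ clsSec f X, ∀ C' ∈ clsSec f X,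
        (∃ d : k, (r C : k) = (r C' : k) * d ^ 2) → C = C' := by
      intro C hC C' hC' hd
      rw [← (hr C hC).1, ← (hr C' hC').1]
      exact cls_eq_iff.2 hd
    have h1 := hFn X hX3 ((hfin' X).toFinset.image fun C => (r C : k)) (by
      intro c hc c' hc' hd
      obtain ⟨C, hC, rfl⟩ := Finset.mem_image.1 hc
      obtain ⟨C', hC', rfl⟩ := Finset.mem_image.1 hc'
      rw [hinj C ((hfin' X).mem_toFinset.1 hC) C' ((hfin' X).mem_toFinset.1 hC') hd]) (by
      intro c hc
      obtain ⟨C, hC, rfl⟩ := Finset.mem_image.1 hc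
      exact ⟨(r C).ne_zero, (hr C ((hfin' X).mem_toFinset.1 hC)).2⟩)
    rw [Finset.card_image_of_injOn] at h1
    · have h2 : Nat.card (clsSec f X) = (hfin' X).toFinset.card :=
        Nat.card_eq_card_finite_toFinset (hfin' X)
      rw [h2]
      exact h1
    · intro C hC C' hC' h
      exact hinj C ((hfin' X).mem_toFinset.1 hC) C' ((hfin' X).mem_toFinset.1 hC')
        ⟨1, by rw [one_pow, mul_one]; exact h⟩
  refine hup.trans ?_
  refine div_le_div_of_nonneg_right ?_ hlogη.le
  have h1 := hlow X (by omega)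
  calc C₀ * (X : ℝ) = C₀ / δ * (δ * X) := by field_simp
    _ ≤ C₀ / δ * Nat.card (clsLE k X) := mul_le_mul_of_nonneg_left h1 (by positivity)

end

end Pool.Agent.HG
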