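import Pool.Agent.Helper45.HG.TotA

/-!
# Finitely many elements with even valuations modulo squares (block SEL)
-/

set_option autoImplicit false

namespace Pool.Agent.HG

open NumberField IsDedekindDomain
open scoped nonZeroDivisors

theorem exists_reps {A B : Type*} [Finite B] (S : Set A) (f : A → B) :
    ∃ F : Finset A, (∀ a ∈ F, a ∈ S) ∧ ∀ a ∈ S, ∃ e ∈ F, f e = f a := by
  classical
  have : Fintype (f '' S) := (Set.toFinite _).fintype
  have h : ∀ b : f '' S, ∃ a ∈ S, f a = b := by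
    rintro ⟨b, a, ha, rfl⟩
    exact ⟨a, ha, rfl⟩
  choose g hg hgf using h
  refine ⟨Finset.univ.image g, ?_, ?_⟩
  · intro a ha
    obtain ⟨b, -, rfl⟩ := Finset.mem_image.1 ha
    exact hg b
  · intro a ha
    exact ⟨g ⟨f a, a, ha, rfl⟩, Finset.mem_image_of_mem _ (Finset.mem_univ _), hgf _⟩

theorem units_mod_sq (L : Type) [Field L] [NumberField L] :
    ∃ U : Finset (𝓞 L)ˣ, ∀ u : (𝓞 L)ˣ, ∃ e ∈ U, ∃ w : (𝓞 L)ˣ, u = e * w ^ 2 := by
  classical
  have hfin : Finite ((𝓞 L)ˣ ⧸ (powMonoidHom 2 : (𝓞 L)ˣ →* (𝓞 L)ˣ).range) := by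
    have : Group.FG ((𝓞 L)ˣ) := Group.fg_iff_monoid_fg.2 inferInstance
    refine CommGroup.finite_of_fg_isMulTorsion _ ?_
    intro q
    obtain ⟨u, rfl⟩ := QuotientGroup.mk_surjective q
    rw [isOfFinOrder_iff_pow_eq_one]
    refine ⟨2, by norm_num, ?_⟩
    rw [← QuotientGroup.mk_pow, QuotientGroup.eq_one_iff]
    exact ⟨u, rfl⟩
  obtain ⟨U, -, hU⟩ := exists_reps (Set.univ : Set (𝓞 L)ˣ)
    (fun u => (u : (𝓞 L)ˣ ⧸ (powMonoidHom 2 : (𝓞 L)ˣ →* (𝓞 L)ˣ).range))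
  refine ⟨U, fun u => ?_⟩
  obtain ⟨e, he, heu⟩ := hU u trivial
  obtain ⟨w, hw⟩ := QuotientGroup.eq.1 heu
  refine ⟨e, he, w, ?_⟩
  have h1 : w ^ 2 = e⁻¹ * u := hw
  rw [h1, mul_inv_cancel_left]

theorem selL (L : Type) [Field L] [NumberField L] (M : ℕ) (hM : M ≠ 0) :
    ∃ F : Finset L, (∀ e ∈ F, e ≠ 0) ∧ ∀ z : L, z ≠ 0 →
      (∀ v : Pr L, IsOdd v z → (M : 𝓞 L) ∈ v.asIdeal) → ∃ e ∈ F, ∃ d : L, z = e * d ^ 2 := by
  classical
  obtain ⟨S, hS⟩ : ∃ S : Set L, ∀ z : L, z ∈ S ↔ z ≠ 0 ∧ ∀ v : Pr L, IsOdd v z →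
      (M : 𝓞 L) ∈ v.asIdeal := ⟨{z | _}, fun z => Iff.rfl⟩
  have hM0 : (Ideal.span {(M : 𝓞 L)}) ≠ 0 := by
    rw [Ne, Ideal.zero_eq_bot, Ideal.span_singleton_eq_bot]
    exact_mod_cast hM
  have hTfin : {v : Pr L | v.asIdeal ∣ Ideal.span {(M : 𝓞 L)}}.Finite := Ideal.finite_factors hM0
  obtain ⟨T, hT⟩ : ∃ T : Set (Pr L), T = {v : Pr L | v.asIdeal ∣ Ideal.span {(M : 𝓞 L)}} := ⟨_, rfl⟩
  have hTf : Finite T := by rw [hT]; exact hTfin
  -- data
  have hdata : ∀ z : S, ∃ (α b : 𝓞 L) (J A : Ideal (𝓞 L)), α ≠ 0 ∧ b ≠ 0 ∧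
      (z : L) = (α : L) * (1 / (b : L)) ^ 2 ∧ Squarefree J ∧ A ≠ 0 ∧ Ideal.span {α} = J * A ^ 2 := by
    rintro ⟨z, hz'⟩
    have hz := (hS z).1 hz'
    obtain ⟨a, b, hb, hab⟩ := IsFractionRing.div_surjective (A := 𝓞 L) z
    have hb0 : b ≠ 0 := nonZeroDivisors.ne_zero hb
    have hbL : (b : L) ≠ 0 := by
      intro h
      exact hb0 (RingOfIntegers.coe_eq_zero_iff.1 h)
    have ha0 : a ≠ 0 := by
      rintro rfl
      apply hz.1
      rw [← hab, map_zero, zero_div]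
    have hα : a * b ≠ 0 := mul_ne_zero ha0 hb0
    obtain ⟨J, A, hJ, hA, hJA⟩ := exists_sq_decomp (Ideal.span {a * b})
      (by rw [Ne, Ideal.zero_eq_bot, Ideal.span_singleton_eq_bot]; exact hα)
    refine ⟨a * b, b, J, A, hα, hb0, ?_, hJ, hA, hJA⟩
    show (z : L) = _
    have h1 : (z : L) = (a : L) / (b : L) := hab.symm
    rw [h1]
    push_cast
    field_simp
  choose α b J A hα hb hz hJ hA hJA using hdata
  obtain ⟨R, -, hR⟩ := exists_reps (Set.univ : Set S)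
    (fun z => ((fun v : T => (v : Pr L).asIdeal ∣ J z), ClassGroup.mk0 ⟨A z, mem_nonZeroDivisors_iff_ne_zero.2 (hA z)⟩))
  obtain ⟨U, hU⟩ := units_mod_sq L
  refine ⟨Finset.image₂ (fun (z : S) (u : (𝓞 L)ˣ) => (z : L) * ((u : 𝓞 L) : L)) R U, ?_, ?_⟩
  · intro e he
    obtain ⟨z, -, u, -, rfl⟩ := Finset.mem_image₂.1 he
    refine mul_ne_zero ((hS _).1 z.2).1 ?_
    intro h
    exact u.ne_zero (RingOfIntegers.coe_eq_zero_iff.1 h)
  · intro z hz0 hzM
    have hzS : z ∈ S := (hS z).2 ⟨hz0, hzM⟩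
    obtain ⟨e, heR, he⟩ := hR ⟨z, hzS⟩ trivial
    obtain ⟨y, hy⟩ : ∃ y : S, y = ⟨z, hzS⟩ := ⟨_, rfl⟩
    rw [← hy] at he
    have hyz : z = (y : L) := by rw [hy]
    rw [hyz]
    -- the prime factors of the J's are in T
    have hfac : ∀ w : S, ∀ v : Pr L, v.asIdeal ∣ J w → v ∈ T := by
      intro w v hv
      have h1 : IsOdd v ((α w : 𝓞 L) : L) := (isOdd_iff v (hα w) (hJ w) (hA w) (hJA w)).2 hv
      have h2 : IsOdd v (w : L) := by
        rw [hz w]
        refine (isOdd_mul_sq ?_).2 h1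
        rw [one_div]
        refine inv_ne_zero fun h => hb w (RingOfIntegers.coe_eq_zero_iff.1 h)
      have h4 := ((hS _).1 w.2).2 v h2
      rw [hT]
      exact (Ideal.dvd_span_singleton).2 h4
    have hJJ : J e = J y := by
      refine squarefree_ext (hJ e) (hJ y) fun v => ?_
      have h1 := congrArg Prod.fst he
      constructor
      · intro hv
        have h2 := congrFun h1 ⟨v, hfac e v hv⟩
        exact h2.mp hv
      · intro hv
        have h2 := congrFun h1 ⟨v, hfac y v hv⟩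
        exact h2.mpr hv
    have hAA := congrArg Prod.snd he
    obtain ⟨s, t, hs, ht, hst⟩ := ClassGroup.mk0_eq_mk0_iff.1 hAA
    -- span {s} * A e = span {t} * A y
    have hst' : Ideal.span {s} * A e = Ideal.span {t} * A y := hst
    have hspan : Ideal.span {s ^ 2 * α e} = Ideal.span {t ^ 2 * α y} := by
      rw [← Ideal.span_singleton_mul_span_singleton, ← Ideal.span_singleton_mul_span_singleton,
        hJA, hJA, ← Ideal.span_singleton_pow, ← Ideal.span_singleton_pow, hJJ]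
      calc Ideal.span {s} ^ 2 * (J y * A e ^ 2) = J y * (Ideal.span {s} * A e) ^ 2 := by ring
        _ = J y * (Ideal.span {t} * A y) ^ 2 := by rw [hst']
        _ = _ := by ring
    obtain ⟨u, hu⟩ := Ideal.span_singleton_eq_span_singleton.1 hspan
    -- s² α_e u = t² α_y
    obtain ⟨e', he', w, hw⟩ := hU u
    have hsL : (s : L) ≠ 0 := fun h => hs (RingOfIntegers.coe_eq_zero_iff.1 h)
    have htL : (t : L) ≠ 0 := fun h => ht (RingOfIntegers.coe_eq_zero_iff.1 h)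
    have hbe : (b e : L) ≠ 0 := fun h => hb e (RingOfIntegers.coe_eq_zero_iff.1 h)
    have hby : (b y : L) ≠ 0 := fun h => hb y (RingOfIntegers.coe_eq_zero_iff.1 h)
    have huL : (s : L) ^ 2 * (α e : L) * ((e' : 𝓞 L) : L) * ((w : 𝓞 L) : L) ^ 2 = (t : L) ^ 2 * (α y : L) := by
      have h1 := congrArg (fun t : 𝓞 L => (t : L)) hu
      rw [hw] at h1
      push_cast at h1
      rw [← h1]
      ring
    refine ⟨(e : L) * ((e' : 𝓞 L) : L), Finset.mem_image₂.2 ⟨e, heR, e', he', rfl⟩,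
      (b e : L) * (s : L) * ((w : 𝓞 L) : L) / ((b y : L) * (t : L)), ?_⟩
    rw [hz y, hz e]
    have h2 : (α y : L) = (s : L) ^ 2 * (α e : L) * ((e' : 𝓞 L) : L) * ((w : 𝓞 L) : L) ^ 2 / (t : L) ^ 2 := by
      rw [eq_div_iff (pow_ne_zero 2 htL), ← mul_comm ((t : L) ^ 2), huL]
    rw [h2]
    field_simp

/-- an element with the same value under all embeddings over `E` is in `E` -/
theorem mem_of_embeddings {E L : Type} [Field E] [Field L] [NumberField L] [Algebra E L]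
    [FiniteDimensional E L] [CharZero E] (a : L)
    (h : ∀ φ : L →ₐ[E] AlgebraicClosure L, φ a = algebraMap L (AlgebraicClosure L) a) :
    ∃ b : E, algebraMap E L b = a := by
  classical
  have h1 := trace_eq_sum_embeddings (AlgebraicClosure L) (K := E) (L := L) (x := a)
  rw [Finset.sum_congr rfl (fun φ _ => h φ), Finset.sum_const, Finset.card_univ] at h1
  have hcard : Fintype.card (L →ₐ[E] AlgebraicClosure L) ≠ 0 := by
    rw [AlgHom.card]
    exact Module.finrank_pos.ne'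
  refine ⟨Algebra.trace E L a / (Fintype.card (L →ₐ[E] AlgebraicClosure L) : E), ?_⟩
  have hcE : ((Fintype.card (L →ₐ[E] AlgebraicClosure L) : ℕ) : L) ≠ 0 := by
    exact_mod_cast hcard
  apply (algebraMap L (AlgebraicClosure L)).injective
  have h2 : algebraMap E (AlgebraicClosure L) (Algebra.trace E L a) =
      algebraMap L (AlgebraicClosure L) (algebraMap E L (Algebra.trace E L a)) :=
    IsScalarTower.algebraMap_apply E L (AlgebraicClosure L) _
  rw [h2] at h1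
  have h3 : algebraMap E L (Algebra.trace E L a) =
      ((Fintype.card (L →ₐ[E] AlgebraicClosure L) : ℕ) : L) * a := by
    apply (algebraMap L (AlgebraicClosure L)).injective
    rw [h1, nsmul_eq_mul, map_mul, map_natCast]
  rw [map_div₀, map_natCast, h3, mul_div_cancel_left₀ _ hcE]

theorem sel : StmtSel := by
  classical
  intro k L _ _ _ _ _ E M hM
  have hfdL : FiniteDimensional k L := inferInstance
  obtain ⟨F, hF0, hF⟩ := selL L M hM
  -- step 1
  obtain ⟨S, hS⟩ : ∃ S : Set L, ∀ z : L, z ∈ S ↔ z ∈ E ∧ z ≠ 0 ∧ ∀ (p : ℕ) (P : Pr L), p.Prime →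
      ¬ p ∣ M → (p : 𝓞 L) ∈ P.asIdeal → Ev P p z := ⟨{z | _}, fun z => Iff.rfl⟩
  have hSF : ∀ z : S, ∃ (e : F) (d : L), (z : L) = (e : L) * d ^ 2 := by
    rintro ⟨z, hz⟩
    obtain ⟨-, hz0, hev⟩ := (hS z).1 hz
    obtain ⟨e, he, d, hd⟩ := hF z hz0 (by
      intro v hv
      obtain ⟨p, hp, hpv⟩ := exists_prime v
      by_cases hpM : p ∣ M
      · obtain ⟨q, rfl⟩ := hpM
        push_cast
        exact Ideal.mul_mem_right _ _ hpv
      · exfalso
        obtain ⟨a, ha⟩ := hev p v hp hpM hpv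
        have hp0 : (p : L) ≠ 0 := by exact_mod_cast hp.ne_zero
        apply hv ((p : L) ^ (-a))
        rw [map_mul] at ha
        have h1 : v.valuation L ((p : L) ^ (2 * a)) ≠ 0 :=
          (Valuation.ne_zero_iff _).2 (zpow_ne_zero _ hp0)
        have h2 : v.valuation L z = (v.valuation L ((p : L) ^ (2 * a)))⁻¹ :=
          eq_inv_of_mul_eq_one_left ha
        rw [h2, ← map_inv₀, ← map_pow]
        congr 1
        rw [← zpow_neg, ← zpow_natCast, ← zpow_mul]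
        congr 1
        push_cast
        ring)
    exact ⟨⟨e, he⟩, d, hd⟩
  choose e d hed using hSF
  obtain ⟨R₁, -, hR₁⟩ := exists_reps (Set.univ : Set S) e
  -- step 2
  obtain ⟨K, hK⟩ : ∃ K : Set L, ∀ g : L, g ∈ K ↔ g ^ 2 ∈ E ∧ g ≠ 0 := ⟨{g | _}, fun g => Iff.rfl⟩
  have hfdE : FiniteDimensional E L := inferInstance
  obtain ⟨R₂, hR₂K, hR₂⟩ := exists_reps K (fun g => fun φ : L →ₐ[E] AlgebraicClosure L =>
    (φ g = algebraMap L (AlgebraicClosure L) g))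
  refine ⟨Finset.image₂ (fun (z : S) (g : L) => (z : L) * g ^ 2) R₁ R₂, ?_, ?_⟩
  · intro w hw
    obtain ⟨z, -, g, hg, rfl⟩ := Finset.mem_image₂.1 hw
    have hz := (hS _).1 z.2
    have hg' := (hK _).1 (hR₂K g hg)
    exact ⟨mul_mem hz.1 hg'.1, mul_ne_zero hz.2.1 (pow_ne_zero 2 hg'.2)⟩
  · intro z hzE hz0 hev
    have hzS : z ∈ S := (hS z).2 ⟨hzE, hz0, hev⟩
    obtain ⟨z₁, hz₁R, hz₁⟩ := hR₁ ⟨z, hzS⟩ trivial
    have h1 := hed z₁
    have h2 := hed ⟨z, hzS⟩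
    rw [hz₁] at h1
    have hz₁S := (hS _).1 z₁.2
    have he0 : ((e ⟨z, hzS⟩ : F) : L) ≠ 0 := hF0 _ (e ⟨z, hzS⟩).2
    have hd1 : d z₁ ≠ 0 := by
      intro h
      apply hz₁S.2.1
      rw [h1, h]
      ring
    have hd2 : d ⟨z, hzS⟩ ≠ 0 := by
      intro h
      apply hz0
      have h3 : z = ((e ⟨z, hzS⟩ : F) : L) * d ⟨z, hzS⟩ ^ 2 := h2
      rw [h3, h]
      ring
    obtain ⟨g, hg⟩ : ∃ g : L, g = d ⟨z, hzS⟩ / d z₁ := ⟨_, rfl⟩
    have hzg : z = (z₁ : L) * g ^ 2 := by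
      have h3 : z = ((e ⟨z, hzS⟩ : F) : L) * d ⟨z, hzS⟩ ^ 2 := h2
      rw [hg, div_pow, h1, ← mul_div_assoc, eq_div_iff (pow_ne_zero 2 hd1)]
      linear_combination (d z₁ ^ 2) * h3
    have hgK : g ∈ K := by
      refine (hK g).2 ⟨?_, ?_⟩
      · have h3 : g ^ 2 = z / (z₁ : L) := by
          rw [eq_div_iff hz₁S.2.1, mul_comm, ← hzg]
        rw [h3]
        exact div_mem hzE hz₁S.1
      · rw [hg]
        exact div_ne_zero hd2 hd1
    obtain ⟨g₀, hg₀R, hg₀⟩ := hR₂ g hgK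
    have hg₀K := (hK _).1 (hR₂K g₀ hg₀R)
    have hgK' := (hK _).1 hgK
    obtain ⟨b, hb⟩ := mem_of_embeddings (E := E) (g / g₀) (by
      intro φ
      have h3 := congrFun hg₀ φ
      have hφ : ∀ t : L, t ^ 2 ∈ E → φ t = algebraMap L (AlgebraicClosure L) t ∨
          φ t = - algebraMap L (AlgebraicClosure L) t := by
        intro t ht
        rw [← sq_eq_sq_iff_eq_or_eq_neg, ← map_pow, ← map_pow]
        have h4 : φ (algebraMap E L ⟨t ^ 2, ht⟩) = algebraMap E (AlgebraicClosure L) ⟨t ^ 2, ht⟩ :=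
          φ.commutes _
        exact h4
      rw [map_div₀, map_div₀]
      by_cases h4 : φ g = algebraMap L (AlgebraicClosure L) g
      · have h5 : φ g₀ = algebraMap L (AlgebraicClosure L) g₀ := h3.mpr h4
        rw [h4, h5]
      · have h5 : ¬ φ g₀ = algebraMap L (AlgebraicClosure L) g₀ := fun h => h4 (h3.mp h)
        rcases hφ g hgK'.1 with h6 | h6
        · exact absurd h6 h4
        · rcases hφ g₀ hg₀K.1 with h7 | h7
          · exact absurd h7 h5
          · rw [h6, h7, neg_div_neg_eq])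
    refine ⟨(z₁ : L) * g₀ ^ 2, Finset.mem_image₂.2 ⟨z₁, hz₁R, g₀, hg₀R, rfl⟩, (b : L), b.2, ?_⟩
    have h3 : (b : L) = g / g₀ := hb
    rw [h3, hzg, div_pow]
    have h4 := hg₀K.2
    field_simp

end Pool.Agent.HG
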