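import Pool.Agent.Helper45.HG.AtOne

/-!
# Block A: sections give the arithmetic data
-/

set_option autoImplicit false
set_option linter.unusedSectionVars false

namespace Pool.Agent.HG

open Polynomial NumberField IsDedekindDomain WithZero Pool.Agent.Helper91.Sect

section

variable {k K : Type} [Field k] [Field K] [Algebra k K] [CharZero k]

theorem exists_crv {x y : K} (hx : Transcendental k x) {f : k[X]} (hf : f.Separable) {c : k}
    (hc : c ≠ 0) (hxy : algebraMap k K c * y ^ 2 = aeval x f) :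
    ∃ d : Crv k x y f c, d.R.card = f.natDegree := by
  classical
  have hf0 : f ≠ 0 := hf.ne_zero
  obtain ⟨g, hg⟩ : ∃ g : (kbar k K)[X], g = f.map (algebraMap k (kbar k K)) := ⟨_, rfl⟩
  have hg0 : g ≠ 0 := by
    rw [hg]
    exact (Polynomial.map_ne_zero_iff (algebraMap k (kbar k K)).injective).2 hf0
  have hgs : g.Separable := by
    rw [hg]
    exact hf.map
  have hs : g.Splits := IsAlgClosed.splits _
  have hnd : g.roots.Nodup := nodup_roots hgs
  have hdeg : g.natDegree = f.natDegree := by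
    rw [hg]
    exact natDegree_map_eq_of_injective (algebraMap k (kbar k K)).injective f
  have hsqrt : ∀ r : kbar k K, ∃ v : AlgebraicClosure K,
      v ^ 2 = algebraMap K (AlgebraicClosure K) x - (r : AlgebraicClosure K) :=
    fun r => IsAlgClosed.exists_pow_nat_eq _ two_pos
  choose v hv using hsqrt
  refine ⟨{ htr := hx
            hc := hc
            hf := hf0
            hxy := hxy
            R := g.roots.toFinset
            hR := ?_
            hprod := ?_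
            v := v
            hv := hv }, ?_⟩
  · intro r
    rw [Multiset.mem_toFinset, mem_roots hg0, IsRoot.def, hg, eval_map, ← aeval_def]
  · rw [← hg]
    have h2 := hs.eq_prod_roots
    have h3 : g.leadingCoeff = algebraMap k (kbar k K) f.leadingCoeff := by
      rw [hg, leadingCoeff_map_of_injective (algebraMap k (kbar k K)).injective]
    rw [h3] at h2
    conv_lhs => rw [h2]
    congr 1
    rw [Finset.prod_multiset_map_count]
    refine Finset.prod_congr rfl fun r hr => ?_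
    rw [Multiset.count_eq_one_of_mem hnd (Multiset.mem_toFinset.1 hr), pow_one]
  · change g.roots.toFinset.card = f.natDegree
    rw [Multiset.toFinset_card_of_nodup hnd, ← hs.natDegree_eq_card_roots, hdeg]

end

section

variable {k : Type} [Field k] [NumberField k]

theorem exists_lift_poly (v : Pr k) (g : k[X]) (h : ∀ n, v.valuation k (g.coeff n) ≤ 1) :
    ∃ gO : (OV v)[X], gO.map (algebraMap (OV v) k) = g := by
  have h1 : g ∈ Polynomial.lifts (algebraMap (OV v) k) := by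
    rw [lifts_iff_coeff_lifts]
    intro n
    exact ⟨⟨g.coeff n, h n⟩, rfl⟩
  exact (mem_lifts g).1 h1

theorem exists_good (f : k[X]) (hf : f.Separable) : ∃ M : ℕ, M ≠ 0 ∧
    ∀ (p : ℕ) (v : Pr k), p.Prime → ¬ p ∣ M → (p : 𝓞 k) ∈ v.asIdeal → Good (OV v) f := by
  classical
  obtain ⟨a, b, hab⟩ := hf
  obtain ⟨M, hM, h⟩ := exists_M_unit
    (f.support.image f.coeff ∪ (a.support.image a.coeff ∪ b.support.image b.coeff)) (by
      intro z hz
      simp only [Finset.mem_union, Finset.mem_image, mem_support_iff] at hz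
      rcases hz with ⟨n, h1, rfl⟩ | ⟨n, h1, rfl⟩ | ⟨n, h1, rfl⟩ <;> exact h1)
  refine ⟨M, hM, fun p v hp hpM hv => ?_⟩
  have h1 := h p v hp hpM hv
  have hf0 : f ≠ 0 := Polynomial.Separable.ne_zero ⟨a, b, hab⟩
  have hcf : ∀ (g : k[X]), (g.support.image g.coeff ⊆
      f.support.image f.coeff ∪ (a.support.image a.coeff ∪ b.support.image b.coeff)) →
      ∀ n, v.valuation k (g.coeff n) ≤ 1 := by
    intro g hg n
    by_cases h0 : g.coeff n = 0
    · rw [h0, map_zero]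
      exact zero_le
    · exact (h1 _ (hg (Finset.mem_image_of_mem _ (mem_support_iff.2 h0)))).le
  obtain ⟨fO, hfO⟩ := exists_lift_poly v f (hcf f Finset.subset_union_left)
  obtain ⟨aO, haO⟩ := exists_lift_poly v a (hcf a
    (Finset.subset_union_left.trans Finset.subset_union_right))
  obtain ⟨bO, hbO⟩ := exists_lift_poly v b (hcf b
    (Finset.subset_union_right.trans Finset.subset_union_right))
  refine ⟨?_, fO, aO, bO, hfO, ?_⟩
  · rw [OV_eq]
    refine h1 _ (Finset.mem_union_left _ (Finset.mem_image.2 ⟨f.natDegree, ?_, rfl⟩))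
    rw [mem_support_iff]
    exact leadingCoeff_ne_zero.2 hf0
  · apply Polynomial.map_injective (algebraMap (OV v) k) Subtype.coe_injective
    rw [Polynomial.map_add, Polynomial.map_mul, Polynomial.map_mul, ← derivative_map, haO, hbO, hfO,
      Polynomial.map_one]
    exact hab

end

section

variable {k C L : Type} [Field k] [Field C] [Algebra k C] [IsGalois k C] [Field L] [Algebra k L]

theorem mem_range_of_fixed (ι : L →ₐ[k] C) {z : C}
    (h : ∀ γ : C ≃ₐ[k] C, (∀ w : L, γ (ι w) = ι w) → γ z = z) : ∃ w : L, ι w = z := by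
  have h1 := InfiniteGalois.fixedField_fixingSubgroup ι.fieldRange
  have h2 : z ∈ IntermediateField.fixedField ι.fieldRange.fixingSubgroup := by
    rw [IntermediateField.mem_fixedField_iff]
    intro γ hγ
    rw [IntermediateField.mem_fixingSubgroup_iff] at hγ
    exact h γ fun w => hγ _ ⟨w, rfl⟩
  rw [h1] at h2
  exact h2

theorem exists_ext_aut (ι : L →ₐ[k] C) (σ : L ≃ₐ[k] L) :
    ∃ γ : C ≃ₐ[k] C, ∀ z : L, γ (ι z) = ι (σ z) := by
  let _ : Algebra L C := ι.toRingHom.toAlgebra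
  have _ : IsScalarTower k L C := IsScalarTower.of_algebraMap_eq fun z => (ι.commutes z).symm
  exact ⟨σ.liftNormal C, fun z => σ.liftNormal_commutes C z⟩

end

section

variable {k K L : Type} [Field k] [NumberField k] [Field K] [Algebra k K] [Field L] [NumberField L]
  [Algebra k L] {s : GaloisSection k K} {x y : K} {f : k[X]} {c : k}

theorem exists_D (d : Dat s x y f c) (ι : L →ₐ[k] kbar k K) :
    ∃ D : L → L → L, (∀ θ ∈ f.rootSet L, ∀ θ' ∈ f.rootSet L, ι (D θ θ') = d.δ (ι θ) (ι θ') ^ 2) ∧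
      (∀ θ ∈ f.rootSet L, ∀ θ' ∈ f.rootSet L, D θ θ' ≠ 0) ∧
      ∀ σ : L ≃ₐ[k] L, ∀ θ ∈ f.rootSet L, ∀ θ' ∈ f.rootSet L, σ (D θ θ') = D (σ θ) (σ θ') := by
  classical
  have hroot : ∀ θ ∈ f.rootSet L, ι θ ∈ d.R := by
    intro θ hθ
    rw [d.hR]
    have h1 : aeval θ f = 0 := aeval_eq_zero_of_mem_rootSet hθ
    rw [aeval_algHom_apply, h1, map_zero]
  have hrootσ : ∀ σ : L ≃ₐ[k] L, ∀ θ ∈ f.rootSet L, σ θ ∈ f.rootSet L := by
    intro σ θ hθ
    rw [mem_rootSet] at hθ ⊢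
    refine ⟨hθ.1, ?_⟩
    have h1 := aeval_algHom_apply σ.toAlgHom θ f
    rw [hθ.2, map_zero] at h1
    exact h1
  have hex : ∀ θ θ' : L, ∃ w : L, θ ∈ f.rootSet L → θ' ∈ f.rootSet L →
      ι w = d.δ (ι θ) (ι θ') ^ 2 := by
    intro θ θ'
    by_cases h : θ ∈ f.rootSet L ∧ θ' ∈ f.rootSet L
    · obtain ⟨w, hw⟩ := mem_range_of_fixed ι (z := d.δ (ι θ) (ι θ') ^ 2) (by
        intro γ hγ
        rw [d.sq_equiv γ (hroot θ h.1) (hroot θ' h.2), hγ, hγ])
      exact ⟨w, fun _ _ => hw⟩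
    · exact ⟨0, fun h1 h2 => absurd ⟨h1, h2⟩ h⟩
  choose D hD using hex
  refine ⟨D, fun θ hθ θ' hθ' => hD θ θ' hθ hθ', fun θ hθ θ' hθ' h0 => ?_, fun σ θ hθ θ' hθ' => ?_⟩
  · have h1 := hD θ θ' hθ hθ'
    rw [h0, map_zero] at h1
    exact pow_ne_zero 2 (d.hδ0 _ (hroot θ hθ) _ (hroot θ' hθ')) h1.symm
  · refine ι.injective ?_
    change ι (σ (D θ θ')) = ι (D (σ θ) (σ θ'))
    obtain ⟨γ, hγ⟩ := exists_ext_aut ι σ
    rw [← hγ, hD θ θ' hθ hθ', hD _ _ (hrootσ σ θ hθ) (hrootσ σ θ' hθ'),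
      d.sq_equiv γ (hroot θ hθ) (hroot θ' hθ'), hγ, hγ]

/-- transport of the conditions to the other primes above `v` -/
theorem At.conj {D : L → L → L} {p : ℕ} {v : Pr k} {P P' : Pr L} {α : 𝓞 k}
    (hD : ∀ σ : L ≃ₐ[k] L, ∀ θ ∈ f.rootSet L, ∀ θ' ∈ f.rootSet L, σ (D θ θ') = D (σ θ) (σ θ'))
    (h : At f c D p v P α) {σ : L ≃ₐ[k] L}
    (hσ : ∀ a : 𝓞 L, a ∈ P.asIdeal ↔ σ • a ∈ P'.asIdeal) : At f c D p v P' α := by
  have hrootσ : ∀ σ : L ≃ₐ[k] L, ∀ θ ∈ f.rootSet L, σ θ ∈ f.rootSet L := by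
    intro σ θ hθ
    rw [mem_rootSet] at hθ ⊢
    refine ⟨hθ.1, ?_⟩
    have h1 := aeval_algHom_apply σ.toAlgHom θ f
    rw [hθ.2, map_zero] at h1
    exact h1
  have hlift : ∀ θ ∈ f.rootSet L, ∃ t ∈ f.rootSet L, σ t = θ := fun θ hθ =>
    ⟨σ.symm θ, hrootσ σ.symm θ hθ, σ.apply_symm_apply θ⟩
  have hev : ∀ z : L, Ev P p z → Ev P' p (σ z) := by
    rintro z ⟨a, ha⟩
    refine ⟨a, ?_⟩
    rw [val_eq_conj hσ, map_mul, map_zpow₀, map_natCast] at ha
    exact ha
  have hod : ∀ z : L, Od P p z → Od P' p (σ z) := by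
    rintro z ⟨a, ha⟩
    refine ⟨a, ?_⟩
    rw [val_eq_conj hσ, map_mul, map_zpow₀, map_natCast] at ha
    exact ha
  have hsub : ∀ t : L, σ (algebraMap k L (α : k) - t) = algebraMap k L (α : k) - σ t := fun t => by
    rw [map_sub, AlgEquiv.commutes]
  refine ⟨h.root, ?_, ?_, ?_, ?_⟩
  · intro hc θ hθ θ' hθ' hne
    obtain ⟨t, ht, rfl⟩ := hlift θ hθ
    obtain ⟨t', ht', rfl⟩ := hlift θ' hθ'
    rw [← hD σ t ht t' ht']
    exact hev _ (h.good hc t ht t' ht' fun h => hne (h ▸ rfl))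
  · intro hc θ hθ θ' hθ' hne h1 h2
    obtain ⟨t, ht, rfl⟩ := hlift θ hθ
    obtain ⟨t', ht', rfl⟩ := hlift θ' hθ'
    rw [← hsub, ← val_eq_conj hσ] at h1 h2
    rw [← hD σ t ht t' ht']
    exact hev _ (h.even hc t ht t' ht' (fun h => hne (h ▸ rfl)) h1 h2)
  · intro hc θ hθ θ' hθ' hne h1
    obtain ⟨t, ht, rfl⟩ := hlift θ hθ
    obtain ⟨t', ht', rfl⟩ := hlift θ' hθ'
    rw [← hsub, ← hsub, ← val_lt_conj hσ, ← val_lt_conj hσ] at h1
    rw [← hD σ t ht t' ht']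
    exact hod _ (h.odd hc t ht t' ht' (fun h => hne (h ▸ rfl)) h1)
  · intro hc θ hθ θ' hθ' hne h1 h2 N dd hN hd h3 h4 a ha
    obtain ⟨t, ht, rfl⟩ := hlift θ hθ
    obtain ⟨t', ht', rfl⟩ := hlift θ' hθ'
    rw [← hsub, ← val_eq_conj hσ] at h1 h2
    rw [← map_pow, ← map_sub, ← val_lt_conj hσ] at h3 h4
    have h5 : D (σ t) (σ t') * (p : L) ^ (2 * a) = σ (D t t' * (p : L) ^ (2 * a)) := by
      rw [map_mul, hD σ t ht t' ht', map_zpow₀, map_natCast]
    rw [h5, ← val_eq_conj hσ] at ha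
    have h6 := h.tangent hc t ht t' ht' (fun h => hne (h ▸ rfl)) h1 h2 N dd hN hd h3 h4 a ha
    have h7 : σ (D t t' * (p : L) ^ (2 * a) *
        ((algebraMap k L (α : k) - t) * (algebraMap k L (α : k) - t'))) =
        D (σ t) (σ t') * (p : L) ^ (2 * a) *
        ((algebraMap k L (α : k) - σ t) * (algebraMap k L (α : k) - σ t')) := by
      rw [map_mul, ← h5, map_mul, hsub, hsub]
    rw [val_lt_conj hσ, map_sub, map_pow, h7, map_one] at h6
    exact h6

end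

/-- **Block A.** -/
theorem stmtA : StmtA := by
  classical
  intro k _ _ f hev h4 hf L _ _ _ _ hsplit
  obtain ⟨M₁, hM₁, hgood⟩ := exists_good f hf
  obtain ⟨M₂, hM₂, hunk⟩ := exists_unram k
  obtain ⟨M₃, hM₃, hunL⟩ := exists_unram L
  refine ⟨2 * M₁ * M₂ * M₃, mul_ne_zero (mul_ne_zero (mul_ne_zero two_ne_zero hM₁) hM₂) hM₃, ?_⟩
  rintro c hc ⟨K, hFK, hAK, x, y, hx, hxy, ⟨s⟩⟩
  have hcK : algebraMap k K c ≠ 0 := (_root_.map_ne_zero _).2 hc
  have hxy' : algebraMap k K c * (y / algebraMap k K c) ^ 2 = aeval x f := by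
    rw [div_pow, hxy]
    field_simp
  obtain ⟨d₀, hd₀⟩ := exists_crv hx hf hc hxy'
  obtain ⟨d, hd⟩ := exists_dat s d₀
  have hcard : d.R.card = f.natDegree := by
    rw [← hd₀, ← hd]
  have halg : Algebra.IsAlgebraic k L := inferInstance
  obtain ⟨ι⟩ : Nonempty (L →ₐ[k] kbar k K) := ⟨IsAlgClosed.lift⟩
  obtain ⟨D, hD, hD0, hDσ⟩ := exists_D d ι
  have hloc : ∀ (p : ℕ) (v : Pr k), p.Prime → ¬ p ∣ 2 * M₁ * M₂ * M₃ → (p : 𝓞 k) ∈ v.asIdeal →
      ∃ α : 𝓞 k, ∀ P : Pr L, P.asIdeal.comap (algebraMap (𝓞 k) (𝓞 L)) = v.asIdeal →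
        At f c D p v P α := by
    intro p v hp hpM hv
    have hp2 : p ≠ 2 := by
      rintro rfl
      exact hpM (((dvd_mul_right 2 _).mul_right _).mul_right _)
    have hp1 : ¬ p ∣ M₁ := fun h => hpM (((h.mul_left _).mul_right _).mul_right _)
    have hp2' : ¬ p ∣ M₂ := fun h => hpM ((h.mul_left _).mul_right _)
    have hp3 : ¬ p ∣ M₃ := fun h => hpM (h.mul_left _)
    obtain ⟨ff, hff0, hff⟩ := nm_pow v hp hv
    have hG := hgood p v hp hp1 hv
    obtain ⟨Lc⟩ := exists_loc d hp hff0 (pl_OV v hff (hunk p hp hp2' v hv)) hp2 hG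
    obtain ⟨P, α, hP, hAt⟩ := at_one d (by rw [hcard]; exact hev) (by rw [hcard]; exact h4) hv hff Lc
      hG ι (hunL p hp hp3) hD
    refine ⟨α, fun P' hP' => ?_⟩
    obtain ⟨σ, hσ⟩ := exists_conj' hP hP'
    exact hAt.conj hDσ hσ
  have hch : ∀ v : Pr k, ∃ α : 𝓞 k, ∀ p : ℕ, p.Prime → ¬ p ∣ 2 * M₁ * M₂ * M₃ →
      (p : 𝓞 k) ∈ v.asIdeal → ∀ P : Pr L,
      P.asIdeal.comap (algebraMap (𝓞 k) (𝓞 L)) = v.asIdeal → At f c D p v P α := by
    intro v
    by_cases h : ∃ p : ℕ, p.Prime ∧ ¬ p ∣ 2 * M₁ * M₂ * M₃ ∧ (p : 𝓞 k) ∈ v.asIdeal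
    · obtain ⟨p, hp, hpM, hv⟩ := h
      obtain ⟨α, hα⟩ := hloc p v hp hpM hv
      refine ⟨α, fun p' hp' hpM' hv' => ?_⟩
      have h1 : (p : ℤ) ∣ (p' : ℤ) := dvd_of_mem hp hv (by rw [Int.cast_natCast]; exact hv')
      have h2 : p = p' := (Nat.prime_dvd_prime_iff_eq hp hp').1 (by exact_mod_cast h1)
      rw [← h2]
      exact hα
    · exact ⟨0, fun p hp hpM hv => absurd ⟨p, hp, hpM, hv⟩ h⟩
  choose α hα using hch
  refine ⟨α, D, fun θ hθ θ' hθ' _ => hD0 θ hθ θ' hθ', fun σ θ hθ θ' hθ' _ => hDσ σ θ hθ θ' hθ',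
    ?_, ?_, ?_, ?_, ?_⟩
  · intro p v hp hpM hv hc
    obtain ⟨P, hP⟩ := exists_over (L := L) v
    exact (hα v p hp hpM hv P hP).root hc
  · intro p v P hO
    exact (hα v p hO.prime hO.not_dvd hO.mem P hO.comap).good
  · intro p v P hO
    exact (hα v p hO.prime hO.not_dvd hO.mem P hO.comap).even
  · intro p v P hO
    exact (hα v p hO.prime hO.not_dvd hO.mem P hO.comap).odd
  · intro p v P hO
    exact (hα v p hO.prime hO.not_dvd hO.mem P hO.comap).tangent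

end Pool.Agent.HG
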