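import Pool.Agent.Helper91.Section.Basic

/-!
# Project HG (MP_e66f84_ag): hyperelliptic curves of every genus over number fields

Block A: what a Galois section of a curve over `y² = c f(x)` gives, with pairs of roots of `f`.
-/

set_option autoImplicit false

namespace Pool.Agent.HG

open Polynomial NumberField IsDedekindDomain Pool.Agent.Helper91.Sect

/-- some curve with function field `K` which maps onto `y² = c f(x)` has a Galois section -/
def HasSection {k : Type} [Field k] (f : k[X]) (c : k) : Prop :=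
  ∃ (K : Type) (_ : Field K) (_ : Algebra k K) (x y : K), Transcendental k x ∧
    y ^ 2 = algebraMap k K c * aeval x f ∧ Nonempty (GaloisSection k K)

/-- `z` times an even power of `p` is a unit at `P` (for `p` unramified: the valuation is even) -/
def Ev {F : Type} [Field F] [NumberField F] (P : HeightOneSpectrum (𝓞 F)) (p : ℕ) (z : F) : Prop :=
  ∃ a : ℤ, P.valuation F (z * (p : F) ^ (2 * a)) = 1

/-- `z` times an odd power of `p` is a unit at `P` (for `p` unramified: the valuation is odd) -/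
def Od {F : Type} [Field F] [NumberField F] (P : HeightOneSpectrum (𝓞 F)) (p : ℕ) (z : F) : Prop :=
  ∃ a : ℤ, P.valuation F (z * (p : F) ^ (2 * a + 1)) = 1

/-- `P` lies over `v`, which lies over the prime number `p`, not a divisor of `M` -/
structure Over {k L : Type} [Field k] [NumberField k] [Field L] [NumberField L] [Algebra k L]
    (M p : ℕ) (v : HeightOneSpectrum (𝓞 k)) (P : HeightOneSpectrum (𝓞 L)) : Prop where
  prime : p.Prime
  not_dvd : ¬ p ∣ M
  mem : (p : 𝓞 k) ∈ v.asIdeal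
  comap : P.asIdeal.comap (algebraMap (𝓞 k) (𝓞 L)) = v.asIdeal

/-- The arithmetic data which a Galois section of a curve over `y² = c f(x)` gives: for all pairs of
roots `θ, θ'` an element `D θ θ'` of `L` (of the field `k(θ,θ')`, by `equiv`), for all primes
`v ∤ M` of `k` with `v(c)` odd a root `α v` of `f` modulo `v`. -/
structure Bad {k L : Type} [Field k] [NumberField k] [Field L] [NumberField L] [Algebra k L]
    (f : k[X]) (M : ℕ) (c : k) (α : HeightOneSpectrum (𝓞 k) → 𝓞 k) (D : L → L → L) : Prop where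
  ne : ∀ θ ∈ f.rootSet L, ∀ θ' ∈ f.rootSet L, θ ≠ θ' → D θ θ' ≠ 0
  equiv : ∀ σ : L ≃ₐ[k] L, ∀ θ ∈ f.rootSet L, ∀ θ' ∈ f.rootSet L, θ ≠ θ' →
    σ (D θ θ') = D (σ θ) (σ θ')
  root : ∀ (p : ℕ) (v : HeightOneSpectrum (𝓞 k)), p.Prime → ¬ p ∣ M → (p : 𝓞 k) ∈ v.asIdeal →
    Od v p c → v.valuation k (f.eval (algebraMap (𝓞 k) k (α v))) < 1
  /-- the valuation of `D θ θ'` is even where the valuation of `c` is even -/
  good : ∀ (p : ℕ) (v : HeightOneSpectrum (𝓞 k)) (P : HeightOneSpectrum (𝓞 L)), Over M p v P →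
    Ev v p c → ∀ θ ∈ f.rootSet L, ∀ θ' ∈ f.rootSet L, θ ≠ θ' → Ev P p (D θ θ')
  /-- if the valuation of `c` is odd: it is even if `θ` and `θ'` are not congruent to `α v` -/
  even : ∀ (p : ℕ) (v : HeightOneSpectrum (𝓞 k)) (P : HeightOneSpectrum (𝓞 L)), Over M p v P →
    Od v p c → ∀ θ ∈ f.rootSet L, ∀ θ' ∈ f.rootSet L, θ ≠ θ' →
    P.valuation L (algebraMap k L (α v) - θ) = 1 → P.valuation L (algebraMap k L (α v) - θ') = 1 →
    Ev P p (D θ θ')
  /-- and odd if one of them is -/
  odd : ∀ (p : ℕ) (v : HeightOneSpectrum (𝓞 k)) (P : HeightOneSpectrum (𝓞 L)), Over M p v P →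
    Od v p c → ∀ θ ∈ f.rootSet L, ∀ θ' ∈ f.rootSet L, θ ≠ θ' →
    (P.valuation L (algebraMap k L (α v) - θ) < 1 ∨
      P.valuation L (algebraMap k L (α v) - θ') < 1) → Od P p (D θ θ')
  /-- **the tangent condition**: `D(θ,θ') (α - θ) (α - θ')` is a square in the completion of
  `k(θ,θ')` below `P` (Euler's criterion in the field with `N ^ d` elements, `N` the norm of `v`) -/
  tangent : ∀ (p : ℕ) (v : HeightOneSpectrum (𝓞 k)) (P : HeightOneSpectrum (𝓞 L)), Over M p v P →
    Od v p c → ∀ θ ∈ f.rootSet L, ∀ θ' ∈ f.rootSet L, θ ≠ θ' →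
    P.valuation L (algebraMap k L (α v) - θ) = 1 → P.valuation L (algebraMap k L (α v) - θ') = 1 →
    ∀ N d : ℕ, N = Ideal.absNorm v.asIdeal → 0 < d →
    P.valuation L (θ ^ N ^ d - θ) < 1 → P.valuation L (θ' ^ N ^ d - θ') < 1 →
    ∀ a : ℤ, P.valuation L (D θ θ' * (p : L) ^ (2 * a)) = 1 →
      P.valuation L ((D θ θ' * (p : L) ^ (2 * a) *
        ((algebraMap k L (α v) - θ) * (algebraMap k L (α v) - θ'))) ^ ((N ^ d - 1) / 2) - 1) < 1

/-- BLOCK A (helper45) -/
def StmtA : Prop :=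
  ∀ (k : Type) [Field k] [NumberField k] (f : k[X]), Even f.natDegree → 4 ≤ f.natDegree →
    f.Separable → ∀ (L : Type) [Field L] [NumberField L] [Algebra k L] [IsGalois k L],
    (f.map (algebraMap k L)).Splits →
    ∃ M : ℕ, M ≠ 0 ∧ ∀ c : k, c ≠ 0 → HasSection f c →
      ∃ (α : HeightOneSpectrum (𝓞 k) → 𝓞 k) (D : L → L → L), Bad f M c α D

end Pool.Agent.HG
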