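import Pool.Agent.Helper13.HG.Base

/-!
# The number of classes modulo squares: algebra
-/

set_option autoImplicit false

namespace Pool.Agent.HG

open NumberField IsDedekindDomain WithZero UniqueFactorizationMonoid

section

variable {k : Type} [Field k] [NumberField k]

/-- every nonzero ideal is a squarefree ideal times a square -/
theorem exists_sq_decomp (I : Ideal (𝓞 k)) (hI : I ≠ 0) :
    ∃ J A : Ideal (𝓞 k), Squarefree J ∧ A ≠ 0 ∧ I = J * A ^ 2 := by
  obtain ⟨n, hn⟩ : ∃ n : ℕ, Ideal.absNorm I = n := ⟨_, rfl⟩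
  induction n using Nat.strong_induction_on generalizing I with
  | _ n ih =>
    by_cases hsq : Squarefree I
    · exact ⟨I, 1, hsq, one_ne_zero, by rw [one_pow, mul_one]⟩
    · rw [Squarefree] at hsq
      push Not at hsq
      obtain ⟨B, ⟨I', hI'⟩, hB⟩ := hsq
      have hI'0 : I' ≠ 0 := by
        rintro rfl
        exact hI (by rw [hI', mul_zero])
      have hB0 : B ≠ 0 := by
        rintro rfl
        exact hI (by rw [hI', zero_mul, zero_mul])
      have hpos : ∀ J : Ideal (𝓞 k), J ≠ 0 → 0 < Ideal.absNorm J := by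
        intro J hJ
        refine Nat.pos_of_ne_zero ?_
        rw [Ne, Ideal.absNorm_eq_zero_iff]
        exact hJ
      have hB2 : 2 ≤ Ideal.absNorm B := by
        have h1 := hpos B hB0
        have h2 : Ideal.absNorm B ≠ 1 := by
          rw [Ne, Ideal.absNorm_eq_one_iff]
          rintro rfl
          exact hB (Ideal.isUnit_iff.2 rfl)
        omega
      have hlt : Ideal.absNorm I' < n := by
        rw [← hn, hI', map_mul, map_mul]
        have h1 := hpos I' hI'0
        calc Ideal.absNorm I' = 1 * Ideal.absNorm I' := (one_mul _).symm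
          _ < (2 * 2) * Ideal.absNorm I' := Nat.mul_lt_mul_of_pos_right (by norm_num) h1
          _ ≤ _ := Nat.mul_le_mul_right _ (Nat.mul_le_mul hB2 hB2)
      obtain ⟨J, A, hJ, hA, hJA⟩ := ih _ hlt I' hI'0 rfl
      refine ⟨J, B * A, hJ, mul_ne_zero hB0 hA, ?_⟩
      rw [hI', hJA]
      ring

theorem isOdd_iff (v : Pr k) {α : 𝓞 k} (hα : α ≠ 0) {J A : Ideal (𝓞 k)} (hJ : Squarefree J)
    (hA : A ≠ 0) (h : Ideal.span {α} = J * A ^ 2) : IsOdd v (α : k) ↔ v.asIdeal ∣ J := by
  classical
  have hvp := v.prime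
  have hJ0 : J ≠ 0 := hJ.ne_zero
  have hfin : FiniteMultiplicity v.asIdeal (Ideal.span {α}) :=
    FiniteMultiplicity.of_prime_left hvp (by rw [Ne, Ideal.zero_eq_bot, Ideal.span_singleton_eq_bot]; exact hα)
  have hmul : multiplicity v.asIdeal (Ideal.span {α}) =
      multiplicity v.asIdeal J + 2 * multiplicity v.asIdeal A := by
    have h1 : FiniteMultiplicity v.asIdeal (J * A ^ 2) := by rw [← h]; exact hfin
    have h2 : FiniteMultiplicity v.asIdeal A := FiniteMultiplicity.of_prime_left hvp hA
    rw [h, multiplicity_mul hvp h1, h2.multiplicity_pow hvp]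
  have hval : v.valuation k (α : k) =
      exp (-((multiplicity v.asIdeal J + 2 * multiplicity v.asIdeal A : ℕ) : ℤ)) := by
    rw [← hmul]
    exact (v.valuation_of_algebraMap (K := k) α).trans (v.intValuation_eq_exp_neg_multiplicity hα)
  have hle : multiplicity v.asIdeal J ≤ 1 := by
    rcases (squarefree_iff_emultiplicity_le_one J).1 hJ v.asIdeal with h1 | h1
    · have h2 : FiniteMultiplicity v.asIdeal J := FiniteMultiplicity.of_prime_left hvp hJ0
      rw [h2.emultiplicity_eq_multiplicity] at h1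
      exact_mod_cast h1
    · exact absurd h1 hvp.not_isUnit
  constructor
  · intro hodd
    by_contra hnd
    have h0 : multiplicity v.asIdeal J = 0 := multiplicity_eq_zero.2 hnd
    obtain ⟨π, hπ⟩ := v.valuation_exists_uniformizer k
    apply hodd (π ^ multiplicity v.asIdeal A)
    rw [hval, h0, map_pow, hπ, ← pow_mul, ← exp_nsmul, exp_inj]
    push_cast
    ring
  · intro hd d hd2
    have h1 : multiplicity v.asIdeal J = 1 := by
      have h2 : multiplicity v.asIdeal J ≠ 0 := fun h3 => multiplicity_eq_zero.1 h3 hd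
      omega
    rw [hval, h1] at hd2
    have hd0 : v.valuation k d ≠ 0 := by
      intro h0
      rw [h0, zero_pow two_ne_zero] at hd2
      exact exp_ne_zero hd2
    rw [← exp_log hd0, ← exp_nsmul, exp_inj] at hd2
    rw [nsmul_eq_mul] at hd2
    push_cast at hd2
    omega

theorem cond_le {α : 𝓞 k} (hα : α ≠ 0) {J A : Ideal (𝓞 k)} (hJ : Squarefree J)
    (hA : A ≠ 0) (h : Ideal.span {α} = J * A ^ 2) : cond (α : k) ≤ Ideal.absNorm J := by
  classical
  have hJ0 : J ≠ 0 := hJ.ne_zero
  have hfin : {v : Pr k | v.asIdeal ∣ J}.Finite := Ideal.finite_factors hJ0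
  have h1 : cond (α : k) = ∏ v ∈ hfin.toFinset, nm v := by
    unfold cond
    rw [finprod_eq_prod_of_mulSupport_subset (s := hfin.toFinset)]
    · refine Finset.prod_congr rfl fun v hv => ?_
      rw [if_pos ((isOdd_iff v hα hJ hA h).2 (by simpa using hv))]
    · intro v hv
      rw [Function.mem_mulSupport] at hv
      rw [Finset.mem_coe, Set.Finite.mem_toFinset]
      by_contra hnd
      apply hv
      rw [if_neg fun ho => hnd ((isOdd_iff v hα hJ hA h).1 ho)]
  rw [h1]
  have h2 : ∏ v ∈ hfin.toFinset, nm v = Ideal.absNorm (∏ v ∈ hfin.toFinset, v.asIdeal) := by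
    rw [map_prod]
    rfl
  rw [h2]
  refine Nat.le_of_dvd (Nat.pos_of_ne_zero ?_) ?_
  · rw [Ne, Ideal.absNorm_eq_zero_iff]
    exact hJ0
  · refine Ideal.absNorm_dvd_absNorm_of_le (Ideal.dvd_iff_le.1 ?_)
    have h3 : ∏ v ∈ hfin.toFinset, v.asIdeal =
        ∏ p ∈ hfin.toFinset.image (fun v : Pr k => v.asIdeal), p := by
      rw [Finset.prod_image]
      intro v _ w _ hvw
      exact HeightOneSpectrum.ext hvw
    rw [h3]
    refine Finset.prod_primes_dvd _ ?_ ?_
    · intro p hp
      obtain ⟨v, -, rfl⟩ := Finset.mem_image.1 hp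
      exact v.prime
    · intro p hp
      obtain ⟨v, hv, rfl⟩ := Finset.mem_image.1 hp
      simpa using hv

/-- the parity of the valuation depends on the class modulo squares only -/
theorem isOdd_mul_sq {v : Pr k} {c d : k} (hd : d ≠ 0) : IsOdd v (c * d ^ 2) ↔ IsOdd v c := by
  have hd0 : v.valuation k d ≠ 0 := (Valuation.ne_zero_iff _).2 hd
  constructor
  · intro h e he
    apply h (e * d)
    rw [map_mul, map_mul, map_pow, he, mul_pow]
  · intro h e he
    apply h (e / d)
    rw [map_div₀, div_pow, ← he, map_mul, map_pow, mul_div_cancel_right₀ _ (pow_ne_zero 2 hd0)]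

theorem squarefree_ext {J J' : Ideal (𝓞 k)} (hJ : Squarefree J) (hJ' : Squarefree J')
    (h : ∀ v : Pr k, v.asIdeal ∣ J ↔ v.asIdeal ∣ J') : J = J' := by
  classical
  have key : ∀ {J J' : Ideal (𝓞 k)}, Squarefree J → Squarefree J' →
      (∀ v : Pr k, v.asIdeal ∣ J → v.asIdeal ∣ J') → J ∣ J' := by
    intro J J' hJ hJ' h
    rw [dvd_iff_normalizedFactors_le_normalizedFactors hJ.ne_zero hJ'.ne_zero,
      Multiset.le_iff_subset ((squarefree_iff_nodup_normalizedFactors hJ.ne_zero).1 hJ)]
    intro p hp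
    have hpp := prime_of_normalized_factor p hp
    have hpd := dvd_of_mem_normalizedFactors hp
    have h1 := h ⟨p, Ideal.isPrime_of_prime hpp, hpp.ne_zero⟩ hpd
    obtain ⟨q, hq, hpq⟩ := exists_mem_normalizedFactors_of_dvd hJ'.ne_zero hpp.irreducible h1
    rw [associated_iff_eq.1 hpq]
    exact hq
  exact dvd_antisymm (key hJ hJ' fun v hv => (h v).1 hv) (key hJ' hJ fun v hv => (h v).2 hv)

end

end Pool.Agent.HG
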