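import Pool.Agent.Helper45.HG.Loc2

/-!
# The places where the valuation of `c` is odd
-/

set_option autoImplicit false
set_option linter.unusedSectionVars false

universe u

namespace Pool.Agent.HG

open Polynomial Pool.Agent.Helper91.Sect

/-- A permutation of a finite set with an odd number of elements has a cycle of odd length. -/
theorem odd_fix {k C : Type*} [Field k] [Field C] [Algebra k C] {γ : C ≃ₐ[k] C} {R : Finset C}
    (hodd : Odd R.card) (hR : ∀ r ∈ R, γ r ∈ R) : ∃ m : ℕ, Odd m ∧ ∃ l ∈ R, (γ ^ m) l = l := by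
  classical
  let g : R → R := fun r => ⟨γ r, hR r r.2⟩
  have hg : Function.Injective g := fun a b h => Subtype.ext (γ.injective (congrArg Subtype.val h))
  let π : Equiv.Perm R := Equiv.ofBijective g (Finite.injective_iff_bijective.1 hg)
  have h1 : ∀ (n : ℕ) (r : R), (((π ^ n) r : R) : C) = (γ ^ n) (r : C) := by
    intro n
    induction n with
    | zero => intro r; rfl
    | succ n ih =>
      intro r
      rw [pow_succ, Equiv.Perm.mul_apply, ih, pow_succ, AlgEquiv.mul_apply]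
      rfl
  obtain ⟨a, m, hm, hN⟩ := Nat.exists_eq_two_pow_mul_odd (orderOf_pos π).ne'
  have h2 : (π ^ m) ^ 2 ^ a = 1 := by
    rw [← pow_mul, mul_comm, ← hN, pow_orderOf_eq_one]
  have hp2 : Fact (Nat.Prime 2) := ⟨Nat.prime_two⟩
  obtain ⟨l, hl⟩ := Equiv.Perm.exists_fixed_point_of_prime (p := 2) (by
    rw [Fintype.card_coe]
    exact hodd.not_two_dvd_nat) h2
  exact ⟨m, hm, l, l.2, by rw [← h1, hl]⟩

theorem pow_fix {k C : Type*} [Field k] [Field C] [Algebra k C] {γ : C ≃ₐ[k] C} {z : C}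
    (hz : γ z = z) (n : ℕ) : (γ ^ n) z = z := by
  induction n with
  | zero => rfl
  | succ n ih => rw [pow_succ, AlgEquiv.mul_apply, hz, ih]

section

variable {k K : Type u} [Field k] [Field K] [Algebra k K] [CharZero k]
  {s : GaloisSection k K} {x y : K} {f : k[X]} {c : k}

theorem bad_step (d : Dat s x y f c) {O : ValuationSubring k} {p ff : ℕ} (L : Loc d O p ff)
    (hev : Even d.R.card) (h4 : 4 ≤ d.R.card) {a : ℤ} (ha : O.valuation (c * (p : k) ^ (2 * a + 1)) = 1)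
    {τ : Gk k K} (hτ : InI L.Q τ) {π : kbar k K} (hπ : π ^ 2 = (p : kbar k K)) (hτπ : τ π = -π) :
    ∃ r₀ ∈ d.R, (∀ γ : Gk k K, InD L.Q γ → γ r₀ = r₀) ∧
      (∀ r ∈ d.R, ∀ r' ∈ d.R, r ≠ r' → r₀ ≠ r → r₀ ≠ r' → τ (d.δ r r') = d.δ r r') ∧
      (∀ r ∈ d.R, ∀ r' ∈ d.R, r ≠ r' → (r₀ = r ∨ r₀ = r') → τ (d.δ r r') = -d.δ r r') ∧
      ∀ r ∈ d.R, ∀ r' ∈ d.R, r ≠ r' → r₀ ≠ r → r₀ ≠ r' → ∀ γ : Gk k K, InD L.Q γ → γ r = r →
        γ r' = r' → ∀ U : kbar k K, U ^ 2 = d.δ r r' ^ 2 * ((r₀ - r) * (r₀ - r')) → γ U = U := by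
  classical
  obtain ⟨ω, hω⟩ := IsAlgClosed.exists_pow_nat_eq (algebraMap k (kbar k K) c) two_pos
  obtain ⟨ξ, ε, hξ, hε, hW, hprod⟩ := exists_signs d L hτ hω
  have h1 := hprod (-1) (by
    rw [(L.act_c hτ hπ hτπ hω ha).2 (odd_two_mul_add_one a)]
    simp)
  obtain ⟨r₀, hr₀, hodd⟩ := (L.comb hev hτ hξ hε).2 h1
  have hpm : ∀ e : ℤˣ, e ≠ -e := by
    intro e
    rcases Int.units_eq_one_or e with h | h <;> rw [h] <;> decide
  have hs1 : ∀ r ∈ d.R, r ≠ r₀ → ε r * ε r₀ = -1 := by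
    intro r hr hne
    rw [hodd r hr hne, neg_mul, Int.units_mul_self]
  have hfix : ∀ γ : Gk k K, InD L.Q γ → γ r₀ = r₀ := by
    intro γ hγ
    by_contra hne
    -- every other root is mapped to `r₀`
    have h2 : ∀ r ∈ d.R, r ≠ r₀ → γ r = r₀ := by
      intro r hr hrne
      by_contra hγr
      have h3 := eps_inv_wild d.a0_ne d.c_ne d.heq d.hv s L.Q (Or.inr L.hpp) L.hp2 L.hres hτ hξ hε
        d.hv0 L.hIR hγ hr hr₀ (d.gR γ hr) (d.gR γ hr₀)
      rw [hs1 r hr hrne, hodd _ (d.gR γ hr) hγr, hodd _ (d.gR γ hr₀) hne, neg_mul_neg,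
        Int.units_mul_self] at h3
      exact absurd h3 (by decide)
    have h5 : 1 < (d.R.erase r₀).card := by
      rw [Finset.card_erase_of_mem hr₀]
      omega
    obtain ⟨r, hr, r', hr', hrr⟩ := Finset.one_lt_card.1 h5
    rw [Finset.mem_erase] at hr hr'
    exact hrr (γ.injective ((h2 r hr.2 hr.1).trans (h2 r' hr'.2 hr'.1).symm))
  refine ⟨r₀, hr₀, hfix, ?_, ?_, ?_⟩
  · intro r hr r' hr' _ h2 h3
    have h5 := d.act_δ hr hr' (L.hIR τ hτ r hr) (L.hIR τ hτ r' hr') (hW r hr r' hr')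
    rw [hodd r hr (Ne.symm h2), hodd r' hr' (Ne.symm h3), Int.units_mul_self] at h5
    rw [h5]
    simp
  · intro r hr r' hr' hne h2
    have h5 := d.act_δ hr hr' (L.hIR τ hτ r hr) (L.hIR τ hτ r' hr') (hW r hr r' hr')
    have h6 : ε r * ε r' = -1 := by
      rcases h2 with rfl | rfl
      · rw [mul_comm]
        exact hs1 r' hr' (Ne.symm hne)
      · exact hs1 r hr hne
    rw [h6] at h5
    rw [h5]
    simp
  · intro r hr r' hr' hne h2 h3 γ hγ hγr hγr' U hU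
    obtain ⟨ρ, hρ⟩ := IsAlgClosed.exists_pow_nat_eq (r₀ - r) two_pos
    obtain ⟨ρ', hρ'⟩ := IsAlgClosed.exists_pow_nat_eq (r₀ - r') two_pos
    have hρ0 : ρ ≠ 0 := by
      rintro rfl
      rw [zero_pow two_ne_zero, eq_comm, sub_eq_zero] at hρ
      exact h2 hρ
    have hρ'0 : ρ' ≠ 0 := by
      rintro rfl
      rw [zero_pow two_ne_zero, eq_comm, sub_eq_zero] at hρ'
      exact h3 hρ'
    have hδ0 := d.hδ0 r hr r' hr'
    -- a root fixed by an odd power of `γ`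
    obtain ⟨R', hR'⟩ : ∃ R' : Finset (kbar k K), R' = ((d.R.erase r₀).erase r).erase r' := ⟨_, rfl⟩
    have hmem : ∀ z, z ∈ R' ↔ z ≠ r' ∧ z ≠ r ∧ z ≠ r₀ ∧ z ∈ d.R := by
      intro z
      rw [hR', Finset.mem_erase, Finset.mem_erase, Finset.mem_erase]
    have hcard : R'.card = d.R.card - 1 - 1 - 1 := by
      rw [hR', Finset.card_erase_of_mem, Finset.card_erase_of_mem, Finset.card_erase_of_mem hr₀]
      · exact Finset.mem_erase.2 ⟨Ne.symm h2, hr⟩
      · exact Finset.mem_erase.2 ⟨Ne.symm hne, Finset.mem_erase.2 ⟨Ne.symm h3, hr'⟩⟩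
    have hodd' : Odd R'.card := by
      rw [hcard]
      obtain ⟨u, hu⟩ := hev
      exact ⟨u - 2, by omega⟩
    obtain ⟨m, hm, l, hlR, hl⟩ := odd_fix (γ := γ) hodd' (by
      intro z hz
      rw [hmem] at hz ⊢
      refine ⟨fun h => hz.1 (γ.injective (h.trans hγr'.symm)),
        fun h => hz.2.1 (γ.injective (h.trans hγr.symm)),
        fun h => hz.2.2.1 (γ.injective (h.trans (hfix γ hγ).symm)), d.gR γ hz.2.2.2⟩)
    rw [hmem] at hlR
    have hT : ∃ g : Kur k K, d.W r r' = toKur k K (ρ * ρ') * g ∧ g ≠ 0 ∧ s.toHom γ g = g := by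
      refine ⟨(toKur k K (ρ * ρ'))⁻¹ * d.W r r', ?_, ?_, ?_⟩
      · rw [mul_inv_cancel_left₀]
        exact (_root_.map_ne_zero (toKur k K)).2 (mul_ne_zero hρ0 hρ'0)
      · exact mul_ne_zero (inv_ne_zero ((_root_.map_ne_zero (toKur k K)).2 (mul_ne_zero hρ0 hρ'0)))
          (d.W_ne hr hr')
      · have hρρ : toKur k K (ρ * ρ') ≠ 0 :=
          (_root_.map_ne_zero (toKur k K)).2 (mul_ne_zero hρ0 hρ'0)
        refine section_fix_of_odd s (mul_ne_zero (inv_ne_zero hρρ) (d.W_ne hr hr')) ?_ hm ?_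
        · rw [mul_pow, W_sq d.toCrv (d.hW r hr r' hr'), inv_pow, ← map_pow, mul_pow, hρ, hρ', map_mul,
            map_inv₀, map_mul (s.toHom γ), map_sub, map_sub, section_toKur, section_toKur,
            section_toKur, AlgEquiv.commutes, map_mul, map_sub, map_sub, hfix γ hγ, hγr, hγr']
        · refine HP.tangent s L.Q (Or.inr L.hpp) L.hp2 L.hres d.a0_ne d.c_ne d.heq d.hv d.hv0 hτ hξ
            hε L.hIR L.hQ1 hr₀ hlR.2.2.2 hr hr' (Ne.symm hlR.2.2.1) h2 h3 (Ne.symm hlR.2.1)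
            (Ne.symm hlR.1) (hs1 _ hlR.2.2.2 hlR.2.2.1) (hs1 _ hr (Ne.symm h2))
            (hs1 _ hr' (Ne.symm h3)) (hγ.pow m) (pow_fix (hfix γ hγ) m) hl
            (Or.inl ⟨pow_fix hγr m, pow_fix hγr' m⟩) hρ hρ' ?_
          rw [← d.hW r hr r' hr']
          have h5 : ((ρ : AlgebraicClosure K) * (ρ' : AlgebraicClosure K)) =
              ((toKur k K (ρ * ρ') : Kur k K) : AlgebraicClosure K) := rfl
          have h6 : (((toKur k K (ρ * ρ'))⁻¹ * d.W r r' * toKur k K (ρ * ρ') : Kur k K) :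
              AlgebraicClosure K) = (d.W r r' : AlgebraicClosure K) := by
            congr 1
            field_simp
          rw [h5]
          exact h6
    obtain ⟨g, hg, hg0, hγg⟩ := hT
    have h5 := d.hδ γ r hr r' hr'
    rw [hγr, hγr', hg, ← mul_assoc, ← map_mul (toKur k K), map_mul (s.toHom γ), section_toKur,
      hγg] at h5
    have h6 := (toKur k K).injective (mul_right_cancel₀ hg0 h5)
    have h7 : U ^ 2 = (d.δ r r' * (ρ * ρ')) ^ 2 := by
      rw [hU, mul_pow, mul_pow, hρ, hρ']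
    rcases sq_eq_sq_iff_eq_or_eq_neg.1 h7 with h8 | h8
    · rw [h8, h6]
    · rw [h8, map_neg, h6]

end

end Pool.Agent.HG
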