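import Pool.Agent.Helper45.HG.Below
import Pool.Agent.Helper45.HG.Loc3

/-!
# The conditions at one prime of `L` above `v`
-/

set_option autoImplicit false
set_option linter.unusedSectionVars false

namespace Pool.Agent.HG

open Polynomial NumberField IsDedekindDomain WithZero Pool.Agent.Helper91.Sect

section

variable {k K L : Type} [Field k] [NumberField k] [Field K] [Algebra k K] [Field L] [NumberField L]
  [Algebra k L]

/-- the conditions at one prime -/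
structure At (f : k[X]) (c : k) (D : L → L → L) (p : ℕ) (v : Pr k) (P : Pr L) (α : 𝓞 k) :
    Prop where
  root : Od v p c → v.valuation k (f.eval (algebraMap (𝓞 k) k α)) < 1
  good : Ev v p c → ∀ θ ∈ f.rootSet L, ∀ θ' ∈ f.rootSet L, θ ≠ θ' → Ev P p (D θ θ')
  even : Od v p c → ∀ θ ∈ f.rootSet L, ∀ θ' ∈ f.rootSet L, θ ≠ θ' →
    P.valuation L (algebraMap k L α - θ) = 1 → P.valuation L (algebraMap k L α - θ') = 1 →
    Ev P p (D θ θ')
  odd : Od v p c → ∀ θ ∈ f.rootSet L, ∀ θ' ∈ f.rootSet L, θ ≠ θ' →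
    (P.valuation L (algebraMap k L α - θ) < 1 ∨ P.valuation L (algebraMap k L α - θ') < 1) →
    Od P p (D θ θ')
  tangent : Od v p c → ∀ θ ∈ f.rootSet L, ∀ θ' ∈ f.rootSet L, θ ≠ θ' →
    P.valuation L (algebraMap k L α - θ) = 1 → P.valuation L (algebraMap k L α - θ') = 1 →
    ∀ N d : ℕ, N = Ideal.absNorm v.asIdeal → 0 < d →
    P.valuation L (θ ^ N ^ d - θ) < 1 → P.valuation L (θ' ^ N ^ d - θ') < 1 →
    ∀ a : ℤ, P.valuation L (D θ θ' * (p : L) ^ (2 * a)) = 1 →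
      P.valuation L ((D θ θ' * (p : L) ^ (2 * a) *
        ((algebraMap k L α - θ) * (algebraMap k L α - θ'))) ^ ((N ^ d - 1) / 2) - 1) < 1

variable {s : GaloisSection k K} {x y : K} {f : k[X]} {c : k}

theorem ev_or_od (d : Dat s x y f c) {v : Pr k} {p ff : ℕ} (Lc : Loc d (OV v) p ff)
    (ι : L →ₐ[k] kbar k K) {P : Pr L} (hP : ∀ z : 𝓞 L, z ∈ P.asIdeal ↔ jj v ι z ∈ Lc.Q)
    (hun : P.valuation L (p : L) = exp (-1 : ℤ)) {τ : Gk k K} {π : kbar k K}
    (hτ : InI Lc.Q τ) (hπ : π ^ 2 = (p : kbar k K)) (hτπ : τ π = -π) {r r' : kbar k K}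
    (hr : r ∈ d.R) (hr' : r' ∈ d.R) {z : L} (hz : ι z = d.δ r r' ^ 2) :
    (τ (d.δ r r') = d.δ r r' → Ev P p z) ∧ (τ (d.δ r r') = -d.δ r r' → Od P p z) := by
  have hδ0 := d.hδ0 r hr r' hr'
  have hz0 : z ≠ 0 := by
    rintro rfl
    rw [map_zero] at hz
    exact pow_ne_zero 2 hδ0 hz.symm
  obtain ⟨b, hb⟩ := exists_zpow hun hz0
  have h1 := (val_rel v ι Lc.Q hP _).2.1 hb
  rw [map_mul, map_zpow₀, map_natCast, hz] at h1
  have h2 := act_sqrt Lc hτ hπ hτπ h1 (by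
    rw [d.sq_equiv τ hr hr', Lc.hIR τ hτ r hr, Lc.hIR τ hτ r' hr'])
  have hne : d.δ r r' ≠ -d.δ r r' := by
    intro h
    have h3 : 2 * d.δ r r' = 0 := by linear_combination h
    exact hδ0 ((mul_eq_zero.1 h3).resolve_left two_ne_zero)
  rcases Int.even_or_odd b with he | ho
  · refine ⟨fun _ => ?_, fun h => ?_⟩
    · obtain ⟨a, rfl⟩ := he
      exact ⟨a, by rw [two_mul]; exact hb⟩
    · exact absurd ((h2.1 he).symm.trans h) hne
  · refine ⟨fun h => ?_, fun _ => ?_⟩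
    · exact absurd (h.symm.trans (h2.2 ho)) hne
    · obtain ⟨a, rfl⟩ := ho
      exact ⟨a, hb⟩

/-- The conditions at one prime. -/
theorem at_one (d : Dat s x y f c) (hev : Even d.R.card) (h4 : 4 ≤ d.R.card) {v : Pr k} {p ff : ℕ}
    (hv : (p : 𝓞 k) ∈ v.asIdeal) (hff : nm v = p ^ ff) (Lc : Loc d (OV v) p ff)
    (hG : Good (OV v) f) (ι : L →ₐ[k] kbar k K)
    (hun : ∀ P : Pr L, (p : 𝓞 L) ∈ P.asIdeal → P.valuation L (p : L) = exp (-1 : ℤ))
    {D : L → L → L}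
    (hD : ∀ θ ∈ f.rootSet L, ∀ θ' ∈ f.rootSet L, ι (D θ θ') = d.δ (ι θ) (ι θ') ^ 2) :
    ∃ (P : Pr L) (α : 𝓞 k), P.asIdeal.comap (algebraMap (𝓞 k) (𝓞 L)) = v.asIdeal ∧
      At f c D p v P α := by
  obtain ⟨P, hPv, hP⟩ := exists_below v Lc.hpp hv ι Lc.Q Lc.hA
  have hpP : (p : 𝓞 L) ∈ P.asIdeal := by
    have h1 : (p : 𝓞 k) ∈ P.asIdeal.comap (algebraMap (𝓞 k) (𝓞 L)) := by rw [hPv]; exact hv
    rw [Ideal.mem_comap, map_natCast] at h1
    exact h1
  have hunP := hun P hpP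
  have hrel := val_rel v ι Lc.Q hP
  obtain ⟨τ, π, hτ, hπ, hτπ⟩ := Lc.exists_tau
  have hroot : ∀ θ ∈ f.rootSet L, ι θ ∈ d.R := by
    intro θ hθ
    rw [d.hR]
    have h1 : aeval θ f = 0 := aeval_eq_zero_of_mem_rootSet hθ
    rw [aeval_algHom_apply, h1, map_zero]
  have hmain := fun θ hθ θ' hθ' => ev_or_od d Lc ι hP hunP hτ hπ hτπ (hroot θ hθ) (hroot θ' hθ')
    (hD θ hθ θ' hθ')
  by_cases hc : Ev v p c
  · -- the valuation of `c` is even
    obtain ⟨a, ha⟩ := hc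
    have hnod : ¬ Od v p c := by
      rintro ⟨b, hb⟩
      have hvp : v.valuation k (p : k) ≠ 0 :=
        (Valuation.ne_zero_iff _).2 (by exact_mod_cast Lc.hpp.ne_zero)
      rw [map_mul, map_zpow₀] at ha hb
      have hc0 : v.valuation k c ≠ 0 := by
        intro h0
        rw [h0, zero_mul] at ha
        exact zero_ne_one ha
      have h1 : v.valuation k (p : k) ^ (2 * a) = v.valuation k (p : k) ^ (2 * b + 1) :=
        mul_left_cancel₀ hc0 (ha.trans hb.symm)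
      have h2 : v.valuation k (p : k) ^ (2 * a - (2 * b + 1)) = 1 := by
        rw [zpow_sub₀ hvp, h1, div_self (zpow_ne_zero _ hvp)]
      have hlt : v.valuation k (p : k) < 1 := by
        have h3 := (val_int_lt v (p : 𝓞 k)).2 hv
        have h4 : (algebraMap (𝓞 k) k) (p : 𝓞 k) = (p : k) := map_natCast _ _
        rw [← h4]
        exact h3
      have := zpow_eq_one_of_lt hvp hlt h2
      omega
    refine ⟨P, 0, hPv, fun h => absurd h hnod, fun _ θ hθ θ' hθ' _ => ?_, fun h => absurd h hnod,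
      fun h => absurd h hnod, fun h => absurd h hnod⟩
    exact (hmain θ hθ θ' hθ').1 (good_step d Lc hev ((OV_eq v _).2 ha) hτ hπ hτπ (hroot θ hθ)
      (hroot θ' hθ'))
  by_cases hc' : Od v p c
  swap
  · exact ⟨P, 0, hPv, fun h => absurd h hc', fun h => absurd h hc, fun h => absurd h hc',
      fun h => absurd h hc', fun h => absurd h hc'⟩
  obtain ⟨a, ha⟩ := hc'
  obtain ⟨r₀, hr₀, hfix, hb1, hb2, hb3⟩ := bad_step d Lc hev h4 ((OV_eq v _).2 ha) hτ hπ hτπ
  -- the residue of `r₀`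
  obtain ⟨rb, hrb⟩ : ∃ rb : integralClosure (OV v) (kbar k K), (rb : kbar k K) = r₀ :=
    ⟨⟨r₀, Lc.hint r₀ hr₀⟩, rfl⟩
  obtain ⟨c₀, hc₀⟩ := HP.exists_residue_of_fixed Lc.Q Lc.hA rb (fun γ hγ => by
    rw [hrb]; exact hfix γ hγ)
  obtain ⟨α, hα⟩ := exists_int_sub v ((OV_mem v _).1 c₀.2)
  obtain ⟨A, hAdef⟩ : ∃ A : kbar k K, A = algebraMap k (kbar k K) (α : k) := ⟨_, rfl⟩
  have hA0 : ι (algebraMap k L (α : k)) = A := by rw [ι.commutes, hAdef]
  have hAr : (locW Lc.Q).valuation (A - r₀) < 1 := by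
    have h1 : (locW Lc.Q).valuation (algebraMap k (kbar k K) ((α : k) - c₀)) < 1 :=
      locW_algebraMap_lt Lc.Q Lc.hA ((OV_lt v _).2 hα)
    have h2 := (val_coe_lt_one_iff Lc.Q _).2 hc₀
    have h3 : A - r₀ = algebraMap k (kbar k K) ((α : k) - c₀) +
        -((rb - algebraMap (OV v) (integralClosure (OV v) (kbar k K)) c₀ :
          integralClosure (OV v) (kbar k K)) : kbar k K) := by
      have h4 : ((rb - algebraMap (OV v) (integralClosure (OV v) (kbar k K)) c₀ :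
          integralClosure (OV v) (kbar k K)) : kbar k K) =
          r₀ - algebraMap k (kbar k K) (c₀ : k) := by
        rw [← hrb]
        rfl
      rw [h4, map_sub, hAdef]
      ring
    rw [h3]
    refine Valuation.map_add_lt _ h1 ?_
    rw [Valuation.map_neg]
    exact h2
  have hAle : (locW Lc.Q).valuation A ≤ 1 := by
    rw [hAdef]
    exact locW_algebraMap_le (((OV v).valuation_le_one_iff _).2 (val_int v α))
  have hrle : ∀ r ∈ d.R, (locW Lc.Q).valuation r ≤ 1 := fun r hr =>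
    coeB_le Lc.Q ⟨r, Lc.hint r hr⟩
  have hsub : ∀ θ : L, ι (algebraMap k L (α : k) - θ) = A - ι θ := fun θ => by
    rw [map_sub, hA0]
  have hne : ∀ θ : L, P.valuation L (algebraMap k L (α : k) - θ) = 1 → r₀ ≠ ι θ := by
    intro θ h1 h2
    have h3 := (hrel _).2.1 h1
    rw [hsub, ← h2] at h3
    exact hAr.ne h3
  have heq : ∀ θ ∈ f.rootSet L, P.valuation L (algebraMap k L (α : k) - θ) < 1 → r₀ = ι θ := by
    intro θ hθ h1
    by_contra h2
    have h3 := (hrel _).1.1 h1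
    rw [hsub] at h3
    have h4 := Lc.hQ1 r₀ hr₀ (ι θ) (hroot θ hθ) h2
    have h5 : (locW Lc.Q).valuation (r₀ - ι θ) < 1 := by
      have h6 : r₀ - ι θ = (A - ι θ) + -(A - r₀) := by ring
      rw [h6]
      refine Valuation.map_add_lt _ h3 ?_
      rw [Valuation.map_neg]
      exact hAr
    exact h5.ne h4
  refine ⟨P, α, hPv, fun _ => ?_, fun h => absurd h hc, ?_, ?_, ?_⟩
  · -- `α` is a root of `f` modulo `v`
    obtain ⟨fO, aO, bO, hfO, -⟩ := hG.bez
    obtain ⟨αO, hαO⟩ : ∃ αO : OV v, (αO : k) = (α : k) := ⟨⟨(α : k), val_int v α⟩, rfl⟩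
    have h1 : ((fO.eval αO : OV v) : k) = f.eval (algebraMap (𝓞 k) k α) := by
      rw [← hfO, eval_map]
      have h2 : algebraMap (𝓞 k) k α = algebraMap (OV v) k αO := hαO.symm
      rw [h2, eval₂_at_apply]
      rfl
    rw [← h1, ← OV_lt, ← Lc.hA]
    -- in the integral closure
    have h2 : algebraMap (OV v) (integralClosure (OV v) (kbar k K)) αO - rb ∈ Lc.Q := by
      refine (val_coe_lt_one_iff Lc.Q _).1 ?_
      have h3 : ((algebraMap (OV v) (integralClosure (OV v) (kbar k K)) αO - rb :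
          integralClosure (OV v) (kbar k K)) : kbar k K) = A - r₀ := by
        rw [← hrb, hAdef, ← hαO]
        rfl
      rw [h3]
      exact hAr
    obtain ⟨fB, hfB⟩ : ∃ fB : (integralClosure (OV v) (kbar k K))[X],
      fB = fO.map (algebraMap (OV v) (integralClosure (OV v) (kbar k K))) := ⟨_, rfl⟩
    have h3 := fB.sub_dvd_eval_sub (algebraMap (OV v) (integralClosure (OV v) (kbar k K)) αO) rb
    have h4 : fB.eval rb = 0 := by
      rw [hfB, eval_map, ← aeval_def]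
      apply Subtype.ext
      have h5 : ((aeval rb fO : integralClosure (OV v) (kbar k K)) : kbar k K) =
          aeval (rb : kbar k K) fO := (aeval_algebraMap_apply (kbar k K) rb fO).symm
      rw [h5, hrb]
      have h6 := (d.hR r₀).1 hr₀
      rw [← hfO, aeval_map_algebraMap] at h6
      exact h6
    have h5 : fB.eval (algebraMap (OV v) (integralClosure (OV v) (kbar k K)) αO) =
        algebraMap (OV v) (integralClosure (OV v) (kbar k K)) (fO.eval αO) := by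
      rw [hfB, eval_map, eval₂_at_apply]
    rw [h4, sub_zero, h5] at h3
    exact Ideal.mem_of_dvd _ h3 h2
  · intro _ θ hθ θ' hθ' hθθ h1 h2
    exact (hmain θ hθ θ' hθ').1 (hb1 _ (hroot θ hθ) _ (hroot θ' hθ') (fun h => hθθ (ι.injective h))
      (hne θ h1) (hne θ' h2))
  · intro _ θ hθ θ' hθ' hθθ h1
    refine (hmain θ hθ θ' hθ').2 (hb2 _ (hroot θ hθ) _ (hroot θ' hθ')
      (fun h => hθθ (ι.injective h)) ?_)
    rcases h1 with h1 | h1
    · exact Or.inl (heq θ hθ h1)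
    · exact Or.inr (heq θ' hθ' h1)
  · intro _ θ hθ θ' hθ' hθθ h1 h2 N dd hN hd h3 h4 b hb
    have hN' : N = p ^ ff := by rw [hN, ← hff]; rfl
    have hfr := frob_pow Lc.hfr dd
    rw [← hN'] at hfr
    have hγfix : ∀ θ ∈ f.rootSet L, P.valuation L (θ ^ N ^ dd - θ) < 1 →
        (Lc.γ ^ dd) (ι θ) = ι θ := by
      intro θ hθ h5
      by_contra h6
      have h7 := Lc.hQ1 _ (d.gR (Lc.γ ^ dd) (hroot θ hθ)) _ (hroot θ hθ) h6
      have h8 := (hfr (ι θ) (hrle _ (hroot θ hθ))).2.2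
      have h9 := (hrel _).1.1 h5
      rw [map_sub, map_pow] at h9
      have h10 : (Lc.γ ^ dd) (ι θ) - ι θ = ((Lc.γ ^ dd) (ι θ) - ι θ ^ N ^ dd) +
        (ι θ ^ N ^ dd - ι θ) := by ring
      rw [h10] at h7
      exact (Valuation.map_add_lt _ h8 h9).ne h7
    have hg1 := hγfix θ hθ h3
    have hg2 := hγfix θ' hθ' h4
    obtain ⟨ρ, hρ⟩ := IsAlgClosed.exists_pow_nat_eq ((r₀ - ι θ) * (r₀ - ι θ')) two_pos
    obtain ⟨U, hU⟩ : ∃ U : kbar k K, U = d.δ (ι θ) (ι θ') * ρ * (p : kbar k K) ^ b := ⟨_, rfl⟩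
    have hUγ : (Lc.γ ^ dd) U = U := by
      have h5 := hb3 _ (hroot θ hθ) _ (hroot θ' hθ') (fun h => hθθ (ι.injective h))
        (hne θ h1) (hne θ' h2) (Lc.γ ^ dd) (Lc.hγ.pow dd) hg1 hg2 (d.δ (ι θ) (ι θ') * ρ)
        (by rw [mul_pow, hρ])
      rw [hU, map_mul, h5, map_zpow₀, map_natCast]
    obtain ⟨V₀, hV₀⟩ : ∃ V₀ : kbar k K, V₀ = U ^ 2 := ⟨_, rfl⟩
    have hp0 : (p : kbar k K) ≠ 0 := by
      have := Lc.hpp.ne_zero
      exact_mod_cast this
    have hV₀' : V₀ = (d.δ (ι θ) (ι θ') ^ 2 * (p : kbar k K) ^ (2 * b)) *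
        ((r₀ - ι θ) * (r₀ - ι θ')) := by
      rw [hV₀, hU, mul_pow, mul_pow, hρ, ← zpow_natCast ((p : kbar k K) ^ b), ← zpow_mul]
      have h5 : b * ((2 : ℕ) : ℤ) = 2 * b := by push_cast; ring
      rw [h5]
      ring
    have hDb : (locW Lc.Q).valuation (d.δ (ι θ) (ι θ') ^ 2 * (p : kbar k K) ^ (2 * b)) = 1 := by
      have h5 := (hrel _).2.1 hb
      rw [map_mul, map_zpow₀, map_natCast, hD θ hθ θ' hθ'] at h5
      exact h5
    have hV₀1 : (locW Lc.Q).valuation V₀ = 1 := by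
      rw [hV₀', map_mul, hDb, one_mul, map_mul,
        Lc.hQ1 r₀ hr₀ _ (hroot θ hθ) (hne θ h1), Lc.hQ1 r₀ hr₀ _ (hroot θ' hθ') (hne θ' h2), one_mul]
    have hU1 : (locW Lc.Q).valuation U = 1 := by
      rw [hV₀, map_pow] at hV₀1
      exact (pow_eq_one_iff_of_nonneg zero_le two_ne_zero).1 hV₀1
    have hU0 : U ≠ 0 := by
      rintro rfl
      rw [map_zero] at hU1
      exact zero_ne_one hU1
    have hNpos : 0 < N ^ dd := by
      rw [hN']
      exact pow_pos (pow_pos Lc.hpp.pos _) _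
    have hNodd : Odd (N ^ dd) := by
      rw [hN']
      refine Odd.pow (Odd.pow ?_)
      exact Nat.Coprime.odd_of_left Lc.hp2
    have hcg1 : Cg (locW Lc.Q).valuation (U ^ (N ^ dd - 1)) 1 := by
      have h5 := hfr U hU1.le
      rw [hUγ] at h5
      have h6 := h5.mul (Cg.refl (v := (locW Lc.Q).valuation) (x := U⁻¹)
        (by rw [map_inv₀, hU1, inv_one]))
      rw [mul_inv_cancel₀ hU0] at h6
      have h7 : U ^ N ^ dd * U⁻¹ = U ^ (N ^ dd - 1) := by
        conv_lhs => rw [← Nat.sub_add_cancel (Nat.succ_le_of_lt hNpos)]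
        rw [pow_succ, mul_assoc, mul_inv_cancel₀ hU0, mul_one]
      rw [h7] at h6
      exact h6.symm
    have hcg2 : Cg (locW Lc.Q).valuation (V₀ ^ ((N ^ dd - 1) / 2)) 1 := by
      rw [hV₀, ← pow_mul]
      have h5 : 2 * ((N ^ dd - 1) / 2) = N ^ dd - 1 := by
        obtain ⟨u, hu⟩ := hNodd
        rw [hu]
        omega
      rw [h5]
      exact hcg1
    have hcg3 : ∀ θ ∈ f.rootSet L, Cg (locW Lc.Q).valuation (A - ι θ) (r₀ - ι θ) := by
      intro θ hθ
      refine ⟨(Valuation.map_sub _ _ _).trans (max_le hAle (hrle _ (hroot θ hθ))),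
        (Valuation.map_sub _ _ _).trans (max_le (hrle _ hr₀) (hrle _ (hroot θ hθ))), ?_⟩
      have h5 : A - ι θ - (r₀ - ι θ) = A - r₀ := by ring
      rw [h5]
      exact hAr
    have hcg4 : Cg (locW Lc.Q).valuation (ι (D θ θ' * (p : L) ^ (2 * b) *
        ((algebraMap k L (α : k) - θ) * (algebraMap k L (α : k) - θ')))) V₀ := by
      have h5 : ι (D θ θ' * (p : L) ^ (2 * b) *
        ((algebraMap k L (α : k) - θ) * (algebraMap k L (α : k) - θ'))) =
        (d.δ (ι θ) (ι θ') ^ 2 * (p : kbar k K) ^ (2 * b)) * ((A - ι θ) * (A - ι θ')) := by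
        rw [map_mul, map_mul, map_mul, hsub, hsub, map_zpow₀, map_natCast, hD θ hθ θ' hθ']
      rw [h5, hV₀']
      exact (Cg.refl hDb.le).mul ((hcg3 θ hθ).mul (hcg3 θ' hθ'))
    have hcg5 := (hcg4.pow ((N ^ dd - 1) / 2)).trans hcg2
    have h6 := hcg5.2.2
    rw [← map_pow, ← map_one ι, ← map_sub] at h6
    exact (hrel _).1.2 h6

end

end Pool.Agent.HG
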