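import Pool.Agent.Helper45.HG.NF

/-!
# The prime of a number field below a place of the algebraic closure
-/

set_option autoImplicit false
set_option linter.unusedSectionVars false

namespace Pool.Agent.HG

open Polynomial NumberField IsDedekindDomain WithZero Pool.Agent.Helper91.Sect

section

variable {k L C : Type} [Field k] [NumberField k] [Field L] [NumberField L] [Algebra k L]
  [Field C] [Algebra k C]

theorem integral_ι (v : Pr k) (ι : L →ₐ[k] C) (z : 𝓞 L) : IsIntegral (OV v) (ι (z : L)) := by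
  have h1 : IsIntegral ℤ (z : L) := z.2
  have h2 : IsIntegral ℤ (ι (z : L)) := h1.map (ι.toRingHom.toIntAlgHom)
  exact h2.tower_top

/-- the ring homomorphism -/
noncomputable def jj (v : Pr k) (ι : L →ₐ[k] C) : 𝓞 L →+* integralClosure (OV v) C where
  toFun z := ⟨ι (z : L), integral_ι v ι z⟩
  map_one' := Subtype.ext (by simp)
  map_mul' a b := Subtype.ext (by simp)
  map_zero' := Subtype.ext (by simp)
  map_add' a b := Subtype.ext (by simp)

theorem jj_coe (v : Pr k) (ι : L →ₐ[k] C) (z : 𝓞 L) : ((jj v ι z : integralClosure (OV v) C) : C) =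
    ι (z : L) := rfl

theorem exists_below (v : Pr k) {p : ℕ} (hp : p.Prime) (hv : (p : 𝓞 k) ∈ v.asIdeal) (ι : L →ₐ[k] C)
    (Q : Ideal (integralClosure (OV v) C)) [hQ : Q.IsPrime] (hA : Above Q) :
    ∃ P : Pr L, P.asIdeal.comap (algebraMap (𝓞 k) (𝓞 L)) = v.asIdeal ∧
      ∀ z : 𝓞 L, z ∈ P.asIdeal ↔ jj v ι z ∈ Q := by
  have hk : ∀ z : 𝓞 k, jj v ι (algebraMap (𝓞 k) (𝓞 L) z) ∈ Q ↔ z ∈ v.asIdeal := by
    intro z
    have h1 : jj v ι (algebraMap (𝓞 k) (𝓞 L) z) =
        algebraMap (OV v) (integralClosure (OV v) C) ⟨(z : k), val_int v z⟩ := by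
      apply Subtype.ext
      rw [jj_coe]
      have h2 : ((algebraMap (𝓞 k) (𝓞 L) z : 𝓞 L) : L) = algebraMap k L (z : k) := rfl
      rw [h2, ι.commutes]
      rfl
    rw [h1, hA, OV_lt]
    exact val_int_lt v z
  refine ⟨⟨Q.comap (jj v ι), Ideal.comap_isPrime _ _, ?_⟩, ?_, fun z => Iff.rfl⟩
  · intro h
    have h1 : (p : 𝓞 L) ∈ Q.comap (jj v ι) := by
      rw [Ideal.mem_comap]
      have h2 := (hk (p : 𝓞 k)).2 hv
      rwa [map_natCast (algebraMap (𝓞 k) (𝓞 L))] at h2
    rw [h, Ideal.mem_bot] at h1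
    have h3 := hp.ne_zero
    exact h3 (by exact_mod_cast h1)
  · ext z
    rw [Ideal.mem_comap, Ideal.mem_comap]
    exact hk z

variable [IsGalois k C]

/-- the valuations correspond -/
theorem val_rel (v : Pr k) (ι : L →ₐ[k] C) (Q : Ideal (integralClosure (OV v) C)) [hQ : Q.IsPrime]
    {P : Pr L} (hP : ∀ z : 𝓞 L, z ∈ P.asIdeal ↔ jj v ι z ∈ Q) (z : L) :
    (P.valuation L z < 1 ↔ (locW Q).valuation (ι z) < 1) ∧
      (P.valuation L z = 1 ↔ (locW Q).valuation (ι z) = 1) := by
  have hint : ∀ b : 𝓞 L, b ∉ P.asIdeal → (locW Q).valuation (ι (b : L)) = 1 := by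
    intro b hb
    rw [← jj_coe v]
    refine le_antisymm (coeB_le Q _) ?_
    by_contra hlt
    rw [not_le, val_coe_lt_one_iff Q, ← hP] at hlt
    exact hb hlt
  have hint' : ∀ b : 𝓞 L, b ∈ P.asIdeal → (locW Q).valuation (ι (b : L)) < 1 := by
    intro b hb
    rw [← jj_coe v, val_coe_lt_one_iff Q, ← hP]
    exact hb
  have key1 : ∀ z : L, P.valuation L z = 1 → (locW Q).valuation (ι z) = 1 := by
    intro z hz
    obtain ⟨a, b, hb, hab⟩ := exists_frac P hz.le
    have ha : a ∉ P.asIdeal := by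
      rw [← val_int_one P a, ← hab, map_mul, hz, one_mul]
      exact (val_int_one P b).2 hb
    have h1 := congrArg (fun t => (locW Q).valuation (ι t)) hab
    simp only [map_mul] at h1
    rw [hint b hb, hint a ha, mul_one] at h1
    exact h1
  have key2 : ∀ z : L, P.valuation L z < 1 → (locW Q).valuation (ι z) < 1 := by
    intro z hz
    obtain ⟨a, b, hb, hab⟩ := exists_frac P hz.le
    have ha : a ∈ P.asIdeal := by
      rw [← val_int_lt P a, ← hab, map_mul, (val_int_one P b).2 hb, mul_one]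
      exact hz
    have h1 := congrArg (fun t => (locW Q).valuation (ι t)) hab
    simp only [map_mul] at h1
    rw [hint b hb, mul_one] at h1
    rw [h1]
    exact hint' a ha
  have key3 : ∀ z : L, 1 < P.valuation L z → 1 < (locW Q).valuation (ι z) := by
    intro z hz
    have hz0 : z ≠ 0 := by
      rintro rfl
      rw [map_zero] at hz
      exact absurd hz (not_lt.2 zero_le)
    have h1 : P.valuation L z⁻¹ < 1 := by
      rw [map_inv₀]
      exact inv_lt_one_of_one_lt₀ hz
    have h2 := key2 _ h1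
    rw [map_inv₀, map_inv₀] at h2
    have h3 : (locW Q).valuation (ι z) ≠ 0 :=
      (Valuation.ne_zero_iff _).2 ((_root_.map_ne_zero ι).2 hz0)
    rwa [inv_lt_one₀ (zero_lt_iff.2 h3)] at h2
  constructor
  · constructor
    · exact key2 z
    · intro h
      rcases lt_trichotomy (P.valuation L z) 1 with h1 | h1 | h1
      · exact h1
      · exact absurd (key1 z h1) h.ne
      · exact absurd (key3 z h1) (not_lt.2 h.le)
  · constructor
    · exact key1 z
    · intro h
      rcases lt_trichotomy (P.valuation L z) 1 with h1 | h1 | h1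
      · exact absurd h (key2 z h1).ne
      · exact h1
      · exact absurd h (key3 z h1).ne'

end

end Pool.Agent.HG
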