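import Pool.Agent.Helper45.HG.Twist

/-!
# The global data of a section of a curve over `y² = c f(x)`
-/

set_option autoImplicit false
set_option linter.unusedSectionVars false

universe u

namespace Pool.Agent.HG

open Polynomial Pool.Agent.Helper91.Sect

section

variable {k K : Type u} [Field k] [Field K] [Algebra k K]

/-- The curve. -/
structure Crv (k : Type u) {K : Type u} [Field k] [Field K] [Algebra k K] (x y : K) (f : k[X])
    (c : k) where
  htr : Transcendental k x
  hc : c ≠ 0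
  hf : f ≠ 0
  hxy : algebraMap k K c * y ^ 2 = aeval x f
  R : Finset (kbar k K)
  hR : ∀ r, r ∈ R ↔ aeval r f = 0
  hprod : f.map (algebraMap k (kbar k K)) =
    C (algebraMap k (kbar k K) f.leadingCoeff) * ∏ r ∈ R, (X - C r)
  v : kbar k K → AlgebraicClosure K
  hv : ∀ r : kbar k K, v r ^ 2 = algebraMap K (AlgebraicClosure K) x - (r : AlgebraicClosure K)

/-- The section. -/
structure Dat (s : GaloisSection k K) (x y : K) (f : k[X]) (c : k) extends Crv k x y f c where
  W : kbar k K → kbar k K → Kur k K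
  hW : ∀ r ∈ R, ∀ r' ∈ R, (W r r' : AlgebraicClosure K) = v r * v r'
  δ : kbar k K → kbar k K → kbar k K
  hδ0 : ∀ r ∈ R, ∀ r' ∈ R, δ r r' ≠ 0
  hδ : ∀ g : Gk k K, ∀ r ∈ R, ∀ r' ∈ R, s.toHom g (toKur k K (δ r r') * W r r') =
    toKur k K (δ (g r) (g r')) * W (g r) (g r')

variable {x y : K} {f : k[X]} {c : k}

theorem Crv.gR (d : Crv k x y f c) (g : Gk k K) {r : kbar k K} (hr : r ∈ d.R) : g r ∈ d.R := by
  rw [d.hR] at hr ⊢
  have h2 := aeval_algHom_apply g.toAlgHom r f
  rw [hr, map_zero] at h2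
  exact h2

theorem Crv.heq (d : Crv k x y f c) :
    ((algebraMap k (kbar k K) c : kbar k K) : AlgebraicClosure K) *
      (algebraMap K (AlgebraicClosure K) y) ^ 2 =
    ((algebraMap k (kbar k K) f.leadingCoeff : kbar k K) : AlgebraicClosure K) *
      ∏ r ∈ d.R, (algebraMap K (AlgebraicClosure K) x - (r : AlgebraicClosure K)) := by
  classical
  have h0 := congrArg (algebraMap K (AlgebraicClosure K)) d.hxy
  rw [map_mul, map_pow, ← aeval_algebraMap_apply] at h0
  have h3 := congrArg (Polynomial.map (algebraMap (kbar k K) (AlgebraicClosure K))) d.hprod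
  rw [Polynomial.map_map, Polynomial.map_mul, map_C, Polynomial.map_prod] at h3
  have h4 := congrArg (eval (algebraMap K (AlgebraicClosure K) x)) h3
  rw [eval_map, eval_mul, eval_C, eval_prod] at h4
  rw [aeval_def] at h0
  have h5 : ∀ r : kbar k K, eval (algebraMap K (AlgebraicClosure K) x)
      (((X : (kbar k K)[X]) - C r).map (algebraMap (kbar k K) (AlgebraicClosure K))) =
      algebraMap K (AlgebraicClosure K) x - (r : AlgebraicClosure K) := by
    intro r
    rw [Polynomial.map_sub, map_X, map_C, eval_sub, eval_X, eval_C]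
    rfl
  rw [Finset.prod_congr rfl fun r _ => h5 r] at h4
  have h6 : ((algebraMap k (kbar k K) c : kbar k K) : AlgebraicClosure K) =
      algebraMap K (AlgebraicClosure K) (algebraMap k K c) :=
    (IsScalarTower.algebraMap_apply k K (AlgebraicClosure K) c).symm ▸ rfl
  rw [h6, h0]
  exact h4

theorem Crv.hv0 (d : Crv k x y f c) (r : kbar k K) : d.v r ≠ 0 := by
  intro h0
  have hX₀tr : Transcendental k (algebraMap K (AlgebraicClosure K) x) := by
    intro h
    exact d.htr ((isAlgebraic_algebraMap_iff (algebraMap K (AlgebraicClosure K)).injective).1 h)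
  apply hX₀tr
  have h1 := d.hv r
  rw [h0, zero_pow two_ne_zero, eq_comm, sub_eq_zero] at h1
  rw [h1]
  exact (mem_algebraicClosure_iff).1 r.2

theorem Crv.lc0 (d : Crv k x y f c) : f.leadingCoeff ≠ 0 := leadingCoeff_ne_zero.2 d.hf

theorem Crv.a0_ne (d : Crv k x y f c) : algebraMap k (kbar k K) f.leadingCoeff ≠ 0 :=
  (_root_.map_ne_zero _).2 d.lc0

theorem Crv.c_ne (d : Crv k x y f c) : algebraMap k (kbar k K) c ≠ 0 := (_root_.map_ne_zero _).2 d.hc

variable [CharZero k]

theorem W_sq (d : Crv k x y f c) {W : Kur k K} {r r' : kbar k K}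
    (hW : (W : AlgebraicClosure K) = d.v r * d.v r') :
    W ^ 2 = (algebraMap K (Kur k K) x - toKur k K r) * (algebraMap K (Kur k K) x - toKur k K r') := by
  apply Subtype.ext
  change (W : AlgebraicClosure K) ^ 2 = (algebraMap K (AlgebraicClosure K) x - (r : AlgebraicClosure K)) *
    (algebraMap K (AlgebraicClosure K) x - (r' : AlgebraicClosure K))
  rw [hW, mul_pow, d.hv, d.hv]

theorem exists_dat (s : GaloisSection k K) (d : Crv k x y f c) :
    ∃ D : Dat s x y f c, D.toCrv = d := by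
  classical
  have hWK : ∀ r ∈ d.R, ∀ r' ∈ d.R, d.v r * d.v r' ∈ Kur k K := fun r hr r' hr' =>
    prod_mem_Kur d.a0_ne d.c_ne d.heq d.hv hr hr'
  obtain ⟨W, hW⟩ : ∃ W : kbar k K → kbar k K → Kur k K,
      ∀ r ∈ d.R, ∀ r' ∈ d.R, (W r r' : AlgebraicClosure K) = d.v r * d.v r' :=
    ⟨fun r r' => if h : d.v r * d.v r' ∈ Kur k K then ⟨_, h⟩ else 0, fun r hr r' hr' => by
      simp only [dif_pos (hWK r hr r' hr')]⟩
  have hW0 : ∀ r ∈ d.R, ∀ r' ∈ d.R, W r r' ≠ 0 := by
    intro r hr r' hr' h0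
    have h1 : (W r r' : AlgebraicClosure K) = 0 := by rw [h0]; rfl
    rw [hW r hr r' hr'] at h1
    exact mul_ne_zero (d.hv0 _) (d.hv0 _) h1
  have hWs : ∀ g : Gk k K, ∀ r ∈ d.R, ∀ r' ∈ d.R,
      s.toHom g (W r r') = W (g r) (g r') ∨ s.toHom g (W r r') = -W (g r) (g r') := by
    intro g r hr r' hr'
    refine sq_eq_sq_iff_eq_or_eq_neg.1 ?_
    rw [← map_pow, W_sq d (hW r hr r' hr'), W_sq d (hW _ (d.gR g hr) _ (d.gR g hr')), map_mul,
      map_sub, map_sub, section_toKur, section_toKur, AlgEquiv.commutes]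
  obtain ⟨δ, hδ0, hδ⟩ := exists_family s (fun g r hr => d.gR g hr) hW0 hWs
  exact ⟨{ toCrv := d, W := W, hW := hW, δ := δ, hδ0 := hδ0, hδ := hδ }, rfl⟩

variable {s : GaloisSection k K}

theorem Dat.W_ne (d : Dat s x y f c) {r r' : kbar k K} (hr : r ∈ d.R) (hr' : r' ∈ d.R) :
    d.W r r' ≠ 0 := by
  intro h0
  have h1 : (d.W r r' : AlgebraicClosure K) = 0 := by rw [h0]; rfl
  rw [d.hW r hr r' hr'] at h1
  exact mul_ne_zero (d.hv0 _) (d.hv0 _) h1

/-- The squares of the constants are permuted exactly. -/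
theorem Dat.sq_equiv (d : Dat s x y f c) (g : Gk k K) {r r' : kbar k K} (hr : r ∈ d.R)
    (hr' : r' ∈ d.R) : g (d.δ r r' ^ 2) = d.δ (g r) (g r') ^ 2 := by
  have h1 : (s.toHom g (toKur k K (d.δ r r') * d.W r r')) ^ 2 =
      (toKur k K (d.δ (g r) (g r')) * d.W (g r) (g r')) ^ 2 := by rw [d.hδ g r hr r' hr']
  rw [← map_pow, mul_pow, mul_pow, W_sq d.toCrv (d.hW r hr r' hr'),
    W_sq d.toCrv (d.hW _ (d.gR g hr) _ (d.gR g hr')), map_mul, map_mul (s.toHom g), map_sub, map_sub,
    section_toKur, section_toKur, AlgEquiv.commutes, map_pow, section_toKur] at h1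
  have h2 : (algebraMap K (Kur k K) x - toKur k K (g r)) *
      (algebraMap K (Kur k K) x - toKur k K (g r')) ≠ 0 := by
    rw [← W_sq d.toCrv (d.hW _ (d.gR g hr) _ (d.gR g hr'))]
    exact pow_ne_zero 2 (d.W_ne (d.gR g hr) (d.gR g hr'))
  have h3 := mul_right_cancel₀ h2 h1
  apply (toKur k K).injective
  rw [map_pow, map_pow, map_pow]
  exact h3

/-- If `g` fixes the roots and acts on `W` by a sign then it acts on `δ` by the same sign. -/
theorem Dat.act_δ (d : Dat s x y f c) {g : Gk k K} {r r' : kbar k K} (hr : r ∈ d.R)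
    (hr' : r' ∈ d.R) (h1 : g r = r) (h2 : g r' = r') {e : ℤˣ}
    (h : s.toHom g (d.W r r') = ((e : ℤ) : Kur k K) * d.W r r') :
    g (d.δ r r') = ((e : ℤ) : kbar k K) * d.δ r r' := by
  have h3 := d.hδ g r hr r' hr'
  rw [h1, h2, map_mul, section_toKur, h] at h3
  have h4 : toKur k K (g (d.δ r r')) * ((e : ℤ) : Kur k K) = toKur k K (d.δ r r') := by
    apply mul_right_cancel₀ (d.W_ne hr hr')
    rw [mul_assoc, h3]
  have he : ((e : ℤ) : Kur k K) * ((e : ℤ) : Kur k K) = 1 := by
    rw [← Int.cast_mul, ← Units.val_mul, Int.units_mul_self]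
    simp
  apply (toKur k K).injective
  rw [map_mul, map_intCast]
  calc toKur k K (g (d.δ r r')) =
      toKur k K (g (d.δ r r')) * (((e : ℤ) : Kur k K) * ((e : ℤ) : Kur k K)) := by
        rw [he, mul_one]
    _ = (toKur k K (g (d.δ r r')) * ((e : ℤ) : Kur k K)) * ((e : ℤ) : Kur k K) := by ring
    _ = _ := by rw [h4]; ring

end

end Pool.Agent.HG
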