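import Pool.Agent.Helper45.HG.Loc

/-!
# The signs of the elements of inertia
-/

set_option autoImplicit false
set_option linter.unusedSectionVars false

universe u

namespace Pool.Agent.HG

open Polynomial Pool.Agent.Helper91.Sect

section

variable {k K : Type u} [Field k] [Field K] [Algebra k K] [CharZero k]
  {s : GaloisSection k K} {x y : K} {f : k[X]} {c : k}

/-- The signs of an element of inertia. -/
theorem exists_signs (d : Dat s x y f c) {O : ValuationSubring k} {p ff : ℕ} (L : Loc d O p ff)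
    {τ : Gk k K} (hτ : InI L.Q τ) {ω : kbar k K} (hω : ω ^ 2 = algebraMap k (kbar k K) c) :
    ∃ (ξ : AlgebraicClosure K ≃ₐ[K] AlgebraicClosure K) (ε : kbar k K → ℤˣ),
      (∀ w : Kur k K, ξ w = s.toHom τ w) ∧
      (∀ r ∈ d.R, ξ (d.v r) = (((ε r : ℤˣ) : ℤ) : AlgebraicClosure K) * d.v r) ∧
      (∀ r ∈ d.R, ∀ r' ∈ d.R, s.toHom τ (d.W r r') = (((ε r * ε r' : ℤˣ) : ℤ) : Kur k K) *
        d.W r r') ∧
      (∀ e : ℤˣ, τ ω = ((e : ℤ) : kbar k K) * ω → ∏ r ∈ d.R, ε r = e) := by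
  classical
  have hQ := L.hQ
  have hcz : CharZero (AlgebraicClosure K) :=
    charZero_of_injective_algebraMap (algebraMap k (AlgebraicClosure K)).injective
  obtain ⟨ξ, hξ⟩ := exists_ext s τ
  set X₀ := algebraMap K (AlgebraicClosure K) x with hX₀
  set Y₀ := algebraMap K (AlgebraicClosure K) y with hY₀
  have hξX₀ : ξ X₀ = X₀ := ξ.commutes x
  have hξY₀ : ξ Y₀ = Y₀ := ξ.commutes y
  have hsgn : ∀ r : kbar k K, ∃ e : ℤˣ, r ∈ d.R →
      ξ (d.v r) = (((e : ℤˣ) : ℤ) : AlgebraicClosure K) * d.v r := by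
    intro r
    by_cases hr : r ∈ d.R
    · obtain ⟨e, he⟩ := HP.exists_sign (a := ξ (d.v r)) (b := d.v r) (by
        rw [← map_pow, d.hv, map_sub, hξX₀, ext_const s hξ, L.hIR τ hτ r hr])
      exact ⟨e, fun _ => he⟩
    · exact ⟨1, fun h => absurd h hr⟩
  choose ε hε using hsgn
  refine ⟨ξ, ε, hξ, hε, ?_, ?_⟩
  · intro r hr r' hr'
    apply Subtype.ext
    rw [← hξ]
    rw [d.hW r hr r' hr', map_mul, hε _ hr, hε _ hr']
    change _ = (((((ε r * ε r' : ℤˣ) : ℤ) : Kur k K) :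
      AlgebraicClosure K)) * (d.W r r' : AlgebraicClosure K)
    rw [d.hW r hr r' hr']
    push_cast
    ring
  · intro e he
    obtain ⟨a₀, ha₀⟩ : ∃ a₀ : kbar k K, a₀ = algebraMap k (kbar k K) f.leadingCoeff := ⟨_, rfl⟩
    have ha₀0 : a₀ ≠ 0 := by rw [ha₀]; exact d.a0_ne
    obtain ⟨ℓ, hℓ⟩ := IsAlgClosed.exists_pow_nat_eq a₀ two_pos
    have hτℓ : τ ℓ = ℓ := by
      refine inertia_sqrt L.Q L.hres L.hp2 hτ ?_ ?_
      · have h1 : (locW L.Q).valuation (ℓ ^ 2) = 1 := by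
          rw [hℓ, ha₀]
          exact L.hlc
        rw [map_pow] at h1
        exact (pow_eq_one_iff_of_nonneg zero_le two_ne_zero).1 h1
      · rw [hℓ, ha₀, AlgEquiv.commutes]
    have heq := d.heq
    rw [← ha₀, ← hX₀, ← hY₀] at heq
    set pv := ∏ r ∈ d.R, d.v r with hpv
    have hpv0 : pv ≠ 0 := Finset.prod_ne_zero_iff.2 fun r _ => d.hv0 r
    have hℓ0 : (ℓ : AlgebraicClosure K) ≠ 0 := by
      intro h0
      have h1 : ℓ = 0 := Subtype.ext h0
      rw [h1, zero_pow two_ne_zero] at hℓ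
      exact ha₀0 hℓ.symm
    have h1 : ((ω : AlgebraicClosure K) * Y₀) ^ 2 = ((ℓ : AlgebraicClosure K) * pv) ^ 2 := by
      rw [mul_pow, mul_pow]
      have h3 : (ω : AlgebraicClosure K) ^ 2 =
          ((algebraMap k (kbar k K) c : kbar k K) : AlgebraicClosure K) :=
        congrArg Subtype.val hω
      have h4 : (ℓ : AlgebraicClosure K) ^ 2 = a₀ := congrArg Subtype.val hℓ
      rw [h3, h4, heq, hpv, ← Finset.prod_pow]
      congr 1
      exact Finset.prod_congr rfl fun r _ => (d.hv r).symm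
    have h3 : ξ ((ω : AlgebraicClosure K) * Y₀) = ((e : ℤ) : AlgebraicClosure K) *
        ((ω : AlgebraicClosure K) * Y₀) := by
      rw [map_mul, hξY₀, ext_const s hξ, he]
      have h4 : ((((e : ℤ) : kbar k K) * ω : kbar k K) : AlgebraicClosure K) =
          ((e : ℤ) : AlgebraicClosure K) * (ω : AlgebraicClosure K) := by push_cast; rfl
      rw [h4, mul_assoc]
    have h4 : ξ ((ℓ : AlgebraicClosure K) * pv) =
        (((∏ r ∈ d.R, ε r : ℤˣ) : ℤ) : AlgebraicClosure K) * ((ℓ : AlgebraicClosure K) * pv) := by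
      rw [map_mul, ext_const s hξ, hτℓ, hpv, map_prod, Finset.prod_congr rfl (fun r hr => hε r hr),
        Finset.prod_mul_distrib, Units.coe_prod, Int.cast_prod]
      ring
    have h5 : (((∏ r ∈ d.R, ε r : ℤˣ) : ℤ) : AlgebraicClosure K) *
        ((ℓ : AlgebraicClosure K) * pv) = ((e : ℤ) : AlgebraicClosure K) *
        ((ℓ : AlgebraicClosure K) * pv) := by
      rw [← h4]
      rcases sq_eq_sq_iff_eq_or_eq_neg.1 h1 with h6 | h6
      · rw [← h6, h3]
      · have h7 : (ℓ : AlgebraicClosure K) * pv = -((ω : AlgebraicClosure K) * Y₀) := by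
          rw [h6, neg_neg]
        rw [h7, map_neg, h3]
        ring
    have h6 := mul_right_cancel₀ (mul_ne_zero hℓ0 hpv0) h5
    exact Units.ext (by exact_mod_cast h6)

/-- Inertia acts on square roots by the parity of the valuation. -/
theorem act_sqrt {d : Dat s x y f c} {O : ValuationSubring k} {p ff : ℕ} (L : Loc d O p ff)
    {τ : Gk k K} (hτ : InI L.Q τ) {π w : kbar k K} (hπ : π ^ 2 = (p : kbar k K)) (hτπ : τ π = -π)
    {a : ℤ} (hw : (locW L.Q).valuation (w ^ 2 * (p : kbar k K) ^ a) = 1) (hfix : τ (w ^ 2) = w ^ 2) :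
    (Even a → τ w = w) ∧ (Odd a → τ w = -w) := by
  have hQ := L.hQ
  have hp0 : (p : kbar k K) ≠ 0 := by
    have := L.hpp.ne_zero
    exact_mod_cast this
  have hπ0 : π ≠ 0 := by
    rintro rfl
    rw [zero_pow two_ne_zero] at hπ
    exact hp0 hπ.symm
  have hπa : π ^ a ≠ 0 := zpow_ne_zero a hπ0
  have h1 : (w * π ^ a) ^ 2 = w ^ 2 * (p : kbar k K) ^ a := by
    rw [mul_pow, ← hπ, ← zpow_natCast (π ^ a), ← zpow_natCast π 2, ← zpow_mul, ← zpow_mul, mul_comm a]
  have h2 : τ (w * π ^ a) = w * π ^ a := by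
    refine inertia_sqrt L.Q L.hres L.hp2 hτ ?_ ?_
    · rw [← h1, map_pow] at hw
      exact (pow_eq_one_iff_of_nonneg zero_le two_ne_zero).1 hw
    · rw [h1, map_mul, hfix, map_zpow₀, map_natCast]
  rw [map_mul, map_zpow₀, hτπ] at h2
  constructor
  · intro ha
    rw [ha.neg_zpow] at h2
    exact mul_right_cancel₀ hπa h2
  · intro ha
    rw [ha.neg_zpow] at h2
    have h3 : (-τ w) * π ^ a = w * π ^ a := by rw [← h2]; ring
    have h4 := mul_right_cancel₀ hπa h3
    exact neg_eq_iff_eq_neg.1 h4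

/-- an element of inertia which moves the square root of `p` -/
theorem Loc.exists_tau {d : Dat s x y f c} {O : ValuationSubring k} {p ff : ℕ} (L : Loc d O p ff) :
    ∃ (τ : Gk k K) (π : kbar k K), InI L.Q τ ∧ π ^ 2 = (p : kbar k K) ∧ τ π = -π := by
  have hQ := L.hQ
  obtain ⟨π, hπ⟩ := IsAlgClosed.exists_pow_nat_eq ((p : ℕ) : kbar k K) two_pos
  have hp0 : (p : k) ≠ 0 := by
    have := L.hpp.ne_zero
    exact_mod_cast this
  obtain ⟨τ, hτ, hτπ⟩ := exists_inertia_neg L.Q L.hA (c := (p : k)) (L.hPL.odd hp0) (w := π)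
    (by rw [hπ, map_natCast])
  exact ⟨τ, π, hτ, hπ, hτπ⟩

/-- The sign of inertia on `√c`. -/
theorem Loc.act_c {d : Dat s x y f c} {O : ValuationSubring k} {p ff : ℕ} (L : Loc d O p ff)
    {τ : Gk k K} (hτ : InI L.Q τ) {π ω : kbar k K} (hπ : π ^ 2 = (p : kbar k K)) (hτπ : τ π = -π)
    (hω : ω ^ 2 = algebraMap k (kbar k K) c) {a : ℤ} (ha : O.valuation (c * (p : k) ^ a) = 1) :
    (Even a → τ ω = ω) ∧ (Odd a → τ ω = -ω) := by
  have hQ := L.hQ
  refine act_sqrt L hτ hπ hτπ (a := a) ?_ ?_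
  · have h1 := (locW_algebraMap_eq_one L.Q L.hA).2 ha
    rw [map_mul, map_zpow₀, map_natCast] at h1
    rw [hω]
    exact h1
  · rw [hω, AlgEquiv.commutes]

/-- The places where the valuation of `c` is even. -/
theorem good_step (d : Dat s x y f c) {O : ValuationSubring k} {p ff : ℕ} (L : Loc d O p ff)
    (hev : Even d.R.card) {a : ℤ} (ha : O.valuation (c * (p : k) ^ (2 * a)) = 1) {τ : Gk k K}
    (hτ : InI L.Q τ) {π : kbar k K} (hπ : π ^ 2 = (p : kbar k K)) (hτπ : τ π = -π) {r r' : kbar k K}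
    (hr : r ∈ d.R) (hr' : r' ∈ d.R) : τ (d.δ r r') = d.δ r r' := by
  obtain ⟨ω, hω⟩ := IsAlgClosed.exists_pow_nat_eq (algebraMap k (kbar k K) c) two_pos
  obtain ⟨ξ, ε, hξ, hε, hW, hprod⟩ := exists_signs d L hτ hω
  have h1 := hprod 1 (by
    rw [(L.act_c hτ hπ hτπ hω ha).1 (even_two_mul a)]
    simp)
  have h2 := (L.comb hev hτ hξ hε).1 h1 r hr r' hr'
  have h3 := d.act_δ hr hr' (L.hIR τ hτ r hr) (L.hIR τ hτ r' hr') (hW r hr r' hr')
  rw [h2, Int.units_mul_self] at h3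
  rw [h3]
  simp

end

end Pool.Agent.HG
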