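import Pool.Agent.Helper45.HG.TotA

/-!
# The number of classes modulo squares: counting ideals
-/

set_option autoImplicit false

namespace Pool.Agent.HG

open NumberField IsDedekindDomain Filter Topology Ideal

noncomputable section

section

variable (k : Type) [Field k] [NumberField k]

theorem idl_finite (X : ℕ) : {I : Ideal (𝓞 k) | I ≠ 0 ∧ absNorm I ≤ X}.Finite :=
  (Ideal.finite_setOfPred_absNorm_le X).subset fun _ h => h.2

/-- the nonzero ideals of norm at most `X` -/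
def idl (X : ℕ) : Finset (Ideal (𝓞 k)) := (idl_finite k X).toFinset

variable {k}

theorem mem_idl {X : ℕ} {I : Ideal (𝓞 k)} : I ∈ idl k X ↔ I ≠ 0 ∧ absNorm I ≤ X := by
  rw [idl, Set.Finite.mem_toFinset]
  rfl

theorem absNorm_pos' {I : Ideal (𝓞 k)} (hI : I ≠ 0) : 0 < absNorm I := by
  refine Nat.pos_of_ne_zero ?_
  rw [Ne, absNorm_eq_zero_iff]
  exact hI

theorem idl_mono {X Y : ℕ} (h : X ≤ Y) : idl k X ⊆ idl k Y := by
  intro I hI
  rw [mem_idl] at hI ⊢
  exact ⟨hI.1, hI.2.trans h⟩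

variable (k)

theorem card_idl_le : ∃ C : ℝ, 0 < C ∧ ∀ X : ℕ, ((idl k X).card : ℝ) ≤ C * X := by
  classical
  have h1 := NumberField.Ideal.tendsto_norm_le_div_atTop k
  obtain ⟨κ, hκ⟩ : ∃ κ : ℝ, Tendsto (fun s : ℝ =>
    (Nat.card {I : Ideal (𝓞 k) // absNorm I ≤ s} : ℝ) / s) atTop (𝓝 κ) := ⟨_, h1⟩
  have h2 := hκ.comp tendsto_natCast_atTop_atTop
  have h3 := h2.eventually (gt_mem_nhds (lt_add_one κ))
  obtain ⟨N₀, hN₀⟩ := eventually_atTop.1 h3
  have hle : ∀ X : ℕ, N₀ ≤ X → 0 < X → ((idl k X).card : ℝ) ≤ (κ + 1) * X := by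
    intro X hX hX0
    have h4 := (hN₀ X hX).le
    simp only [Function.comp_apply] at h4
    have hX' : (0 : ℝ) < X := by exact_mod_cast hX0
    rw [div_le_iff₀ hX'] at h4
    refine le_trans ?_ h4
    have hfin : Finite {I : Ideal (𝓞 k) // (absNorm I : ℝ) ≤ (X : ℝ)} := by
      refine ((Ideal.finite_setOfPred_absNorm_le (S := 𝓞 k) X).subset fun I hI => ?_)
      have h5 : (absNorm I : ℝ) ≤ (X : ℝ) := hI
      exact_mod_cast h5
    have h6 : (idl k X).card ≤ Nat.card {I : Ideal (𝓞 k) // (absNorm I : ℝ) ≤ (X : ℝ)} := by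
      have h7 : (idl k X).card = Nat.card {I // I ∈ idl k X} := by
        rw [Nat.card_eq_fintype_card, Fintype.card_coe]
      rw [h7]
      refine Nat.card_le_card_of_injective
        (fun I : {I : Ideal (𝓞 k) // I ∈ idl k X} =>
          (⟨I.1, by exact_mod_cast (mem_idl.1 I.2).2⟩ :
            {I : Ideal (𝓞 k) // (absNorm I : ℝ) ≤ (X : ℝ)})) ?_
      intro I I' h
      have h8 : (I : Ideal (𝓞 k)) = I' := congrArg (fun t => (t.1 : Ideal (𝓞 k))) h
      exact Subtype.ext h8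
    exact_mod_cast h6
  refine ⟨max (κ + 1) ((idl k (N₀ + 1)).card + 1), lt_max_of_lt_right (by positivity), ?_⟩
  intro X
  rcases Nat.eq_zero_or_pos X with rfl | hX0
  · have h4 : idl k 0 = ∅ := by
      rw [Finset.eq_empty_iff_forall_notMem]
      intro I hI
      rw [mem_idl] at hI
      have := absNorm_pos' hI.1
      omega
    rw [h4]
    simp
  have hX' : (0 : ℝ) < X := by exact_mod_cast hX0
  by_cases hX : N₀ ≤ X
  · exact (hle X hX hX0).trans (mul_le_mul_of_nonneg_right (le_max_left _ _) hX'.le)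
  · have h4 : ((idl k X).card : ℝ) ≤ (idl k (N₀ + 1)).card := by
      exact_mod_cast Finset.card_le_card (idl_mono (by omega))
    have h5 : (1 : ℝ) ≤ X := by exact_mod_cast hX0
    calc ((idl k X).card : ℝ) ≤ (idl k (N₀ + 1)).card := h4
      _ ≤ ((idl k (N₀ + 1)).card + 1) * 1 := by linarith
      _ ≤ ((idl k (N₀ + 1)).card + 1) * X := mul_le_mul_of_nonneg_left h5 (by positivity)
      _ ≤ _ := mul_le_mul_of_nonneg_right (le_max_right _ _) hX'.le

open scoped Classical in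
/-- the principal ideals -/
def prin (X : ℕ) : Finset (Ideal (𝓞 k)) := (idl k X).filter fun I => Submodule.IsPrincipal I

open scoped Classical in
/-- the squarefree ideals which are principal up to squares -/
def SQ (X : ℕ) : Finset (Ideal (𝓞 k)) := (idl k X).filter fun J =>
  Squarefree J ∧ ∃ A : Ideal (𝓞 k), A ≠ 0 ∧ Submodule.IsPrincipal (J * A ^ 2)

theorem card_prin_ge : ∃ c : ℝ, 0 < c ∧ ∀ᶠ X : ℕ in atTop, c * X ≤ ((prin k X).card : ℝ) := by
  classical
  obtain ⟨κ, hκ0, hκ⟩ : ∃ κ : ℝ, 0 < κ ∧ Tendsto (fun s : ℝ =>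
    (Nat.card {I : nonZeroDivisors (Ideal (𝓞 k)) //
      absNorm (I : Ideal (𝓞 k)) ≤ s ∧ ClassGroup.mk0 I = 1} : ℝ) / s) atTop (𝓝 κ) := by
    refine ⟨_, ?_, NumberField.Ideal.tendsto_norm_le_and_mk_eq_div_atTop k 1⟩
    have h1 := NumberField.Units.regulator_pos k
    have h2 : (0 : ℝ) < NumberField.Units.torsionOrder k := by
      exact_mod_cast Nat.pos_of_ne_zero (NumberField.Units.torsionOrder_ne_zero k)
    have h3 : (0 : ℝ) < |(discr k : ℝ)| := by
      rw [abs_pos]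
      exact_mod_cast discr_ne_zero k
    have h4 := Real.pi_pos
    positivity
  refine ⟨κ / 2, by positivity, ?_⟩
  have h2 := hκ.comp tendsto_natCast_atTop_atTop
  have h3 := h2.eventually (lt_mem_nhds (half_lt_self hκ0))
  filter_upwards [h3, eventually_gt_atTop 0] with X hX hX0
  simp only [Function.comp_apply] at hX
  have hX' : (0 : ℝ) < X := by exact_mod_cast hX0
  rw [lt_div_iff₀ hX'] at hX
  refine hX.le.trans ?_
  have h6 : Nat.card {I : nonZeroDivisors (Ideal (𝓞 k)) //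
      (absNorm (I : Ideal (𝓞 k)) : ℝ) ≤ (X : ℝ) ∧ ClassGroup.mk0 I = 1} ≤ (prin k X).card := by
    have h7 : (prin k X).card = Nat.card {I // I ∈ prin k X} := by
      rw [Nat.card_eq_fintype_card, Fintype.card_coe]
    rw [h7]
    refine Nat.card_le_card_of_injective
      (fun I : {I : nonZeroDivisors (Ideal (𝓞 k)) //
        (absNorm (I : Ideal (𝓞 k)) : ℝ) ≤ (X : ℝ) ∧ ClassGroup.mk0 I = 1} =>
        (⟨(I.1 : Ideal (𝓞 k)), by
          rw [prin, Finset.mem_filter, mem_idl]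
          refine ⟨⟨nonZeroDivisors.ne_zero I.1.2, by exact_mod_cast I.2.1⟩, ?_⟩
          exact (ClassGroup.mk0_eq_one_iff I.1.2).1 I.2.2⟩ :
          {I : Ideal (𝓞 k) // I ∈ prin k X})) ?_
    intro I I' h
    have h8 : (I.1 : Ideal (𝓞 k)) = I'.1 := congrArg (fun t => (t.1 : Ideal (𝓞 k))) h
    exact Subtype.ext (Subtype.ext h8)
  exact_mod_cast h6

theorem prin_le (X : ℕ) :
    (prin k X).card ≤ ∑ A ∈ idl k X, (SQ k (X / absNorm A ^ 2)).card := by
  classical
  rw [← Finset.card_sigma]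
  have hex : ∀ I : Ideal (𝓞 k), ∃ t : (_ : Ideal (𝓞 k)) × Ideal (𝓞 k), I ≠ 0 →
      Squarefree t.2 ∧ t.1 ≠ 0 ∧ I = t.2 * t.1 ^ 2 := by
    intro I
    by_cases hI : I ≠ 0
    · obtain ⟨J, A, hJ, hA, h⟩ := exists_sq_decomp I hI
      exact ⟨⟨A, J⟩, fun _ => ⟨hJ, hA, h⟩⟩
    · exact ⟨⟨0, 0⟩, fun h => absurd h hI⟩
  choose t ht using hex
  refine Finset.card_le_card_of_injOn t ?_ ?_
  · intro I hI
    rw [Finset.mem_coe, prin, Finset.mem_filter, mem_idl] at hI
    obtain ⟨⟨hI0, hIX⟩, hIp⟩ := hI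
    obtain ⟨hJ, hA, h⟩ := ht I hI0
    have hApos := absNorm_pos' hA
    have hJpos := absNorm_pos' hJ.ne_zero
    have hnorm : absNorm (t I).2 * absNorm (t I).1 ^ 2 ≤ X := by
      rw [← map_pow, ← map_mul, ← h]
      exact hIX
    rw [Finset.mem_coe, Finset.mem_sigma, mem_idl, SQ, Finset.mem_filter, mem_idl]
    refine ⟨⟨hA, ?_⟩, ⟨hJ.ne_zero, ?_⟩, hJ, (t I).1, hA, ?_⟩
    · calc absNorm (t I).1 ≤ absNorm (t I).1 ^ 2 := Nat.le_self_pow two_ne_zero _
        _ = 1 * absNorm (t I).1 ^ 2 := (one_mul _).symm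
        _ ≤ absNorm (t I).2 * absNorm (t I).1 ^ 2 := Nat.mul_le_mul_right _ hJpos
        _ ≤ X := hnorm
    · rw [Nat.le_div_iff_mul_le (pow_pos hApos 2)]
      exact hnorm
    · rw [← h]
      exact hIp
  · intro I hI I' hI' hII
    rw [Finset.mem_coe, prin, Finset.mem_filter, mem_idl] at hI hI'
    rw [(ht I hI.1.1).2.2, (ht I' hI'.1.1).2.2, hII]

theorem tail_le {C : ℝ} (hC : ∀ X : ℕ, ((idl k X).card : ℝ) ≤ C * X) {T : ℕ} (hT : 0 < T) (m : ℕ) :
    ∑ A ∈ (idl k (2 ^ m * T)).filter (fun A => T < absNorm A), (1 : ℝ) / (absNorm A : ℝ) ^ 2 ≤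
      4 * C / T * (1 - 1 / 2 ^ m) := by
  classical
  have hT' : (0 : ℝ) < T := by exact_mod_cast hT
  induction m with
  | zero =>
    have h1 : (idl k (2 ^ 0 * T)).filter (fun A => T < absNorm A) = ∅ := by
      rw [Finset.filter_eq_empty_iff]
      intro A hA
      rw [mem_idl, pow_zero, one_mul] at hA
      omega
    rw [h1]
    simp
  | succ m ih =>
    have hsub : (idl k (2 ^ (m + 1) * T)).filter (fun A => T < absNorm A) ⊆
        (idl k (2 ^ m * T)).filter (fun A => T < absNorm A) ∪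
        (idl k (2 ^ (m + 1) * T)).filter (fun A => 2 ^ m * T < absNorm A) := by
      intro A hA
      rw [Finset.mem_union, Finset.mem_filter, Finset.mem_filter, mem_idl, mem_idl]
      rw [Finset.mem_filter, mem_idl] at hA
      by_cases h : absNorm A ≤ 2 ^ m * T
      · exact Or.inl ⟨⟨hA.1.1, h⟩, hA.2⟩
      · exact Or.inr ⟨hA.1, not_le.1 h⟩
    have hnn : ∀ A : Ideal (𝓞 k), (0 : ℝ) ≤ 1 / (absNorm A : ℝ) ^ 2 := fun A => by positivity
    have h2 : (0 : ℝ) < 2 ^ m * T := by positivity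
    have hlast : ∑ A ∈ (idl k (2 ^ (m + 1) * T)).filter (fun A => 2 ^ m * T < absNorm A),
        (1 : ℝ) / (absNorm A : ℝ) ^ 2 ≤ 2 * C / (2 ^ m * T) := by
      calc ∑ A ∈ (idl k (2 ^ (m + 1) * T)).filter (fun A => 2 ^ m * T < absNorm A),
            (1 : ℝ) / (absNorm A : ℝ) ^ 2
          ≤ ∑ A ∈ (idl k (2 ^ (m + 1) * T)).filter (fun A => 2 ^ m * T < absNorm A),
            1 / (2 ^ m * T : ℝ) ^ 2 := by
            refine Finset.sum_le_sum fun A hA => ?_
            have h3 : (2 ^ m * T : ℝ) ≤ absNorm A := by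
              exact_mod_cast (Finset.mem_filter.1 hA).2.le
            exact one_div_le_one_div_of_le (by positivity) (pow_le_pow_left₀ h2.le h3 2)
        _ = ((idl k (2 ^ (m + 1) * T)).filter (fun A => 2 ^ m * T < absNorm A)).card *
            (1 / (2 ^ m * T : ℝ) ^ 2) := by rw [Finset.sum_const, nsmul_eq_mul]
        _ ≤ (idl k (2 ^ (m + 1) * T)).card * (1 / (2 ^ m * T : ℝ) ^ 2) := by
            refine mul_le_mul_of_nonneg_right ?_ (by positivity)
            exact_mod_cast Finset.card_filter_le _ _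
        _ ≤ (C * ((2 ^ (m + 1) * T : ℕ) : ℝ)) * (1 / (2 ^ m * T : ℝ) ^ 2) :=
            mul_le_mul_of_nonneg_right (hC _) (by positivity)
        _ = 2 * C / (2 ^ m * T) := by
            push_cast
            field_simp
            ring
    calc ∑ A ∈ (idl k (2 ^ (m + 1) * T)).filter (fun A => T < absNorm A),
          (1 : ℝ) / (absNorm A : ℝ) ^ 2
        ≤ ∑ A ∈ (idl k (2 ^ m * T)).filter (fun A => T < absNorm A) ∪
          (idl k (2 ^ (m + 1) * T)).filter (fun A => 2 ^ m * T < absNorm A),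
          (1 : ℝ) / (absNorm A : ℝ) ^ 2 :=
          Finset.sum_le_sum_of_subset_of_nonneg hsub fun A _ _ => hnn A
      _ ≤ ∑ A ∈ (idl k (2 ^ m * T)).filter (fun A => T < absNorm A), (1 : ℝ) / (absNorm A : ℝ) ^ 2 +
          ∑ A ∈ (idl k (2 ^ (m + 1) * T)).filter (fun A => 2 ^ m * T < absNorm A),
            (1 : ℝ) / (absNorm A : ℝ) ^ 2 := by
          rw [← Finset.sum_union_inter]
          exact le_add_of_nonneg_right (Finset.sum_nonneg fun A _ => hnn A)
      _ ≤ 4 * C / T * (1 - 1 / 2 ^ m) + 2 * C / (2 ^ m * T) := add_le_add ih hlast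
      _ = 4 * C / T * (1 - 1 / 2 ^ (m + 1)) := by
          field_simp
          ring

theorem tail_le' {C : ℝ} (hC0 : 0 < C) (hC : ∀ X : ℕ, ((idl k X).card : ℝ) ≤ C * X) {T : ℕ}
    (hT : 0 < T) (X : ℕ) :
    ∑ A ∈ (idl k X).filter (fun A => T < absNorm A), (1 : ℝ) / (absNorm A : ℝ) ^ 2 ≤
      4 * C / T := by
  classical
  have hT' : (0 : ℝ) < T := by exact_mod_cast hT
  obtain ⟨m, hm⟩ : ∃ m : ℕ, X ≤ 2 ^ m * T := ⟨X, by
    calc X ≤ 2 ^ X := Nat.lt_two_pow_self.le
      _ = 2 ^ X * 1 := (mul_one _).symm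
      _ ≤ 2 ^ X * T := Nat.mul_le_mul_left _ hT⟩
  have hsub : (idl k X).filter (fun A => T < absNorm A) ⊆
      (idl k (2 ^ m * T)).filter (fun A => T < absNorm A) :=
    Finset.filter_subset_filter _ (idl_mono hm)
  calc _ ≤ ∑ A ∈ (idl k (2 ^ m * T)).filter (fun A => T < absNorm A),
        (1 : ℝ) / (absNorm A : ℝ) ^ 2 :=
        Finset.sum_le_sum_of_subset_of_nonneg hsub fun A _ _ => by positivity
    _ ≤ 4 * C / T * (1 - 1 / 2 ^ m) := tail_le k hC hT m
    _ ≤ 4 * C / T * 1 := by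
        refine mul_le_mul_of_nonneg_left ?_ (by positivity)
        have : (0 : ℝ) < 1 / 2 ^ m := by positivity
        linarith
    _ = 4 * C / T := mul_one _

theorem SQ_mono {X Y : ℕ} (h : X ≤ Y) : SQ k X ⊆ SQ k Y := by
  classical
  unfold SQ
  exact Finset.filter_subset_filter _ (idl_mono h)

/-- A positive proportion. -/
theorem card_SQ_ge : ∃ δ : ℝ, 0 < δ ∧ ∀ᶠ X : ℕ in atTop, δ * X ≤ ((SQ k X).card : ℝ) := by
  classical
  obtain ⟨C, hC0, hC⟩ := card_idl_le k
  obtain ⟨c, hc0, hc⟩ := card_prin_ge k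
  obtain ⟨T, hT⟩ := exists_nat_ge (8 * C ^ 2 / c + 1)
  have hT1 : (1 : ℝ) ≤ T := by
    have : (0 : ℝ) ≤ 8 * C ^ 2 / c := by positivity
    linarith
  have hT0 : 0 < T := by
    have : (0 : ℝ) < T := by linarith
    exact_mod_cast this
  have hT' : (0 : ℝ) < T := by linarith
  have h4C : 4 * C ^ 2 / T ≤ c / 2 := by
    rw [div_le_iff₀ hT']
    have h1 : 8 * C ^ 2 / c ≤ T := by linarith
    rw [div_le_iff₀ hc0] at h1
    linarith
  have hd : (0 : ℝ) < (idl k T).card + 1 := by positivity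
  refine ⟨c / 2 / ((idl k T).card + 1), by positivity, ?_⟩
  filter_upwards [hc, eventually_ge_atTop T] with X hX hXT
  have h1 : ((prin k X).card : ℝ) ≤ ∑ A ∈ idl k X, ((SQ k (X / absNorm A ^ 2)).card : ℝ) := by
    exact_mod_cast prin_le k X
  have h2 : ∑ A ∈ idl k X, ((SQ k (X / absNorm A ^ 2)).card : ℝ) =
      ∑ A ∈ (idl k X).filter (fun A => ¬ T < absNorm A), ((SQ k (X / absNorm A ^ 2)).card : ℝ) +
      ∑ A ∈ (idl k X).filter (fun A => T < absNorm A), ((SQ k (X / absNorm A ^ 2)).card : ℝ) := by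
    rw [add_comm, Finset.sum_filter_add_sum_filter_not]
  have h3 : ∑ A ∈ (idl k X).filter (fun A => ¬ T < absNorm A),
      ((SQ k (X / absNorm A ^ 2)).card : ℝ) ≤ (idl k T).card * (SQ k X).card := by
    have h5 : (idl k X).filter (fun A => ¬ T < absNorm A) ⊆ idl k T := by
      intro A hA
      rw [Finset.mem_filter, mem_idl] at hA
      exact mem_idl.2 ⟨hA.1.1, not_lt.1 hA.2⟩
    calc _ ≤ ∑ A ∈ (idl k X).filter (fun A => ¬ T < absNorm A), ((SQ k X).card : ℝ) := by
          refine Finset.sum_le_sum fun A _ => ?_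
          exact_mod_cast Finset.card_le_card (SQ_mono k (Nat.div_le_self _ _))
      _ ≤ ∑ A ∈ idl k T, ((SQ k X).card : ℝ) :=
          Finset.sum_le_sum_of_subset_of_nonneg h5 fun _ _ _ => by positivity
      _ = _ := by rw [Finset.sum_const, nsmul_eq_mul]
  have h4 : ∑ A ∈ (idl k X).filter (fun A => T < absNorm A),
      ((SQ k (X / absNorm A ^ 2)).card : ℝ) ≤ c / 2 * X := by
    calc _ ≤ ∑ A ∈ (idl k X).filter (fun A => T < absNorm A),
          (C * X) * (1 / (absNorm A : ℝ) ^ 2) := by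
          refine Finset.sum_le_sum fun A hA => ?_
          have h5 : ((SQ k (X / absNorm A ^ 2)).card : ℝ) ≤ (idl k (X / absNorm A ^ 2)).card := by
            exact_mod_cast Finset.card_filter_le _ _
          refine h5.trans ((hC _).trans ?_)
          rw [mul_assoc]
          refine mul_le_mul_of_nonneg_left ?_ hC0.le
          rw [mul_one_div]
          have h6 := @Nat.cast_div_le ℝ _ _ _ X (absNorm A ^ 2)
          push_cast at h6
          exact h6
      _ = (C * X) * ∑ A ∈ (idl k X).filter (fun A => T < absNorm A),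
          (1 : ℝ) / (absNorm A : ℝ) ^ 2 := by rw [Finset.mul_sum]
      _ ≤ (C * X) * (4 * C / T) := mul_le_mul_of_nonneg_left (tail_le' k hC0 hC hT0 X) (by positivity)
      _ = (4 * C ^ 2 / T) * X := by ring
      _ ≤ c / 2 * X := mul_le_mul_of_nonneg_right h4C (by positivity)
  have h5 : c * X ≤ (idl k T).card * (SQ k X).card + c / 2 * X := by
    rw [h2] at h1
    linarith
  have h6 : c / 2 * X ≤ ((idl k T).card + 1) * (SQ k X).card := by
    have h7 : (0 : ℝ) ≤ (SQ k X).card := by positivity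
    nlinarith
  rw [div_mul_eq_mul_div, div_le_iff₀ hd]
  linarith

end

end

end Pool.Agent.HG
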