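import Pool.Agent.Helper45.HP.Tangent

/-!
# Sign cocycles are given by square roots of constants
-/

set_option autoImplicit false

universe u

namespace Pool.Agent.HG

open Polynomial Pool.Agent.Helper91.Sect

section

variable {k K : Type u} [Field k] [Field K] [Algebra k K] [CharZero k]

theorem exists_twist_sub (s : GaloisSection k K) (H₀ : Subgroup (Gk k K))
    (hH₀ : IsClosed (H₀ : Set (Gk k K))) {W : Kur k K} (hW0 : W ≠ 0)
    (hW : ∀ g ∈ H₀, s.toHom g W = W ∨ s.toHom g W = -W) :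
    ∃ z : kbar k K, z ≠ 0 ∧ ∀ g ∈ H₀, s.toHom g (toKur k K z * W) = toKur k K z * W := by
  classical
  have hcz : CharZero (Kur k K) :=
    charZero_of_injective_algebraMap ((algebraMap K (Kur k K)).comp (algebraMap k K)).injective
  have hne : -W ≠ W := by
    intro h
    have h1 : 2 * W = 0 := by linear_combination -h
    exact hW0 ((mul_eq_zero.1 h1).resolve_left two_ne_zero)
  by_cases hall : ∀ g ∈ H₀, s.toHom g W = W
  · refine ⟨1, one_ne_zero, fun g hg => ?_⟩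
    rw [map_one, one_mul, hall g hg]
  push Not at hall
  obtain ⟨g₀, hg₀0, hg₀⟩ := hall
  have hg₀W : s.toHom g₀ W = -W := (hW g₀ hg₀0).resolve_left hg₀
  set H : Subgroup (Gk k K) := H₀ ⊓ (MulAction.stabilizer (Pi1 k K) W).comap s.toHom with hH
  have hmem : ∀ g : Gk k K, g ∈ H ↔ g ∈ H₀ ∧ s.toHom g W = W := fun g => Iff.rfl
  have hclosed : IsClosed (H : Set (Gk k K)) := by
    have h1 := stabilizer_isOpen_of_isIntegral (K := K) (L := Kur k K) W
    have h2 : IsOpen (((MulAction.stabilizer (Pi1 k K) W).comap s.toHom : Subgroup (Gk k K)) :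
      Set (Gk k K)) := h1.preimage s.continuous_toHom
    exact hH₀.inter (Subgroup.isClosed_of_isOpen _ h2)
  let HC : ClosedSubgroup (Gk k K) := ⟨H, hclosed⟩
  have hfix := InfiniteGalois.fixingSubgroup_fixedField HC
  have hg₀H : g₀ ∉ H := fun h => hg₀ ((hmem g₀).1 h).2
  obtain ⟨u, hu, hgu⟩ : ∃ u ∈ IntermediateField.fixedField H, g₀ u ≠ u := by
    by_contra hcon
    push Not at hcon
    apply hg₀H
    have h1 : g₀ ∈ (IntermediateField.fixedField (HC : Subgroup (Gk k K))).fixingSubgroup := by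
      rw [IntermediateField.mem_fixingSubgroup_iff]
      exact fun z hz => hcon z hz
    rw [hfix] at h1
    exact h1
  have huH : ∀ g ∈ H, g u = u := by
    intro g hg
    rw [IntermediateField.mem_fixedField_iff] at hu
    exact hu g hg
  have hinv : ∀ g : Gk k K, s.toHom g W = -W → s.toHom g⁻¹ W = -W := by
    intro g hg
    have h1 : s.toHom g⁻¹ (s.toHom g W) = W := by
      rw [← AlgEquiv.mul_apply, ← map_mul s.toHom, inv_mul_cancel, map_one]
      rfl
    rw [hg, map_neg] at h1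
    exact neg_eq_iff_eq_neg.1 h1
  have hgg : g₀ * g₀ ∈ H := by
    refine (hmem _).2 ⟨H₀.mul_mem hg₀0 hg₀0, ?_⟩
    rw [map_mul s.toHom, AlgEquiv.mul_apply, hg₀W, map_neg, hg₀W, neg_neg]
  obtain ⟨z, hz⟩ : ∃ z : kbar k K, z = u - g₀ u := ⟨_, rfl⟩
  have hz0 : z ≠ 0 := by
    rw [hz]
    exact sub_ne_zero.2 hgu.symm
  have hzH : ∀ g ∈ H, g z = z := by
    intro g hg
    have h1 : g₀⁻¹ * g * g₀ ∈ H := by
      refine (hmem _).2 ⟨H₀.mul_mem (H₀.mul_mem (H₀.inv_mem hg₀0) ((hmem g).1 hg).1) hg₀0, ?_⟩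
      rw [map_mul s.toHom, map_mul s.toHom, AlgEquiv.mul_apply, AlgEquiv.mul_apply, hg₀W,
        map_neg, ((hmem g).1 hg).2, map_neg, hinv g₀ hg₀W, neg_neg]
    have h2 : g (g₀ u) = g₀ u := by
      have h3 := huH _ h1
      have h4 : g₀ ((g₀⁻¹ * g * g₀) u) = g (g₀ u) := by
        rw [← AlgEquiv.mul_apply, ← AlgEquiv.mul_apply]
        congr 1
        group
      rw [← h4, h3]
    rw [hz, map_sub, huH g hg, h2]
  have hz₀ : g₀ z = -z := by
    have h1 : g₀ (g₀ u) = u := huH _ hgg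
    rw [hz, map_sub, h1]
    ring
  have hact : ∀ g ∈ H₀, s.toHom g W = -W → g z = -z := by
    intro g hg0 hg
    have h1 : g₀⁻¹ * g ∈ H := by
      refine (hmem _).2 ⟨H₀.mul_mem (H₀.inv_mem hg₀0) hg0, ?_⟩
      rw [map_mul s.toHom, AlgEquiv.mul_apply, hg, map_neg, hinv g₀ hg₀W, neg_neg]
    have h2 : g = g₀ * (g₀⁻¹ * g) := by group
    rw [h2, AlgEquiv.mul_apply, hzH _ h1, hz₀]
  refine ⟨z, hz0, fun g hg => ?_⟩
  rw [map_mul, section_toKur]
  rcases hW g hg with h | h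
  · rw [hzH g ((hmem g).2 ⟨hg, h⟩), h]
  · rw [hact g hg h, h, map_neg]
    ring

/-- A family of functions, permuted up to signs by the section, can be corrected by constants. -/
theorem exists_family (s : GaloisSection k K) {R : Finset (kbar k K)}
    (hR : ∀ g : Gk k K, ∀ r ∈ R, g r ∈ R) {W : kbar k K → kbar k K → Kur k K}
    (hW0 : ∀ r ∈ R, ∀ r' ∈ R, W r r' ≠ 0)
    (hW : ∀ g : Gk k K, ∀ r ∈ R, ∀ r' ∈ R,
      s.toHom g (W r r') = W (g r) (g r') ∨ s.toHom g (W r r') = -W (g r) (g r')) :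
    ∃ δ : kbar k K → kbar k K → kbar k K, (∀ r ∈ R, ∀ r' ∈ R, δ r r' ≠ 0) ∧
      ∀ g : Gk k K, ∀ r ∈ R, ∀ r' ∈ R, s.toHom g (toKur k K (δ r r') * W r r') =
        toKur k K (δ (g r) (g r')) * W (g r) (g r') := by
  classical
  -- the correction at one pair
  have hstep : ∀ π : kbar k K × kbar k K, ∃ z : kbar k K, π.1 ∈ R → π.2 ∈ R → z ≠ 0 ∧
      ∀ g : Gk k K, g • π = π →
        s.toHom g (toKur k K z * W π.1 π.2) = toKur k K z * W π.1 π.2 := by
    intro π
    by_cases h : π.1 ∈ R ∧ π.2 ∈ R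
    · have hop : IsOpen ((MulAction.stabilizer (Gk k K) π.1 ⊓ MulAction.stabilizer (Gk k K) π.2 :
          Subgroup (Gk k K)) : Set (Gk k K)) :=
        (stabilizer_isOpen_of_isIntegral (K := k) (L := kbar k K) π.1).inter
          (stabilizer_isOpen_of_isIntegral (K := k) (L := kbar k K) π.2)
      obtain ⟨z, hz0, hz⟩ := exists_twist_sub s
        (MulAction.stabilizer (Gk k K) π.1 ⊓ MulAction.stabilizer (Gk k K) π.2)
        (Subgroup.isClosed_of_isOpen _ hop) (hW0 _ h.1 _ h.2) (by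
          rintro g ⟨hg1, hg2⟩
          have h1 : g π.1 = π.1 := hg1
          have h2 : g π.2 = π.2 := hg2
          have h3 := hW g _ h.1 _ h.2
          rwa [h1, h2] at h3)
      refine ⟨z, fun _ _ => ⟨hz0, fun g hg => hz g ⟨?_, ?_⟩⟩⟩
      · exact congrArg Prod.fst hg
      · exact congrArg Prod.snd hg
    · exact ⟨0, fun h1 h2 => absurd ⟨h1, h2⟩ h⟩
  choose z hz using hstep
  -- representatives
  have hrep : ∀ π : kbar k K × kbar k K, ∃ g : Gk k K,
      g • (Quotient.out (Quotient.mk (MulAction.orbitRel (Gk k K) (kbar k K × kbar k K)) π)) = π := by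
    intro π
    have h1 := (MulAction.orbitRel (Gk k K) (kbar k K × kbar k K)).symm
      (Quotient.mk_out (s := MulAction.orbitRel (Gk k K) (kbar k K × kbar k K)) π)
    exact h1
  choose G hG using hrep
  obtain ⟨rep, hrepdef⟩ : ∃ rep : kbar k K × kbar k K → kbar k K × kbar k K, ∀ π, rep π =
    Quotient.out (Quotient.mk (MulAction.orbitRel (Gk k K) (kbar k K × kbar k K)) π) :=
    ⟨_, fun _ => rfl⟩
  have hG' : ∀ π, G π • rep π = π := fun π => by rw [hrepdef]; exact hG π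
  have hrepg : ∀ (g : Gk k K) π, rep (g • π) = rep π := by
    intro g π
    rw [hrepdef, hrepdef]
    congr 1
    apply Quotient.sound
    exact ⟨g, rfl⟩
  have hrepR : ∀ π : kbar k K × kbar k K, π.1 ∈ R → π.2 ∈ R → (rep π).1 ∈ R ∧ (rep π).2 ∈ R := by
    intro π h1 h2
    have h3 : rep π = (G π)⁻¹ • π := by
      rw [eq_inv_smul_iff]
      exact hG' π
    rw [h3]
    exact ⟨hR _ _ h1, hR _ _ h2⟩
  obtain ⟨Θ, hΘ⟩ : ∃ Θ : kbar k K × kbar k K → Kur k K, ∀ π, Θ π =
      s.toHom (G π) (toKur k K (z (rep π)) * W (rep π).1 (rep π).2) := ⟨_, fun _ => rfl⟩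
  have hΘg : ∀ (g : Gk k K) (π : kbar k K × kbar k K), π.1 ∈ R → π.2 ∈ R →
      s.toHom g (Θ π) = Θ (g • π) := by
    intro g π h1 h2
    obtain ⟨h3, h4⟩ := hrepR π h1 h2
    rw [hΘ, hΘ, hrepg]
    have h5 : ((G (g • π))⁻¹ * g * G π) • rep π = rep π := by
      rw [mul_smul, mul_smul, hG' π, inv_smul_eq_iff, ← hrepg g π]
      exact (hG' (g • π)).symm
    have h6 := (hz (rep π) h3 h4).2 _ h5
    have h7 : g * G π = G (g • π) * ((G (g • π))⁻¹ * g * G π) := by group
    rw [← AlgEquiv.mul_apply, ← map_mul s.toHom, h7, map_mul s.toHom, AlgEquiv.mul_apply, h6]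
  have hδ : ∀ π : kbar k K × kbar k K, ∃ d : kbar k K, π.1 ∈ R → π.2 ∈ R → d ≠ 0 ∧
      Θ π = toKur k K d * W π.1 π.2 := by
    intro π
    by_cases h : π.1 ∈ R ∧ π.2 ∈ R
    · obtain ⟨h3, h4⟩ := hrepR π h.1 h.2
      have h5 := hW (G π) _ h3 _ h4
      have h6 : (G π) (rep π).1 = π.1 := congrArg Prod.fst (hG' π)
      have h7 : (G π) (rep π).2 = π.2 := congrArg Prod.snd (hG' π)
      rw [h6, h7] at h5
      have hz0 := (hz (rep π) h3 h4).1
      have h8 : (G π) (z (rep π)) ≠ 0 := (_root_.map_ne_zero _).2 hz0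
      rcases h5 with h5 | h5
      · refine ⟨(G π) (z (rep π)), fun _ _ => ⟨h8, ?_⟩⟩
        rw [hΘ, map_mul, section_toKur, h5]
      · refine ⟨-(G π) (z (rep π)), fun _ _ => ⟨neg_ne_zero.2 h8, ?_⟩⟩
        rw [hΘ, map_mul, section_toKur, h5, map_neg]
        ring
    · exact ⟨0, fun h1 h2 => absurd ⟨h1, h2⟩ h⟩
  choose d hd using hδ
  refine ⟨fun r r' => d (r, r'), fun r hr r' hr' => (hd (r, r') hr hr').1, ?_⟩
  intro g r hr r' hr'
  have h1 := (hd (r, r') hr hr').2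
  have h2 := (hd (g r, g r') (hR g _ hr) (hR g _ hr')).2
  have h3 := hΘg g (r, r') hr hr'
  rw [h1] at h3
  rw [h3]
  exact h2

end

end Pool.Agent.HG
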